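import Pool.Agent.Helper45.TG2.Main

/-!
# Project TG2 (A): the form in which the result is used
-/

set_option autoImplicit false

namespace Pool.Agent.Helper45.TG2

open MvPolynomial Height AdmissibleAbsValues
open Pool.Agent.Helper29.TG
open Pool.Agent.Helper36 (step iter)
open Pool.Agent.Helper33.SS (jprod itp)

theorem Final_sum_le {K : Type} [Field K] {v : AbsoluteValue K ℝ} (hv : IsNonarchimedean v)
    {α : Type*} (s : Finset α) {f : α → K} (hf : ∀ a ∈ s, v (f a) ≤ 1) : v (∑ a ∈ s, f a) ≤ 1 := by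
  classical
  induction s using Finset.induction_on with
  | empty => simp
  | insert a s ha ih =>
    rw [Finset.sum_insert ha]
    exact (hv _ _).trans (max_le (hf a (Finset.mem_insert_self _ _))
      (ih fun b hb => hf b (Finset.mem_insert_of_mem hb)))

theorem Final_mul_le {K : Type} [Field K] {v : AbsoluteValue K ℝ} (hv : IsNonarchimedean v)
    {A B : Matrix (Fin 3) (Fin 3) K} (hA : ∀ r s, v (A r s) ≤ 1) (hB : ∀ r s, v (B r s) ≤ 1)
    (r s : Fin 3) : v ((A * B) r s) ≤ 1 := by
  rw [Matrix.mul_apply]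
  refine Final_sum_le hv _ fun j _ => ?_
  rw [map_mul]
  exact mul_le_one₀ (hA _ _) (v.nonneg _) (hB _ _)

theorem Final_adj_le {K : Type} [Field K] {v : AbsoluteValue K ℝ} (hv : IsNonarchimedean v)
    {A : Matrix (Fin 3) (Fin 3) K} (hA : ∀ r s, v (A r s) ≤ 1) (r s : Fin 3) :
    v (A.adjugate r s) ≤ 1 := by
  rw [Matrix.adjugate_apply, Matrix.det_apply]
  refine Final_sum_le hv _ fun σ _ => ?_
  have h1 : v (Equiv.Perm.sign σ • ∏ i, A.updateRow s (Pi.single r 1) (σ i) i) =
      v (∏ i, A.updateRow s (Pi.single r 1) (σ i) i) := by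
    rcases Int.units_eq_one_or (Equiv.Perm.sign σ) with h | h
    · rw [h, one_smul]
    · rw [h, Units.neg_smul, one_smul, v.map_neg]
  rw [h1, map_prod]
  refine Finset.prod_le_one (fun i _ => v.nonneg _) fun i _ => ?_
  rcases eq_or_ne (σ i) s with h | h
  · rw [h, Matrix.updateRow_self]
    rcases eq_or_ne i r with h' | h'
    · rw [h', Pi.single_eq_same, map_one]
    · rw [Pi.single_eq_of_ne h', map_zero]
      exact zero_le_one
  · rw [Matrix.updateRow_ne h]
    exact hA _ _

/-- A good place with contact where the tangent map is not nilpotent. -/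
theorem exists_not_nilpotent {K : Type} [Field K] [NumberField K] [Algebra K ℂ] {d : ℕ}
    (hd : 2 ≤ d) (F : Fin 3 → MvPolynomial (Fin 3) K) (hF : ∀ i, (F i).IsHomogeneous d)
    (hnz : ∀ x : Fin 3 → ℂ, (∀ i, aeval x (F i) = 0) → x = 0)
    {x : ℕ → Fin 3 → K} (hx : ∀ n, x n ≠ 0) (hstep : ∀ n, x (n + 1) = step F (x n))
    (hnp : ∀ n m, n ≠ m → cr (x n) (x m) ≠ 0)
    {g : MvPolynomial (Fin 3) K} {e : ℕ} (hg : g.IsHomogeneous e) (hirr : Irreducible g)
    (hinv : ∀ l, 1 ≤ l → ¬ g ∣ aeval (itp F l) g)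
    (hinf : {n | eval (x n) g = 0}.Infinite)
    {B : Set (AbsoluteValue K ℝ)} (hB : B.Finite) :
    ∃ v ∈ nonarchAbsVal (K := K), v ∉ B ∧ ∃ i n, i < n ∧ 0 < ct v (x i) (x n) ∧
      ∃ c : K, (∀ j, v (c * x i j) ≤ 1) ∧ (∃ j, v (c * x i j) = 1) ∧
        ∃ r s, v (((jprod F (c • x i) (n - i)).adjugate ^ 3) r s) = 1 := by
  have hiter : ∀ n, iter F (x 0) n = x n := by
    intro n
    induction n with
    | zero => rfl
    | succ n ih => rw [Pool.Agent.Helper36.iter_succ, ih, hstep]
  obtain ⟨v, hv, hvB, i, n, -, hin, -, -, hct, c, hc, hnil⟩ := exists_not_nil hd hF hnz (hx 0)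
    (fun n m hnm => by rw [hiter, hiter]; exact hnp n m hnm) hg hirr hinv
    (by simp only [hiter]; exact hinf) (hB.union (finite_not_good hF hnz)) 0
  rw [hiter, hiter] at hct
  rw [hiter] at hc hnil
  rw [Set.mem_union, not_or] at hvB
  have hgood : Good v d F := by
    by_contra h
    exact hvB.2 ⟨hv, h⟩
  have hna := hgood.na
  have hint : ∀ i, CoeffInt v (F i) := fun i m => hgood.int i m
  have hc1 : ∀ j, v (c * x i j) ≤ 1 := fun j => by
    have := le_nm v (c • x i) j
    rwa [hc] at this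
  refine ⟨v, hv, hvB.1, i, n, hin, hct, c, hc1, ?_, ?_⟩
  · have h0 : c • x i ≠ 0 := by
      intro h0
      rw [h0] at hc
      have : nm v (0 : Fin 3 → K) = 0 := by
        unfold nm
        simp
      rw [this] at hc
      exact zero_ne_one hc
    obtain ⟨j, -, hj⟩ := exists_nm_eq v h0
    exact ⟨j, by rw [← hj.symm.trans hc]; rfl⟩
  · have h1 := val_jprod_le hna hint (u := c • x i) hc1 (n - i)
    have h2 := Final_adj_le hna h1
    have h3 : ∀ r s, v (((jprod F (c • x i) (n - i)).adjugate ^ 3) r s) ≤ 1 := by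
      rw [pow_succ, pow_succ, pow_one]
      exact Final_mul_le hna (Final_mul_le hna h2 h2) h2
    by_contra hcon
    push Not at hcon
    exact hnil fun r s => lt_of_le_of_ne (h3 r s) (hcon r s)

end Pool.Agent.Helper45.TG2
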