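import Pool.Agent.Helper45.TG2.Defs

/-!
# Project TG2 (A): basic facts about iterates over extensions
-/

set_option autoImplicit false

namespace Pool.Agent.Helper45.TG2

open MvPolynomial Height AdmissibleAbsValues
open Pool.Agent.Helper29.TG
open Pool.Agent.Helper36 (step iter)
open Pool.Agent.Helper33.SS (jprod itp)

section

variable {K : Type} [Field K] {L : Type} [Field L] [Algebra K L]

theorem iter_smulL {d : ℕ} {F : Fin 3 → MvPolynomial (Fin 3) K} (hF : ∀ i, (F i).IsHomogeneous d)
    (c : L) (y : Fin 3 → L) (n : ℕ) : iter F (c • y) n = c ^ d ^ n • iter F y n := by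
  induction n with
  | zero => simp [Pool.Agent.Helper36.iter_zero]
  | succ n ih =>
    rw [Pool.Agent.Helper36.iter_succ, Pool.Agent.Helper36.iter_succ, ih]
    funext i
    rw [Pi.smul_apply, smul_eq_mul, pow_succ, pow_mul]
    exact Pool.Agent.Helper36.aeval_smul_homogeneous (hF i) (c ^ d ^ n) (iter F y n)

theorem aeval_smulL {g : MvPolynomial (Fin 3) K} {D : ℕ} (hg : g.IsHomogeneous D) (c : L)
    (y : Fin 3 → L) : aeval (c • y) g = c ^ D * aeval y g :=
  Pool.Agent.Helper36.aeval_smul_homogeneous hg c y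

theorem aeval_itp (F : Fin 3 → MvPolynomial (Fin 3) K) (P : MvPolynomial (Fin 3) K) (N : ℕ)
    (y : Fin 3 → L) : aeval y (aeval (itp F N) P) = aeval (iter F y N) P := by
  have h0 : ∀ n, (fun i => aeval y (itp F n i)) = iter F y n := by
    intro n
    induction n with
    | zero =>
      funext i
      rw [Pool.Agent.Helper36.iter_zero]
      show aeval y (X i) = y i
      rw [aeval_X]
    | succ n ih =>
      rw [Pool.Agent.Helper36.iter_succ]
      funext i
      show aeval y (aeval (itp F n) (F i)) = aeval (iter F y n) (F i)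
      rw [← ih, comp_aeval_apply]
  rw [comp_aeval_apply, h0]

theorem iter_inc (F : Fin 3 → MvPolynomial (Fin 3) K) (x : Fin 3 → K) (N : ℕ) :
    iter F (inc L x) N = inc L (iter F x N) :=
  Pool.Agent.Helper36.iter_map F (Algebra.ofId K L) x N

theorem inc_ne_zero {x : Fin 3 → K} (hx : x ≠ 0) : inc L x ≠ 0 := by
  intro h0
  refine hx (funext fun a => ?_)
  have h1 : algebraMap K L (x a) = 0 := congrFun h0 a
  rw [← map_zero (algebraMap K L)] at h1
  exact (algebraMap K L).injective h1

theorem aeval_inc (g : MvPolynomial (Fin 3) K) (x : Fin 3 → K) :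
    aeval (inc L x) g = algebraMap K L (eval x g) := by
  have h1 := MvPolynomial.aeval_algebraMap_apply (A := K) (B := L) x g
  rw [MvPolynomial.aeval_eq_eval] at h1
  exact h1

/-- The certificate at a point over an extension. -/
theorem cert_apply {d : ℕ} {F : Fin 3 → MvPolynomial (Fin 3) K} {M : ℕ}
    {q : Fin 3 × Fin 3 → MvPolynomial (Fin 3) K}
    (h : ∀ a, ∑ j, q (a, j) * F j = MvPolynomial.X a ^ (M + d))
    (y : Fin 3 → L) (a : Fin 3) :
    y a ^ (M + d) = ∑ j, eval y (map (algebraMap K L) (q (a, j))) * step F y j := by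
  have h2 := congrArg (aeval y) (h a)
  rw [map_pow, aeval_X, map_sum] at h2
  rw [← h2]
  refine Finset.sum_congr rfl fun j _ => ?_
  rw [map_mul, eval_map, aeval_def, aeval_def]
  rfl

theorem step_ne_zeroL [Algebra K ℂ] {d : ℕ} (hd : 2 ≤ d) {F : Fin 3 → MvPolynomial (Fin 3) K}
    (hF : ∀ i, (F i).IsHomogeneous d)
    (hnz : ∀ x : Fin 3 → ℂ, (∀ i, aeval x (F i) = 0) → x = 0) {y : Fin 3 → L} (hy : y ≠ 0) :
    step F y ≠ 0 := by
  obtain ⟨M, q, hq, h⟩ := Pool.Agent.Helper36.exists_nullstellensatz (L := ℂ) F hF hnz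
  intro h0
  apply hy
  funext a
  have h1 := cert_apply h y a
  rw [h0] at h1
  simp only [Pi.zero_apply, mul_zero, Finset.sum_const_zero] at h1
  exact (pow_eq_zero_iff (by omega)).1 h1

theorem iter_ne_zeroL [Algebra K ℂ] {d : ℕ} (hd : 2 ≤ d) {F : Fin 3 → MvPolynomial (Fin 3) K}
    (hF : ∀ i, (F i).IsHomogeneous d)
    (hnz : ∀ x : Fin 3 → ℂ, (∀ i, aeval x (F i) = 0) → x = 0) {y : Fin 3 → L} (hy : y ≠ 0)
    (n : ℕ) : iter F y n ≠ 0 := by
  induction n with
  | zero => exact hy
  | succ n ih =>
    rw [Pool.Agent.Helper36.iter_succ]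
    exact step_ne_zeroL hd hF hnz ih

end

/-- A residue class which contains infinitely many returns. -/
theorem exists_class {T : ℕ → Prop} (hT : {n | T n}.Infinite) (i : ℕ) {N : ℕ} (hN : 0 < N) :
    ∃ r, r < N ∧ {j | T (i + r + N * j)}.Infinite := by
  classical
  by_contra hcon
  push Not at hcon
  have hfin : ∀ r, r < N → {j | T (i + r + N * j)}.Finite := fun r hr =>
    hcon r hr
  apply hT
  have h1 : ({n | T n} : Set ℕ) ⊆ Set.Iio i ∪
      ⋃ r ∈ Finset.range N, (fun j => i + r + N * j) '' {j | T (i + r + N * j)} := by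
    intro n hn
    rcases Nat.lt_or_ge n i with h | h
    · exact Or.inl h
    · right
      simp only [Set.mem_iUnion, Set.mem_image]
      refine ⟨(n - i) % N, Finset.mem_range.2 (Nat.mod_lt _ hN), (n - i) / N, ?_, ?_⟩
      · have h2 : i + (n - i) % N + N * ((n - i) / N) = n := by
          have := Nat.mod_add_div (n - i) N
          omega
        show T (i + (n - i) % N + N * ((n - i) / N))
        rw [h2]
        exact hn
      · have := Nat.mod_add_div (n - i) N
        omega
  refine Set.Finite.subset ((Set.finite_Iio i).union ?_) h1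
  exact Set.Finite.biUnion (Finset.finite_toSet _) fun r hr =>
    (hfin r (Finset.mem_range.1 hr)).image _

end Pool.Agent.Helper45.TG2
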