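import Pool.Agent.Helper45.TG2.Base

/-!
# Project TG2 (A): places of good reduction
-/

set_option autoImplicit false

namespace Pool.Agent.Helper45.TG2

open MvPolynomial Height AdmissibleAbsValues
open Pool.Agent.Helper29.TG
open Pool.Agent.Helper36 (step iter)
open Pool.Agent.Helper33.SS (jprod itp)

section aux

variable {E : Type} [Field E] {w : AbsoluteValue E ℝ}

private theorem gp_sum_le (hw : IsNonarchimedean w) {α : Type} (s : Finset α) (f : α → E) {B : ℝ}
    (hB : 0 ≤ B) (h : ∀ a ∈ s, w (f a) ≤ B) : w (∑ a ∈ s, f a) ≤ B := by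
  rcases s.eq_empty_or_nonempty with h0 | hs
  · rw [h0, Finset.sum_empty, map_zero]
    exact hB
  · obtain ⟨a, ha, h1⟩ := IsNonarchimedean.finset_image_add_of_nonempty hw f hs
    exact h1.trans (h a ha)

private theorem gp_mul_sub (hw : IsNonarchimedean w) {a a' b b' : E} {ε : ℝ} (ha : w a ≤ 1)
    (hb' : w b' ≤ 1) (h1 : w (a' - a) ≤ ε) (h2 : w (b' - b) ≤ ε) :
    w (a' * b' - a * b) ≤ ε := by
  have h3 : a' * b' - a * b = (a' - a) * b' + a * (b' - b) := by ring
  rw [h3]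
  refine (hw _ _).trans (max_le ?_ ?_)
  · rw [map_mul]
    calc w (a' - a) * w b' ≤ w (a' - a) * 1 := mul_le_mul_of_nonneg_left hb' (w.nonneg _)
      _ ≤ ε := by rw [mul_one]; exact h1
  · rw [map_mul]
    calc w a * w (b' - b) ≤ 1 * w (b' - b) := mul_le_mul_of_nonneg_right ha (w.nonneg _)
      _ ≤ ε := by rw [one_mul]; exact h2

private theorem gp_pow_le {a : E} (ha : w a ≤ 1) (n : ℕ) : w (a ^ n) ≤ 1 := by
  rw [map_pow]
  exact pow_le_one₀ (w.nonneg _) ha

private theorem gp_prod_le {α : Type} (s : Finset α) {f : α → E} (hf : ∀ a ∈ s, w (f a) ≤ 1) :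
    w (∏ a ∈ s, f a) ≤ 1 := by
  rw [map_prod]
  exact Finset.prod_le_one (fun a _ => w.nonneg _) hf

private theorem gp_pow_sub (hw : IsNonarchimedean w) {a a' : E} {ε : ℝ} (hε : 0 ≤ ε)
    (ha : w a ≤ 1) (ha' : w a' ≤ 1) (h : w (a' - a) ≤ ε) (n : ℕ) : w (a' ^ n - a ^ n) ≤ ε := by
  induction n with
  | zero =>
    rw [pow_zero, pow_zero, sub_self, map_zero]
    exact hε
  | succ n ih =>
    rw [pow_succ, pow_succ]
    exact gp_mul_sub hw (gp_pow_le ha n) ha' ih h

private theorem gp_prod_sub (hw : IsNonarchimedean w) {α : Type} (s : Finset α) {f f' : α → E}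
    {ε : ℝ} (hε : 0 ≤ ε) (hf : ∀ a ∈ s, w (f a) ≤ 1) (hf' : ∀ a ∈ s, w (f' a) ≤ 1)
    (h : ∀ a ∈ s, w (f' a - f a) ≤ ε) : w (∏ a ∈ s, f' a - ∏ a ∈ s, f a) ≤ ε := by
  classical
  induction s using Finset.induction_on with
  | empty =>
    rw [Finset.prod_empty, Finset.prod_empty, sub_self, map_zero]
    exact hε
  | insert a s ha ih =>
    rw [Finset.prod_insert ha, Finset.prod_insert ha]
    refine gp_mul_sub hw (hf a (Finset.mem_insert_self a s))
      (gp_prod_le s fun b hb => hf' b (Finset.mem_insert_of_mem hb))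
      (h a (Finset.mem_insert_self a s)) ?_
    exact ih (fun b hb => hf b (Finset.mem_insert_of_mem hb))
      (fun b hb => hf' b (Finset.mem_insert_of_mem hb))
      (fun b hb => h b (Finset.mem_insert_of_mem hb))

end aux

section one

variable {K E : Type} [Field K] [Field E] [Algebra K E] {w : AbsoluteValue E ℝ} {d : ℕ}
  {F : Fin 3 → MvPolynomial (Fin 3) K}

private theorem gp_aeval (y : Fin 3 → E) (P : MvPolynomial (Fin 3) K) :
    aeval y P = eval y (map (algebraMap K E) P) := by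
  rw [eval_map, aeval_def]

private theorem gp_nm_step (hb : Good w d F) {y : Fin 3 → E} (hy : y ≠ 0) :
    nm w (step F y) = nm w y ^ d := by
  have hpos := nm_pos w hy
  apply le_antisymm
  · refine nm_le (pow_nonneg hpos.le _) fun i => ?_
    show w (aeval y (F i)) ≤ _
    rw [gp_aeval]
    have h1 := Df_eval_le_na hb.na ((hb.hom i).map (algebraMap K E)) zero_le_one
      (fun m _ => by rw [coeff_map]; exact hb.int i m) y
    rwa [one_mul] at h1
  · obtain ⟨M, q, hq, hqi, hcert⟩ := hb.cert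
    obtain ⟨k, hk⟩ := exists_nm_eq w hy
    have h1 := cert_apply hcert y k
    have h2 : w (y k ^ (M + d)) ≤ nm w y ^ M * nm w (step F y) := by
      rw [h1]
      refine gp_sum_le hb.na _ _ (mul_nonneg (pow_nonneg hpos.le _) (nm_nonneg _ _))
        fun j _ => ?_
      rw [map_mul]
      have h3 := Df_eval_le_na hb.na ((hq (k, j)).map (algebraMap K E)) zero_le_one
        (fun m _ => by rw [coeff_map]; exact hqi (k, j) m) y
      rw [one_mul] at h3
      exact mul_le_mul h3 (le_nm w (step F y) j) (w.nonneg _) (pow_nonneg hpos.le _)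
    have h4 : nm w y = w (y k) := hk.2
    rw [map_pow, ← h4, pow_add] at h2
    exact le_of_mul_le_mul_left h2 (pow_pos hpos M)

theorem Good.step_ne_zero (hb : Good w d F) (hd : 1 ≤ d) {y : Fin 3 → E} (hy : y ≠ 0) :
    step F y ≠ 0 := by
  intro h0
  have h1 := gp_nm_step hb hy
  have h2 : nm w (step F y) ≤ 0 := nm_le le_rfl fun i => by
    rw [h0]
    simp
  rw [h1] at h2
  exact absurd h2 (not_le.2 (pow_pos (nm_pos w hy) d))

theorem Good.nm_step (hb : Good w d F) {y : Fin 3 → E} (hy : y ≠ 0) :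
    nm w (step F y) = nm w y ^ d := gp_nm_step hb hy

theorem Good.iter_ne_zero (hb : Good w d F) (hd : 1 ≤ d) {y : Fin 3 → E} (hy : y ≠ 0) (n : ℕ) :
    iter F y n ≠ 0 := by
  induction n with
  | zero => exact hy
  | succ n ih =>
    rw [Pool.Agent.Helper36.iter_succ]
    exact hb.step_ne_zero hd ih

theorem Good.nm_iter (hb : Good w d F) (hd : 1 ≤ d) {y : Fin 3 → E} (hy : y ≠ 0) (n : ℕ) :
    nm w (iter F y n) = nm w y ^ d ^ n := by
  induction n with
  | zero => rw [Pool.Agent.Helper36.iter_zero, pow_zero, pow_one]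
  | succ n ih =>
    rw [Pool.Agent.Helper36.iter_succ, hb.nm_step (hb.iter_ne_zero hd hy n), ih, pow_succ, pow_mul]

/-- values of integral polynomials at integral points -/
theorem aeval_val_le (hw : IsNonarchimedean w) {P : MvPolynomial (Fin 3) K}
    (hP : ∀ m, w (algebraMap K E (P.coeff m)) ≤ 1) {y : Fin 3 → E} (hy : ∀ a, w (y a) ≤ 1) :
    w (aeval y P) ≤ 1 := by
  rw [gp_aeval, eval_eq]
  refine gp_sum_le hw _ _ zero_le_one fun m _ => ?_
  rw [map_mul, coeff_map]
  exact mul_le_one₀ (hP m) (w.nonneg _) (gp_prod_le _ fun i _ => gp_pow_le (hy i) _)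

/-- Integral polynomials are Lipschitz on integral points. -/
theorem aeval_sub_le (hw : IsNonarchimedean w) {P : MvPolynomial (Fin 3) K}
    (hP : ∀ m, w (algebraMap K E (P.coeff m)) ≤ 1) {y y' : Fin 3 → E} (hy : ∀ a, w (y a) ≤ 1)
    (hy' : ∀ a, w (y' a) ≤ 1) {ε : ℝ} (hε : 0 ≤ ε) (h : ∀ a, w (y' a - y a) ≤ ε) :
    w (aeval y' P - aeval y P) ≤ ε := by
  rw [gp_aeval, gp_aeval, eval_eq, eval_eq, ← Finset.sum_sub_distrib]
  refine gp_sum_le hw _ _ hε fun m _ => ?_
  rw [← mul_sub, map_mul, coeff_map]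
  have h1 : w (∏ i ∈ m.support, y' i ^ m i - ∏ i ∈ m.support, y i ^ m i) ≤ ε :=
    gp_prod_sub hw _ hε (fun i _ => gp_pow_le (hy i) _) (fun i _ => gp_pow_le (hy' i) _)
      fun i _ => gp_pow_sub hw hε (hy i) (hy' i) (h i) _
  calc w (algebraMap K E (coeff m P)) *
        w (∏ i ∈ m.support, y' i ^ m i - ∏ i ∈ m.support, y i ^ m i)
      ≤ 1 * w (∏ i ∈ m.support, y' i ^ m i - ∏ i ∈ m.support, y i ^ m i) :=
        mul_le_mul_of_nonneg_right (hP m) (w.nonneg _)
    _ ≤ ε := by rw [one_mul]; exact h1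

theorem Good.iter_int (hb : Good w d F) {y : Fin 3 → E} (hy : ∀ a, w (y a) ≤ 1) (n : ℕ) (a : Fin 3) :
    w (iter F y n a) ≤ 1 := by
  induction n generalizing a with
  | zero => exact hy a
  | succ n ih =>
    rw [Pool.Agent.Helper36.iter_succ]
    exact aeval_val_le hb.na (hb.int a) ih

theorem Good.iter_sub_le (hb : Good w d F) {y y' : Fin 3 → E} (hy : ∀ a, w (y a) ≤ 1)
    (hy' : ∀ a, w (y' a) ≤ 1) {ε : ℝ} (hε : 0 ≤ ε) (h : ∀ a, w (y' a - y a) ≤ ε) (n : ℕ)
    (a : Fin 3) : w (iter F y' n a - iter F y n a) ≤ ε := by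
  induction n generalizing a with
  | zero => exact h a
  | succ n ih =>
    rw [Pool.Agent.Helper36.iter_succ, Pool.Agent.Helper36.iter_succ]
    exact aeval_sub_le hb.na (hb.int a) (hb.iter_int hy n) (hb.iter_int hy' n) hε ih

theorem Good.extend {v : AbsoluteValue K ℝ} (hb : Good v d F) (hw : IsNonarchimedean w)
    (hvw : ∀ a : K, w (algebraMap K E a) = v a) : Good w d F := by
  obtain ⟨M, q, hq, hqi, hcert⟩ := hb.cert
  exact ⟨hw, hb.hom, fun i m => by rw [hvw]; exact hb.int i m,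
    M, q, hq, fun a m => by rw [hvw]; exact hqi a m, hcert⟩

end one

section two

variable {K : Type} [Field K] [NumberField K] [Algebra K ℂ]

theorem finite_not_good {d : ℕ} {F : Fin 3 → MvPolynomial (Fin 3) K}
    (hF : ∀ i, (F i).IsHomogeneous d)
    (hnz : ∀ x : Fin 3 → ℂ, (∀ i, aeval x (F i) = 0) → x = 0) :
    {v : AbsoluteValue K ℝ | v ∈ nonarchAbsVal (K := K) ∧ ¬ Good v d F}.Finite := by
  obtain ⟨M, q, hq, h⟩ := Pool.Agent.Helper36.exists_nullstellensatz (L := ℂ) F hF hnz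
  have h1 : (⋃ i : Fin 3, {v : AbsoluteValue K ℝ | v ∈ nonarchAbsVal (K := K) ∧
      ¬ CoeffInt v (F i)}).Finite := Set.finite_iUnion fun i => finite_not_coeffInt (F i)
  have h2 : (⋃ a : Fin 3 × Fin 3, {v : AbsoluteValue K ℝ | v ∈ nonarchAbsVal (K := K) ∧
      ¬ CoeffInt v (q a)}).Finite := Set.finite_iUnion fun a => finite_not_coeffInt (q a)
  refine (h1.union h2).subset ?_
  rintro v ⟨hv, hg⟩
  by_contra hcon
  rw [Set.mem_union, not_or] at hcon
  apply hg
  refine ⟨isNonarchimedean v hv, hF, fun i m => ?_, M, q, hq, fun a m => ?_, h⟩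
  · by_contra h3
    apply hcon.1
    rw [Set.mem_iUnion]
    exact ⟨i, hv, fun h4 => h3 (h4 m)⟩
  · by_contra h3
    apply hcon.2
    rw [Set.mem_iUnion]
    exact ⟨a, hv, fun h4 => h3 (h4 m)⟩

end two

end Pool.Agent.Helper45.TG2
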