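import Pool.Agent.Helper45.TG2.Defs

/-!
# Project TG2 (A): a matrix whose adjugate is nilpotent modulo v
-/

set_option autoImplicit false

namespace Pool.Agent.Helper45.TG2

open MvPolynomial Height AdmissibleAbsValues
open Pool.Agent.Helper29.TG
open Pool.Agent.Helper36 (step iter)
open Pool.Agent.Helper33.SS (jprod itp)

section domain

variable {R : Type} [CommRing R]

theorem Lin_cayley (M : Matrix (Fin 3) (Fin 3) R) :
    M ^ 3 = M.trace • M ^ 2 - M.adjugate.trace • M + M.det • (1 : Matrix (Fin 3) (Fin 3) R) := by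
  ext i j
  rw [Matrix.det_fin_three, Matrix.adjugate_fin_three]
  fin_cases i <;> fin_cases j <;>
    simp [pow_succ, Matrix.mul_apply, Fin.sum_univ_three, Matrix.trace, Matrix.diag] <;> ring

theorem Lin_adj (J : Matrix (Fin 3) (Fin 3) R) (u : Fin 3 → R) (p : Fin 3) :
    (Matrix.of fun a b => J a b - u a * J p b : Matrix (Fin 3) (Fin 3) R).adjugate.trace =
      J.adjugate.trace - J.trace * (∑ s, J p s * u s) + ∑ s, J p s * (∑ t, J s t * u t) := by
  rw [Matrix.adjugate_fin_three, Matrix.adjugate_fin_three]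
  fin_cases p <;>
    simp [Fin.sum_univ_three, Matrix.trace, Matrix.diag] <;> ring

theorem Lin_det (J : Matrix (Fin 3) (Fin 3) R) (u : Fin 3 → R) (p : Fin 3) :
    (Matrix.of fun a b => J a b - u a * J p b : Matrix (Fin 3) (Fin 3) R).det =
      J.det * (1 - u p) := by
  rw [Matrix.det_fin_three, Matrix.det_fin_three]
  fin_cases p <;>
    simp <;> ring

theorem Lin_domain [IsDomain R] {J : Matrix (Fin 3) (Fin 3) R} {u : Fin 3 → R} {p : Fin 3}
    (hp : u p = 1) {lam : R} (hlam : lam ≠ 0) (heig : ∀ r, ∑ s, J r s * u s = lam * u r)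
    (hnil : J.adjugate ^ 3 = 0) :
    (Matrix.of fun a b => J a b - u a * J p b : Matrix (Fin 3) (Fin 3) R) ^ 3 = 0 := by
  have hdet : J.det = 0 := by
    have h1 : (J.adjugate ^ 3).det = 0 := by
      rw [hnil]
      exact Matrix.det_zero
    rw [Matrix.det_pow, Matrix.det_adjugate] at h1
    exact eq_zero_of_pow_eq_zero (eq_zero_of_pow_eq_zero h1)
  have htr : J.adjugate.trace = 0 := by
    have h1 : IsNilpotent J.adjugate := ⟨3, hnil⟩
    exact (Matrix.isNilpotent_trace_of_isNilpotent h1).eq_zero
  have hmv : J.mulVec u = lam • u := by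
    ext r
    simpa [Matrix.mulVec, dotProduct] using heig r
  have hlt : J.trace = lam := by
    have h1 := congrArg (fun M => M.mulVec u) (Lin_cayley J)
    simp only [hdet, htr, zero_smul, sub_zero, add_zero] at h1
    rw [pow_succ, pow_two, Matrix.smul_mulVec, ← Matrix.mulVec_mulVec, ← Matrix.mulVec_mulVec,
      ← Matrix.mulVec_mulVec, hmv, Matrix.mulVec_smul, Matrix.mulVec_smul, hmv,
      Matrix.mulVec_smul, hmv] at h1
    have h2 := congrFun h1 p
    simp only [Pi.smul_apply, smul_eq_mul, hp, mul_one] at h2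
    have h3 : lam * lam * (J.trace - lam) = 0 := by linear_combination -h2
    rcases mul_eq_zero.1 h3 with h4 | h4
    · exact absurd h4 (mul_ne_zero hlam hlam)
    · exact sub_eq_zero.1 h4
  have htM : (Matrix.of fun a b => J a b - u a * J p b : Matrix (Fin 3) (Fin 3) R).trace = 0 := by
    have h1 : (Matrix.of fun a b => J a b - u a * J p b : Matrix (Fin 3) (Fin 3) R).trace =
        J.trace - ∑ s, J p s * u s := by
      simp only [Matrix.trace, Matrix.diag, Matrix.of_apply, Finset.sum_sub_distrib]
      congr 1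
      exact Finset.sum_congr rfl fun s _ => mul_comm _ _
    rw [h1, heig, hp, hlt, mul_one, sub_self]
  have heM : (Matrix.of fun a b => J a b - u a * J p b :
      Matrix (Fin 3) (Fin 3) R).adjugate.trace = 0 := by
    rw [Lin_adj, htr, heig, hp, hlt]
    have h1 : ∑ s, J p s * (∑ t, J s t * u t) = lam * lam := by
      have h2 : ∀ s, J p s * (∑ t, J s t * u t) = lam * (J p s * u s) := by
        intro s
        rw [heig]
        ring
      rw [Finset.sum_congr rfl fun s _ => h2 s, ← Finset.mul_sum, heig, hp, mul_one]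
    rw [h1]
    ring
  have hdM : (Matrix.of fun a b => J a b - u a * J p b : Matrix (Fin 3) (Fin 3) R).det = 0 := by
    rw [Lin_det, hp, sub_self, mul_zero]
  rw [Lin_cayley, htM, heM, hdM]
  simp

end domain

variable {K : Type} [Field K] {v : AbsoluteValue K ℝ}

/-- The ring of integers. -/
def LinO (hv : IsNonarchimedean v) : Subring K where
  carrier := {x | v x ≤ 1}
  mul_mem' := by
    intro a b ha hb
    simp only [Set.mem_ofPred_eq, map_mul] at *
    exact mul_le_one₀ ha (v.nonneg _) hb
  one_mem' := by simp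
  add_mem' := by
    intro a b ha hb
    exact (hv a b).trans (max_le ha hb)
  zero_mem' := by simp
  neg_mem' := by
    intro a ha
    simpa using ha

/-- The maximal ideal. -/
def LinI (hv : IsNonarchimedean v) : Ideal (LinO hv) where
  carrier := {x | v (x : K) < 1}
  add_mem' := by
    intro a b ha hb
    exact (hv (a : K) (b : K)).trans_lt (max_lt ha hb)
  zero_mem' := by simp
  smul_mem' := by
    intro c a ha
    have hc : v (c : K) ≤ 1 := c.2
    simp only [Set.mem_ofPred_eq, smul_eq_mul, Subring.coe_mul, map_mul] at *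
    exact mul_lt_one_of_nonneg_of_lt_one_right hc (v.nonneg _) ha

theorem LinI_mem (hv : IsNonarchimedean v) (x : LinO hv) : x ∈ LinI hv ↔ v (x : K) < 1 := Iff.rfl

instance LinI_prime (hv : IsNonarchimedean v) : (LinI hv).IsPrime where
  ne_top' := by
    intro h
    have h1 : (1 : LinO hv) ∈ LinI hv := by
      rw [h]
      trivial
    rw [LinI_mem] at h1
    simp at h1
  mem_or_mem' := by
    intro a b hab
    rw [LinI_mem] at hab
    by_contra h
    push Not at h
    rw [LinI_mem, LinI_mem] at h
    obtain ⟨h1, h2⟩ := h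
    push Not at h1 h2
    rw [Subring.coe_mul, map_mul] at hab
    nlinarith

/-- The residue ring of a non-archimedean absolute value is a domain: a convenient form. -/
theorem nil_proj (hv : IsNonarchimedean v) {J : Matrix (Fin 3) (Fin 3) K}
    (hJ : ∀ r s, v (J r s) ≤ 1) {u : Fin 3 → K} (hu : ∀ a, v (u a) ≤ 1) {p : Fin 3} (hp : u p = 1)
    {lam : K} (hlam : v lam = 1) (heig : ∀ r, v (∑ s, J r s * u s - lam * u r) < 1)
    (hnil : ∀ r s, v ((J.adjugate ^ 3) r s) < 1) :
    ∀ r s, v (((Matrix.of fun a b => J a b - u a * J p b) ^ 3) r s) < 1 := by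
  classical
  set O := LinO hv
  set ι : LinO hv →+* K := (LinO hv).subtype with hι
  set φ : LinO hv →+* (LinO hv ⧸ LinI hv) := Ideal.Quotient.mk (LinI hv) with hφ
  have hφ0 : ∀ x : LinO hv, φ x = 0 ↔ v (ι x) < 1 := by
    intro x
    rw [hφ, Ideal.Quotient.eq_zero_iff_mem]
    exact LinI_mem hv x
  let J' : Matrix (Fin 3) (Fin 3) (LinO hv) := Matrix.of fun r s => ⟨J r s, hJ r s⟩
  let u' : Fin 3 → LinO hv := fun a => ⟨u a, hu a⟩
  let lam' : LinO hv := ⟨lam, hlam.le⟩
  have hJ' : ι.mapMatrix J' = J := by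
    ext r s
    rfl
  have hlift : ∀ M : Matrix (Fin 3) (Fin 3) (LinO hv), φ.mapMatrix M = 0 ↔
      ∀ r s, v ((ι.mapMatrix M) r s) < 1 := by
    intro M
    constructor
    · intro h r s
      have h1 := congrFun (congrFun h r) s
      exact (hφ0 (M r s)).1 h1
    · intro h
      ext r s
      exact (hφ0 (M r s)).2 (h r s)
  have hn : (φ.mapMatrix J').adjugate ^ 3 = 0 := by
    rw [← RingHom.map_adjugate, ← map_pow, hlift, map_pow, RingHom.map_adjugate, hJ']
    exact hnil
  have hl : φ lam' ≠ 0 := by
    intro h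
    rw [hφ0] at h
    exact absurd h (by simp [hι, lam', hlam])
  have he : ∀ r, ∑ s, (φ.mapMatrix J') r s * φ (u' s) = φ lam' * φ (u' r) := by
    intro r
    have h1 : φ (∑ s, J' r s * u' s - lam' * u' r) = 0 := by
      rw [hφ0]
      have h2 : ι (∑ s, J' r s * u' s - lam' * u' r) = ∑ s, J r s * u s - lam * u r := by
        rw [map_sub, map_sum, map_mul]
        rfl
      rw [h2]
      exact heig r
    rw [map_sub, map_sum, map_mul, sub_eq_zero] at h1
    simpa using h1
  have hp' : φ (u' p) = 1 := by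
    have h1 : u' p = 1 := by
      apply Subtype.ext
      exact hp
    rw [h1, map_one]
  have key := Lin_domain (J := φ.mapMatrix J') (u := fun a => φ (u' a)) hp' hl he hn
  have hM : (Matrix.of fun a b => (φ.mapMatrix J') a b - φ (u' a) * (φ.mapMatrix J') p b :
      Matrix (Fin 3) (Fin 3) (LinO hv ⧸ LinI hv)) =
      φ.mapMatrix (Matrix.of fun a b => J' a b - u' a * J' p b) := by
    ext a b
    simp
  rw [hM, ← map_pow, hlift, map_pow] at key
  exact key

end Pool.Agent.Helper45.TG2
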