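import Pool.Agent.Helper45.TG2.Taylor
import Pool.Agent.Helper45.TG2.GoodP
import Pool.Agent.Helper45.TG2.Lin

/-!
# Project TG2 (A): contraction of the residue disc
-/

set_option autoImplicit false

namespace Pool.Agent.Helper45.TG2

open MvPolynomial Height AdmissibleAbsValues
open Pool.Agent.Helper29.TG
open Pool.Agent.Helper36 (step iter)
open Pool.Agent.Helper33.SS (jprod itp)

variable {K : Type} [Field K] {v : AbsoluteValue K ℝ} {d : ℕ} {F : Fin 3 → MvPolynomial (Fin 3) K}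

namespace ContrAux

theorem add_le (hv : IsNonarchimedean v) {a b : K} {r : ℝ} (ha : v a ≤ r) (hb : v b ≤ r) :
    v (a + b) ≤ r := (hv a b).trans (max_le ha hb)

theorem sub_le (hv : IsNonarchimedean v) {a b : K} {r : ℝ} (ha : v a ≤ r) (hb : v b ≤ r) :
    v (a - b) ≤ r := by
  rw [sub_eq_add_neg]
  exact add_le hv ha (by rwa [v.map_neg])

theorem mul_le {a b : K} {r : ℝ} (_hr : 0 ≤ r) (ha : v a ≤ 1) (hb : v b ≤ r) :
    v (a * b) ≤ r := by
  rw [v.map_mul]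
  calc v a * v b ≤ 1 * r := mul_le_mul ha hb (v.nonneg _) zero_le_one
    _ = r := one_mul r

theorem mul_le' {a b : K} {r : ℝ} (hr : 0 ≤ r) (ha : v a ≤ r) (hb : v b ≤ 1) :
    v (a * b) ≤ r := by
  rw [mul_comm]
  exact mul_le hr hb ha

theorem mul_le2 {a b : K} {r s : ℝ} (hr : 0 ≤ r) (ha : v a ≤ r) (hb : v b ≤ s) :
    v (a * b) ≤ r * s := by
  rw [v.map_mul]
  exact mul_le_mul ha hb (v.nonneg _) hr

theorem sum_le (hv : IsNonarchimedean v) {f : Fin 3 → K} {r : ℝ} (h : ∀ s, v (f s) ≤ r) :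
    v (∑ s, f s) ≤ r := by
  rw [Fin.sum_univ_three]
  exact add_le hv (add_le hv (h 0) (h 1)) (h 2)

/-- an absolute value does not change under a smaller perturbation -/
theorem eq_one (hv : IsNonarchimedean v) {a b : K} {ε : ℝ} (hε : ε < 1) (hb : v b = 1)
    (h : v (a - b) ≤ ε) : v a = 1 := by
  have h1 : v a ≤ 1 := by
    have e : a = (a - b) + b := by ring
    rw [e]
    exact add_le hv (h.trans hε.le) hb.le
  refine le_antisymm h1 ?_
  by_contra hlt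
  push Not at hlt
  have h2 : v b ≤ max (v a) (v (a - b)) := by
    have e : b = a - (a - b) := by ring
    conv_lhs => rw [e]
    exact sub_le hv (le_max_left _ _) (le_max_right _ _)
  rw [hb] at h2
  exact absurd h2 (not_le.2 (max_lt hlt (h.trans_lt hε)))

theorem vinv {a : K} (ha : v a = 1) : v a⁻¹ = 1 := by
  rw [map_inv₀, ha, inv_one]

theorem ne_zero {a : K} (ha : v a = 1) : a ≠ 0 := by
  intro h
  rw [h, map_zero] at ha
  exact zero_ne_one ha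

/-- the matrix product with a vector -/
theorem mulVec_le (hv : IsNonarchimedean v) {A : Matrix (Fin 3) (Fin 3) K} {x : Fin 3 → K} {r : ℝ}
    (hr : 0 ≤ r) (hA : ∀ a b, v (A a b) ≤ 1) (hx : ∀ a, v (x a) ≤ r) (a : Fin 3) :
    v (A.mulVec x a) ≤ r :=
  sum_le hv fun s => mul_le hr (hA a s) (hx s)

theorem mulVec_le2 (hv : IsNonarchimedean v) {A : Matrix (Fin 3) (Fin 3) K} {x : Fin 3 → K}
    {t r : ℝ} (ht : 0 ≤ t) (hA : ∀ a b, v (A a b) ≤ t) (hx : ∀ a, v (x a) ≤ r)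
    (a : Fin 3) : v (A.mulVec x a) ≤ t * r :=
  sum_le hv fun s => mul_le2 ht (hA a s) (hx s)

theorem iter_eq (F : Fin 3 → MvPolynomial (Fin 3) K) (u : Fin 3 → K) (N : ℕ) :
    iter F u N = Pool.Agent.Helper33.SS.ev (itp F N) u := by
  rw [Pool.Agent.Helper33.SS.ev_itp]
  have h1 : step F = Pool.Agent.Helper33.SS.ev F := by
    funext w
    funext i
    show aeval w (F i) = eval w (F i)
    rw [MvPolynomial.aeval_eq_eval]
  show (step F)^[N] u = _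
  rw [h1]

/-- Euler's relation for the iterate -/
theorem euler (hF : ∀ i, (F i).IsHomogeneous d) (u : Fin 3 → K) (N : ℕ) (r : Fin 3) :
    ∑ s, jprod F u N r s * u s = ((d : K) ^ N) * iter F u N r := by
  have h1 := Pool.Agent.Helper33.SS.jac_mulVec_self
    (Pool.Agent.Helper33.SS.itp_homogeneous hF N) u r
  rw [Pool.Agent.Helper33.SS.jac_itp] at h1
  rw [h1, iter_eq]
  push_cast
  rfl

theorem exists_bound {f : Fin 3 → Fin 3 → ℝ} (h : ∀ r s, f r s < 1) :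
    ∃ θ : ℝ, 0 ≤ θ ∧ θ < 1 ∧ ∀ r s, f r s ≤ θ := by
  classical
  obtain ⟨q, hq⟩ := Finite.exists_max (fun q : Fin 3 × Fin 3 => f q.1 q.2)
  exact ⟨max 0 (f q.1 q.2), le_max_left _ _, max_lt zero_lt_one (h _ _),
    fun r s => (hq (r, s)).trans (le_max_right _ _)⟩

section disc

variable (hb : Good v d F) {u₀ : Fin 3 → K} {p : Fin 3}
  (hint : ∀ a, v (u₀ a) ≤ 1) {N : ℕ} {ε : ℝ} (hε0 : 0 ≤ ε) (hε1 : ε < 1)
  (hγ : v (iter F u₀ N p) = 1) (hclose : ∀ a, v (Tm F N p u₀ a - u₀ a) ≤ ε)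

include hb hint hε1 in
theorem disc_int {u : Fin 3 → K} (hu : u ∈ Dsc v u₀ p ε) (a : Fin 3) : v (u a) ≤ 1 := by
  have e : u a = (u a - u₀ a) + u₀ a := by ring
  rw [e]
  exact add_le hb.na ((hu.2 a).trans hε1.le) (hint a)

include hb hε1 hint hε0 in
theorem disc_sub {u : Fin 3 → K} (hu : u ∈ Dsc v u₀ p ε) (a : Fin 3) :
    v (iter F u N a - iter F u₀ N a) ≤ ε :=
  hb.iter_sub_le hint (disc_int hb hint hε1 hu) hε0 hu.2 N a

include hb hε1 hint hγ hε0 in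
theorem disc_one {u : Fin 3 → K} (hu : u ∈ Dsc v u₀ p ε) : v (iter F u N p) = 1 :=
  eq_one hb.na hε1 hγ (disc_sub hb hint hε0 hε1 hu p)

include hb hε1 hint hγ hε0 in
theorem Tm_int {u : Fin 3 → K} (hu : u ∈ Dsc v u₀ p ε) (a : Fin 3) : v (Tm F N p u a) ≤ 1 := by
  show v (iter F u N a / iter F u N p) ≤ 1
  rw [map_div₀, disc_one hb hint hε0 hε1 hγ hu, div_one]
  exact hb.iter_int (disc_int hb hint hε1 hu) N a

include hb hε1 hint hγ hε0 in
/-- `T` is Lipschitz on the disc -/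
theorem Tm_sub {u u' : Fin 3 → K} (hu : u ∈ Dsc v u₀ p ε) (hu' : u' ∈ Dsc v u₀ p ε) {δ : ℝ}
    (hδ : 0 ≤ δ) (h : ∀ a, v (u' a - u a) ≤ δ) (a : Fin 3) :
    v (Tm F N p u' a - Tm F N p u a) ≤ δ := by
  have h1 := disc_one hb hint hε0 hε1 hγ hu
  have h2 := disc_one hb hint hε0 hε1 hγ hu'
  have hs : ∀ a, v (iter F u' N a - iter F u N a) ≤ δ := fun a =>
    hb.iter_sub_le (disc_int hb hint hε1 hu) (disc_int hb hint hε1 hu') hδ h N a
  have e : Tm F N p u' a - Tm F N p u a = (iter F u' N p)⁻¹ *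
      ((iter F u' N a - iter F u N a) - Tm F N p u a * (iter F u' N p - iter F u N p)) := by
    show iter F u' N a / iter F u' N p - iter F u N a / iter F u N p = (iter F u' N p)⁻¹ *
      ((iter F u' N a - iter F u N a) -
        iter F u N a / iter F u N p * (iter F u' N p - iter F u N p))
    field_simp [ne_zero h1, ne_zero h2]
    ring
  rw [e]
  exact mul_le hδ (vinv h2).le (sub_le hb.na (hs a)
    (mul_le hδ (Tm_int hb hint hε0 hε1 hγ hu a) (hs p)))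

include hb hε1 hint hγ hε0 hclose in
theorem Tm_mem (hp : u₀ p = 1) {u : Fin 3 → K} (hu : u ∈ Dsc v u₀ p ε) :
    Tm F N p u ∈ Dsc v u₀ p ε := by
  have h0 : u₀ ∈ Dsc v u₀ p ε := ⟨hp, fun a => by rw [sub_self, map_zero]; exact hε0⟩
  refine ⟨div_self (ne_zero (disc_one hb hint hε0 hε1 hγ hu)), fun a => ?_⟩
  have e : Tm F N p u a - u₀ a = (Tm F N p u a - Tm F N p u₀ a) + (Tm F N p u₀ a - u₀ a) := by ring
  rw [e]
  exact add_le hb.na (Tm_sub hb hint hε0 hε1 hγ h0 hu hε0 hu.2 a) (hclose a)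

include hb hε1 hint hγ hε0 hclose in
/-- the linear approximation of `T` on the disc -/
theorem Tm_lin (hp : u₀ p = 1) {u u' : Fin 3 → K} (hu : u ∈ Dsc v u₀ p ε)
    (hu' : u' ∈ Dsc v u₀ p ε) {δ : ℝ} (hδ : 0 ≤ δ) (hδε : δ ≤ ε)
    (h : ∀ a, v (u' a - u a) ≤ δ) (a : Fin 3) :
    v (Tm F N p u' a - Tm F N p u a - (iter F u₀ N p)⁻¹ *
      (Matrix.of fun a b => jprod F u₀ N a b - u₀ a * jprod F u₀ N p b).mulVec
        (fun b => u' b - u b) a) ≤ ε * δ := by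
  have hv := hb.na
  have hF : ∀ i, CoeffInt v (F i) := fun i m => hb.int i m
  have h1 := disc_one hb hint hε0 hε1 hγ hu
  have h2 := disc_one hb hint hε0 hε1 hγ hu'
  have hui := disc_int hb hint hε1 hu
  have hui' := disc_int hb hint hε1 hu'
  have hεδ : 0 ≤ ε * δ := mul_nonneg hε0 hδ
  -- the errors
  set L : Fin 3 → K := fun r => ∑ s, jprod F u₀ N r s * (u' s - u s) with hL
  have hLδ : ∀ r, v (L r) ≤ δ := fun r =>
    sum_le hv fun s => mul_le hδ (val_jprod_le hv hF hint N r s) (h s)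
  have herr : ∀ r, v (iter F u' N r - iter F u N r - L r) ≤ ε * δ := by
    intro r
    have e : iter F u' N r - iter F u N r - L r =
        (iter F u' N r - iter F u N r - ∑ s, jprod F u N r s * (u' s - u s)) +
        ∑ s, (jprod F u N r s - jprod F u₀ N r s) * (u' s - u s) := by
      simp only [hL, sub_mul, Finset.sum_sub_distrib]
      ring
    rw [e]
    refine add_le hv ((val_iter_taylor_le hv hF hui hui' hδ h N r).trans ?_) ?_
    · rw [pow_two]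
      exact mul_le_mul_of_nonneg_right hδε hδ
    · exact sum_le hv fun s => mul_le2 hε0
        (val_jprod_sub_le hv hF hint hui hε0 hu.2 N r s) (h s)
  have h0 : u₀ ∈ Dsc v u₀ p ε := ⟨hp, fun a => by rw [sub_self, map_zero]; exact hε0⟩
  have hTu : v (Tm F N p u a - u₀ a) ≤ ε := (Tm_mem hb hint hε0 hε1 hγ hclose hp hu).2 a
  have hγ' : v (iter F u' N p - iter F u₀ N p) ≤ ε := disc_sub hb hint hε0 hε1 hu' p
  have hmv : (Matrix.of fun a b => jprod F u₀ N a b - u₀ a * jprod F u₀ N p b).mulVec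
      (fun b => u' b - u b) a = L a - u₀ a * L p := by
    simp only [Matrix.mulVec, dotProduct, Matrix.of_apply, hL, sub_mul, Finset.sum_sub_distrib,
      Finset.mul_sum]
    congr 1
    refine Finset.sum_congr rfl fun s _ => ?_
    ring
  rw [hmv]
  set γ := iter F u₀ N p with hγdef
  set y := iter F u N p with hy
  set y' := iter F u' N p with hy'
  have hγ0 : γ ≠ 0 := ne_zero hγ
  have hy0 : y ≠ 0 := ne_zero h1
  have hy0' : y' ≠ 0 := ne_zero h2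
  have e : Tm F N p u' a - Tm F N p u a - γ⁻¹ * (L a - u₀ a * L p) =
      y'⁻¹ * ((iter F u' N a - iter F u N a - L a) - Tm F N p u a * (y' - y - L p)
        - (Tm F N p u a - u₀ a) * L p) -
      (y'⁻¹ * γ⁻¹ * (y' - γ)) * (L a - u₀ a * L p) := by
    show iter F u' N a / y' - iter F u N a / y - γ⁻¹ * (L a - u₀ a * L p) =
      y'⁻¹ * ((iter F u' N a - iter F u N a - L a) - iter F u N a / y * (y' - y - L p)
        - (iter F u N a / y - u₀ a) * L p) -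
      (y'⁻¹ * γ⁻¹ * (y' - γ)) * (L a - u₀ a * L p)
    field_simp
    ring
  rw [e]
  refine sub_le hv (mul_le hεδ (vinv h2).le (sub_le hv (sub_le hv (herr a) ?_) ?_)) ?_
  · exact mul_le hεδ (Tm_int hb hint hε0 hε1 hγ hu a) (herr p)
  · exact mul_le2 hε0 hTu (hLδ p)
  · refine mul_le2 hε0 ?_ (sub_le hv (hLδ a) (mul_le hδ (hint a) (hLδ p)))
    refine mul_le hε0 ?_ hγ'
    rw [v.map_mul, vinv h2, vinv hγ, one_mul]

end disc

end ContrAux

open ContrAux in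
theorem contr (hb : Good v d F) (hd : v (d : K) = 1) {u₀ : Fin 3 → K} {p : Fin 3} (hp : u₀ p = 1)
    (hint : ∀ a, v (u₀ a) ≤ 1) {N : ℕ} {ε : ℝ} (hε0 : 0 ≤ ε) (hε1 : ε < 1)
    (hγ : v (iter F u₀ N p) = 1) (hclose : ∀ a, v (Tm F N p u₀ a - u₀ a) ≤ ε)
    (hnil : Nil v F u₀ N) :
    (∀ u ∈ Dsc v u₀ p ε, v (iter F u N p) = 1 ∧ Tm F N p u ∈ Dsc v u₀ p ε) ∧
    (∀ u ∈ Dsc v u₀ p ε, ∀ u' ∈ Dsc v u₀ p ε, ∀ δ : ℝ, 0 ≤ δ → (∀ a, v (u' a - u a) ≤ δ) →
      ∀ a, v (Tm F N p u' a - Tm F N p u a) ≤ δ) ∧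
    ∃ θ : ℝ, 0 ≤ θ ∧ θ < 1 ∧ ∀ u ∈ Dsc v u₀ p ε, ∀ u' ∈ Dsc v u₀ p ε, ∀ δ : ℝ, 0 ≤ δ →
      (∀ a, v (u' a - u a) ≤ δ) →
      ∀ a, v ((Tm F N p)^[3] u' a - (Tm F N p)^[3] u a) ≤ θ * δ := by
  have hv := hb.na
  have hF : ∀ i, CoeffInt v (F i) := fun i m => hb.int i m
  have hmem : ∀ u ∈ Dsc v u₀ p ε, Tm F N p u ∈ Dsc v u₀ p ε := fun u hu =>
    Tm_mem hb hint hε0 hε1 hγ hclose hp hu
  have hlip : ∀ u ∈ Dsc v u₀ p ε, ∀ u' ∈ Dsc v u₀ p ε, ∀ δ : ℝ, 0 ≤ δ →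
      (∀ a, v (u' a - u a) ≤ δ) → ∀ a, v (Tm F N p u' a - Tm F N p u a) ≤ δ :=
    fun u hu u' hu' δ hδ h a => Tm_sub hb hint hε0 hε1 hγ hu hu' hδ h a
  refine ⟨fun u hu => ⟨disc_one hb hint hε0 hε1 hγ hu, hmem u hu⟩, hlip, ?_⟩
  set J := jprod F u₀ N with hJ
  set B : Matrix (Fin 3) (Fin 3) K := Matrix.of fun a b => J a b - u₀ a * J p b with hB
  set γ := iter F u₀ N p with hγdef
  have hγ0 : γ ≠ 0 := ne_zero hγ
  have hJ1 : ∀ r s, v (J r s) ≤ 1 := fun r s => val_jprod_le hv hF hint N r s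
  have hB1 : ∀ r s, v (B r s) ≤ 1 := fun r s =>
    sub_le hv (hJ1 r s) (mul_le zero_le_one (hint r) (hJ1 p s))
  -- the cube of the projected matrix
  have hlam : v ((d : K) ^ N * γ) = 1 := by
    rw [v.map_mul, map_pow, hd, one_pow, hγ, one_mul]
  have hcube : ∀ r s, v ((B ^ 3) r s) < 1 := by
    refine nil_proj hv hJ1 hint hp hlam (fun r => ?_) hnil
    have h1 : ∑ s, J r s * u₀ s - (d : K) ^ N * γ * u₀ r =
        (d : K) ^ N * (γ * (Tm F N p u₀ r - u₀ r)) := by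
      rw [hJ, euler hb.hom u₀ N r]
      have h2 : iter F u₀ N r = γ * Tm F N p u₀ r := by
        show iter F u₀ N r = γ * (iter F u₀ N r / γ)
        field_simp
      rw [h2]
      ring
    rw [h1]
    refine lt_of_le_of_lt (mul_le hε0 ?_ (mul_le hε0 hγ.le (hclose r))) hε1
    rw [map_pow, hd, one_pow]
  obtain ⟨θ₀, hθ0, hθ1, hθ⟩ := exists_bound hcube
  refine ⟨max ε θ₀, hε0.trans (le_max_left _ _), max_lt hε1 hθ1, ?_⟩
  -- the bound for small `δ`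
  have main : ∀ u ∈ Dsc v u₀ p ε, ∀ u' ∈ Dsc v u₀ p ε, ∀ δ : ℝ, 0 ≤ δ → δ ≤ ε →
      (∀ a, v (u' a - u a) ≤ δ) →
      ∀ a, v ((Tm F N p)^[3] u' a - (Tm F N p)^[3] u a) ≤ max ε θ₀ * δ := by
    intro u hu u' hu' δ hδ hδε h a
    set T := Tm F N p with hT
    set A : Matrix (Fin 3) (Fin 3) K := γ⁻¹ • B with hA
    have hA1 : ∀ r s, v (A r s) ≤ 1 := by
      intro r s
      show v (γ⁻¹ * B r s) ≤ 1
      exact mul_le zero_le_one (vinv hγ).le (hB1 r s)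
    have hA3 : ∀ r s, v ((A ^ 3) r s) ≤ θ₀ := by
      intro r s
      have e : A ^ 3 = (γ⁻¹) ^ 3 • B ^ 3 := by rw [hA, smul_pow]
      rw [e]
      show v ((γ⁻¹) ^ 3 * (B ^ 3) r s) ≤ θ₀
      refine mul_le hθ0 ?_ (hθ r s)
      rw [map_pow, vinv hγ, one_pow]
    have hεδ : 0 ≤ ε * δ := mul_nonneg hε0 hδ
    have lin : ∀ w ∈ Dsc v u₀ p ε, ∀ w' ∈ Dsc v u₀ p ε, (∀ a, v (w' a - w a) ≤ δ) → ∀ a,
        v ((T w' a - T w a) - A.mulVec (fun b => w' b - w b) a) ≤ ε * δ := by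
      intro w hw w' hw' hww a
      have h1 := Tm_lin hb hint hε0 hε1 hγ hclose hp hw hw' hδ hδε hww a
      rw [hA, Matrix.smul_mulVec]
      exact h1
    have m1 := hmem u hu
    have m1' := hmem u' hu'
    have m2 := hmem _ m1
    have m2' := hmem _ m1'
    have d1 := hlip u hu u' hu' δ hδ h
    have d2 := hlip _ m1 _ m1' δ hδ d1
    set Δ₀ : Fin 3 → K := fun b => u' b - u b with hΔ₀
    set Δ₁ : Fin 3 → K := fun b => T u' b - T u b with hΔ₁
    set Δ₂ : Fin 3 → K := fun b => T (T u') b - T (T u) b with hΔ₂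
    set Δ₃ : Fin 3 → K := fun b => T (T (T u')) b - T (T (T u)) b with hΔ₃
    have l1 : ∀ a, v ((Δ₁ - A.mulVec Δ₀) a) ≤ ε * δ := lin u hu u' hu' h
    have l2 : ∀ a, v ((Δ₂ - A.mulVec Δ₁) a) ≤ ε * δ := lin _ m1 _ m1' d1
    have l3 : ∀ a, v ((Δ₃ - A.mulVec Δ₂) a) ≤ ε * δ := lin _ m2 _ m2' d2
    have e : Δ₃ = (A ^ 3).mulVec Δ₀ + (A.mulVec (A.mulVec (Δ₁ - A.mulVec Δ₀)) +
        (A.mulVec (Δ₂ - A.mulVec Δ₁) + (Δ₃ - A.mulVec Δ₂))) := by
      have e1 : (A ^ 3).mulVec Δ₀ = A.mulVec (A.mulVec (A.mulVec Δ₀)) := by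
        rw [Matrix.mulVec_mulVec, Matrix.mulVec_mulVec]
        congr 1
        rw [pow_succ, pow_two, mul_assoc]
      rw [e1, Matrix.mulVec_sub, Matrix.mulVec_sub, Matrix.mulVec_sub]
      abel
    show v (Δ₃ a) ≤ max ε θ₀ * δ
    rw [e]
    refine add_le hv ?_ (le_trans ?_ (mul_le_mul_of_nonneg_right (le_max_left ε θ₀) hδ))
    · exact (mulVec_le2 hv hθ0 hA3 h a).trans (mul_le_mul_of_nonneg_right (le_max_right ε θ₀) hδ)
    · exact add_le hv (mulVec_le hv hεδ hA1 (mulVec_le hv hεδ hA1 l1) a)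
        (add_le hv (mulVec_le hv hεδ hA1 l2 a) (l3 a))
  intro u hu u' hu' δ hδ h a
  have hsub : ∀ a, v (u' a - u a) ≤ min δ ε := by
    intro a
    refine le_min (h a) ?_
    have e : u' a - u a = (u' a - u₀ a) - (u a - u₀ a) := by ring
    rw [e]
    exact sub_le hv (hu'.2 a) (hu.2 a)
  refine (main u hu u' hu' (min δ ε) (le_min hδ hε0) (min_le_right _ _) hsub a).trans ?_
  exact mul_le_mul_of_nonneg_left (min_le_left _ _) (hε0.trans (le_max_left _ _))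

end Pool.Agent.Helper45.TG2
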