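import Pool.Agent.Helper45.TG2.Ht

/-!
# Project TG2 (A): defects of a form at periodic points over extensions (module of helper21)
-/

set_option autoImplicit false

namespace Pool.Agent.Helper45.TG2

open MvPolynomial Height AdmissibleAbsValues
open Pool.Agent.Helper29.TG
open Pool.Agent.Helper36 (step iter)
open Pool.Agent.Helper33.SS (jprod itp)

theorem exists_count_bound {K : Type} [Field K] [NumberField K] [Algebra K ℂ] {d : ℕ} (hd : 2 ≤ d)
    {F : Fin 3 → MvPolynomial (Fin 3) K} (hF : ∀ i, (F i).IsHomogeneous d)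
    (hnz : ∀ x : Fin 3 → ℂ, (∀ i, aeval x (F i) = 0) → x = 0)
    {g : MvPolynomial (Fin 3) K} {D : ℕ} (hg : g.IsHomogeneous D) :
    ∃ C : ℝ, 0 ≤ C ∧ ∀ (L : Type) [Field L] [NumberField L] [Algebra K L] (w : Fin 3 → L)
      (N : ℕ) (γ : L), w ≠ 0 → 0 < N → iter F w N = γ • w → ∀ l, aeval (iter F w l) g ≠ 0 →
      ∃ G : AbsoluteValue L ℝ → ℝ, FS G ∧
        (∀ V ∈ nonarchAbsVal (K := L), 0 ≤ G V ∧
          df V (map (algebraMap K L) g) D (iter F w l) ≤ G V) ∧
        ∑ᶠ V : nonarchAbsVal (K := L), G V.val ≤ C * (Module.finrank K L : ℝ) := by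
  obtain ⟨C1, hC1, h1⟩ := exists_ht_bound hd hF hnz
  obtain ⟨C2, hC2, h2⟩ := Pool.Agent.Helper21.TG2.exists_error g
  refine ⟨D * C1 + C2 * Module.finrank ℚ K, by positivity, ?_⟩
  intro L _ _ _ w N γ hw hN hper l hl
  have hev : eval (iter F w l) (map (algebraMap K L) g) = aeval (iter F w l) g := by
    rw [eval_map, aeval_def]
  have hl' : eval (iter F w l) (map (algebraMap K L) g) ≠ 0 := by rwa [hev]
  have hwl : iter F w l ≠ 0 := iter_ne_zeroL hd hF hnz hw l
  have hper' : iter F (iter F w l) N = γ ^ d ^ l • iter F w l := by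
    rw [← Pool.Agent.Helper36.iter_add, add_comm N l, Pool.Agent.Helper36.iter_add, hper,
      iter_smulL hF]
  have h3 := h1 L (iter F w l) N _ hwl hN hper'
  obtain ⟨c, hFS, hc0, hsum, -, hle⟩ := h2 L
  have hpos : ∀ v, Mem v → 0 ≤ df v (map (algebraMap K L) g) D (iter F w l) + c v := by
    intro v hv
    have h4 := hle v hv D hg (iter F w l)
    have h5 : 0 < nm v (iter F w l) := nm_pos v hwl
    have h6 := Real.log_le_log (v.pos hl') h4
    rw [Real.log_mul (Real.exp_pos _).ne' (pow_pos h5 _).ne', Real.log_exp, Real.log_pow] at h6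
    unfold df
    linarith
  have hFS2 : FS (fun v => df v (map (algebraMap K L) g) D (iter F w l) + c v) :=
    (FS_df hl' hwl).add hFS
  refine ⟨fun v => df v (map (algebraMap K L) g) D (iter F w l) + c v, hFS2,
    fun V hV => ⟨hpos V (Or.inr hV), by linarith [hc0 V (Or.inr hV)]⟩, ?_⟩
  have h7 : ls (fun v => df v (map (algebraMap K L) g) D (iter F w l) + c v) =
      D * logHeight (iter F w l) + ls c := by
    rw [ls_add (FS_df hl' hwl) hFS, ls_df hl' hwl]
  have h8 : 0 ≤ ((archAbsVal (K := L)).map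
      fun v => df v (map (algebraMap K L) g) D (iter F w l) + c v).sum := by
    refine Multiset.sum_nonneg fun a ha => ?_
    obtain ⟨w', hw', rfl⟩ := Multiset.mem_map.1 ha
    exact hpos w' (Or.inl hw')
  have h9 : ∑ᶠ V : nonarchAbsVal (K := L),
      (df V.val (map (algebraMap K L) g) D (iter F w l) + c V.val) ≤
      D * logHeight (iter F w l) + ls c := by
    rw [← h7]
    unfold ls
    linarith
  have h10 : (D : ℝ) * logHeight (iter F w l) ≤ D * (C1 * Module.finrank K L) :=
    mul_le_mul_of_nonneg_left h3 (Nat.cast_nonneg _)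
  rw [← Module.finrank_mul_finrank ℚ K L] at hsum
  push_cast at hsum
  calc ∑ᶠ V : nonarchAbsVal (K := L),
      (df V.val (map (algebraMap K L) g) D (iter F w l) + c V.val)
      ≤ D * logHeight (iter F w l) + ls c := h9
    _ ≤ D * (C1 * Module.finrank K L) +
        C2 * (Module.finrank ℚ K * Module.finrank K L) := by linarith
    _ = (D * C1 + C2 * Module.finrank ℚ K) * (Module.finrank K L : ℝ) := by ring

end Pool.Agent.Helper45.TG2
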