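import Pool.Agent.Helper29.TG.Df
import Pool.Agent.Helper36.Growth
import Pool.Agent.Helper33.SS.Itp

/-!
# Project TG2 (A): a good place at which the tangent map is not nilpotent: definitions
-/

set_option autoImplicit false

namespace Pool.Agent.Helper45.TG2

open MvPolynomial Height AdmissibleAbsValues
open Pool.Agent.Helper29.TG
open Pool.Agent.Helper36 (step iter)
open Pool.Agent.Helper33.SS (jprod itp)

section one

variable {K E : Type} [Field K] [Field E] [Algebra K E]

/-- Good reduction of a self-map of the projective plane over `K` at an absolute value of an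
extension of `K`. -/
structure Good (w : AbsoluteValue E ℝ) (d : ℕ) (F : Fin 3 → MvPolynomial (Fin 3) K) : Prop where
  na : IsNonarchimedean w
  hom : ∀ i, (F i).IsHomogeneous d
  int : ∀ i m, w (algebraMap K E ((F i).coeff m)) ≤ 1
  cert : ∃ (M : ℕ) (q : Fin 3 × Fin 3 → MvPolynomial (Fin 3) K), (∀ a, (q a).IsHomogeneous M) ∧
    (∀ a m, w (algebraMap K E ((q a).coeff m)) ≤ 1) ∧
    ∀ k, ∑ j, q (k, j) * F j = X k ^ (M + d)

/-- The vector `x` with the coordinates considered as elements of `E`. -/
def inc (E : Type) [Field E] [Algebra K E] (x : Fin 3 → K) : Fin 3 → E :=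
  fun a => algebraMap K E (x a)

/-- The vector `w` over `E` is periodic, close to the point `x_i` at the absolute value `V`, which
is a power of `v` on `K`, and its orbit is close to the curve `g = 0` whenever the orbit of `x_i`
is on the curve. -/
structure Est (v : AbsoluteValue K ℝ) (V : AbsoluteValue E ℝ) (F : Fin 3 → MvPolynomial (Fin 3) K)
    (g : MvPolynomial (Fin 3) K) (D : ℕ) (x : Fin 3 → K) (i N : ℕ) (w : Fin 3 → E) : Prop where
  ext : ∃ κ : ℝ, 1 ≤ κ ∧ ∀ a : K, V (algebraMap K E a) = v a ^ κ
  per : ∃ γ : E, iter F w N = γ • w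
  est : ∀ l, eval (iter F x (i + l)) g = 0 → aeval (iter F w l) g ≠ 0 →
    ct v (iter F x i) (iter F x (i + N)) ≤ df V (map (algebraMap K E) g) D (iter F w l)
  con : cr (inc E (iter F x i)) w ≠ 0 →
    ct v (iter F x i) (iter F x (i + N)) ≤ ct V (inc E (iter F x i)) w

end one

section two

variable {K : Type} [Field K]

/-- The adjugate of the derivative of the `N`-th iterate is nilpotent modulo `v`. -/
def Nil (v : AbsoluteValue K ℝ) (F : Fin 3 → MvPolynomial (Fin 3) K) (u : Fin 3 → K) (N : ℕ) :
    Prop :=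
  ∀ r s, v (((jprod F u N).adjugate ^ 3) r s) < 1

/-- The normalised `N`-th iterate. -/
noncomputable def Tm (F : Fin 3 → MvPolynomial (Fin 3) K) (N : ℕ) (p : Fin 3)
    (u : Fin 3 → K) : Fin 3 → K :=
  fun a => iter F u N a / iter F u N p

/-- The closed disc around a normalised vector. -/
def Dsc (v : AbsoluteValue K ℝ) (u₀ : Fin 3 → K) (p : Fin 3) (ε : ℝ) : Set (Fin 3 → K) :=
  {u | u p = 1 ∧ ∀ a, v (u a - u₀ a) ≤ ε}

/-- A normalised sequence of representatives of the points `x_(i + N j)`, `j = 0, 1, ...`. -/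
structure NSeq (v : AbsoluteValue K ℝ) (F : Fin 3 → MvPolynomial (Fin 3) K) (x : Fin 3 → K)
    (i N : ℕ) (ε : ℝ) (p : Fin 3) (u : ℕ → Fin 3 → K) : Prop where
  one : ∀ j, u j p = 1
  int : ∀ j a, v (u j a) ≤ 1
  prop : ∀ j, Pool.Agent.Helper36.PEq (iter F x (i + N * j)) (u j)
  near : ∀ j a, v (u j a - u 0 a) ≤ ε
  cauchy : ∀ a, Filter.Tendsto (fun j => v (u (j + 1) a - u j a)) Filter.atTop (nhds 0)

/-- A point with coordinates in a finite extension of `K`. -/
structure FP (K : Type) [Field K] where
  /-- the field -/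
  L : Type
  [fld : Field L]
  [alg : Algebra K L]
  [fin : FiniteDimensional K L]
  /-- the coordinates -/
  y : Fin 3 → L
  ne : y ≠ 0

attribute [instance] FP.fld FP.alg FP.fin

end two

end Pool.Agent.Helper45.TG2
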