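import Pool.Agent.Helper45.TG2.Base

/-!
# Project TG2 (A): absolute values of an extension above a finite place
-/

set_option autoImplicit false

namespace Pool.Agent.Helper45.TG2

open MvPolynomial Height AdmissibleAbsValues
open Pool.Agent.Helper29.TG
open Pool.Agent.Helper36 (step iter)
open Pool.Agent.Helper33.SS (jprod itp)

section pull

open NumberField IsDedekindDomain

variable {L : Type} [Field L] [NumberField L]

omit [NumberField L] in
private theorem pull_add {w : AbsoluteValue L ℝ} (hw : IsNonarchimedean w) {x y : L} {c : ℝ}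
    (hx : w x ≤ c) (hy : w y ≤ c) : w (x + y) ≤ c :=
  (hw x y).trans (max_le hx hy)

private theorem pull_int {w : AbsoluteValue L ℝ} (hw : IsNonarchimedean w) (x : 𝓞 L) :
    w (algebraMap (𝓞 L) L x) ≤ 1 := by
  let A : ValuationSubring L :=
    { carrier := {y | w y ≤ 1}
      mul_mem' := by
        intro a b ha hb
        show w (a * b) ≤ 1
        rw [map_mul]
        exact mul_le_one₀ ha (w.nonneg b) hb
      one_mem' := by
        show w 1 ≤ 1
        rw [map_one]
      add_mem' := by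
        intro a b ha hb
        exact pull_add hw ha hb
      zero_mem' := by
        show w 0 ≤ 1
        rw [map_zero]
        exact zero_le_one
      neg_mem' := by
        intro a ha
        show w (-a) ≤ 1
        rw [AbsoluteValue.map_neg]
        exact ha
      mem_or_inv_mem' := by
        intro a
        rcases le_total (w a) 1 with h | h
        · exact Or.inl h
        · right
          show w a⁻¹ ≤ 1
          rw [map_inv₀]
          exact inv_le_one_of_one_le₀ h }
  have h1 : IsIntegral ℤ (algebraMap (𝓞 L) L x) := RingOfIntegers.isIntegral_coe x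
  have h2 : IsIntegral A (algebraMap (𝓞 L) L x) := h1.tower_top
  obtain ⟨y, hy⟩ := IsIntegrallyClosed.algebraMap_eq_of_integral h2
  rw [← hy]
  exact y.2

/-- The prime ideal of a nonarchimedean absolute value. -/
private noncomputable def pullI {w : AbsoluteValue L ℝ} (hw : IsNonarchimedean w) :
    Ideal (𝓞 L) where
  carrier := {x | w (algebraMap (𝓞 L) L x) < 1}
  add_mem' := by
    intro a b ha hb
    show w (algebraMap (𝓞 L) L (a + b)) < 1
    rw [map_add]
    exact (hw _ _).trans_lt (max_lt ha hb)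
  zero_mem' := by
    show w (algebraMap (𝓞 L) L 0) < 1
    rw [map_zero, map_zero]
    exact zero_lt_one
  smul_mem' := by
    intro c x hx
    show w (algebraMap (𝓞 L) L (c * x)) < 1
    rw [map_mul, map_mul]
    exact (mul_le_of_le_one_left (w.nonneg _) (pull_int hw c)).trans_lt hx

private theorem mem_pullI {w : AbsoluteValue L ℝ} (hw : IsNonarchimedean w) {x : 𝓞 L} :
    x ∈ pullI hw ↔ w (algebraMap (𝓞 L) L x) < 1 := Iff.rfl

private theorem pullI_prime {w : AbsoluteValue L ℝ} (hw : IsNonarchimedean w) :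
    (pullI hw).IsPrime := by
  refine ⟨?_, ?_⟩
  · intro h
    have h1 : (1 : 𝓞 L) ∈ pullI hw := by rw [h]; trivial
    rw [mem_pullI, map_one, map_one] at h1
    exact lt_irrefl _ h1
  · intro a b hab
    by_contra hcon
    push Not at hcon
    obtain ⟨ha, hb⟩ := hcon
    rw [mem_pullI] at ha hb hab
    have ha' := le_antisymm (pull_int hw a) (not_lt.1 ha)
    have hb' := le_antisymm (pull_int hw b) (not_lt.1 hb)
    rw [map_mul, map_mul, ha', hb'] at hab
    norm_num at hab

private theorem pull_unit {w : AbsoluteValue L ℝ} (hw : IsNonarchimedean w) {x : 𝓞 L}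
    (hx : x ∉ pullI hw) : w (algebraMap (𝓞 L) L x) = 1 := by
  rw [mem_pullI] at hx
  exact le_antisymm (pull_int hw x) (not_lt.1 hx)

open scoped NNReal in
private theorem pull_toNN {e : ℝ≥0} (he : e ≠ 0) :
    WithZeroMulInt.toNNReal he (WithZero.exp (-1 : ℤ)) = e⁻¹ := by
  rw [WithZeroMulInt.toNNReal_neg_apply he WithZero.exp_ne_zero]
  have h1 : WithZero.unzero (WithZero.exp_ne_zero (a := (-1 : ℤ))) =
      Multiplicative.ofAdd (-1 : ℤ) := by
    rw [← WithZero.coe_inj, WithZero.coe_unzero]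
    rfl
  rw [h1, toAdd_ofAdd, zpow_neg, zpow_one]

private theorem pull_le (P : HeightOneSpectrum (𝓞 L)) {x : 𝓞 L} (hx : x ∈ P.asIdeal) :
    HeightOneSpectrum.adicAbv L P (algebraMap (𝓞 L) L x) ≤ ((Ideal.absNorm P.asIdeal : ℝ))⁻¹ := by
  have h1 : P.valuation L (algebraMap (𝓞 L) L x) ≤ WithZero.exp (-1 : ℤ) := by
    rw [HeightOneSpectrum.valuation_of_algebraMap]
    have h2 := (P.intValuation_le_pow_iff_mem x 1).2 (by rwa [pow_one])
    simpa using h2
  have h3 := (WithZeroMulInt.toNNReal_strictMono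
    (HeightOneSpectrum.one_lt_absNorm_nnreal P)).monotone h1
  rw [pull_toNN] at h3
  rw [HeightOneSpectrum.adicAbv_def]
  exact_mod_cast h3

end pull

/-- A non-archimedean absolute value of `L` which extends a finite place of `K` is, up to a power
at least one, a finite place of `L`. -/
theorem exists_place_pull {K L : Type} [Field K] [NumberField K] [Field L] [NumberField L]
    [Algebra K L] {v : AbsoluteValue K ℝ} (hv : v ∈ nonarchAbsVal (K := K))
    {w : AbsoluteValue L ℝ} (hw : IsNonarchimedean w)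
    (hvw : ∀ a : K, w (algebraMap K L a) = v a) :
    ∃ V ∈ nonarchAbsVal (K := L), ∃ κ : ℝ, 1 ≤ κ ∧ ∀ a : L, V a = w a ^ κ := by
  open NumberField IsDedekindDomain in
  obtain ⟨p, hp⟩ : IsFinitePlace v := hv
  have hp' : ∀ a : K, v a = HeightOneSpectrum.adicAbv K p a := by
    intro a
    rw [← hp]
    exact FinitePlace.norm_embedding p a
  have htow : ∀ x : 𝓞 K, w (algebraMap (𝓞 L) L (algebraMap (𝓞 K) (𝓞 L) x)) =
      v (algebraMap (𝓞 K) K x) := by
    intro x
    rw [← hvw, ← IsScalarTower.algebraMap_apply (𝓞 K) (𝓞 L) L,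
      ← IsScalarTower.algebraMap_apply (𝓞 K) K L]
  have hcomap : ∀ x : 𝓞 K, algebraMap (𝓞 K) (𝓞 L) x ∈ pullI hw ↔ x ∈ p.asIdeal := by
    intro x
    rw [mem_pullI, htow, hp']
    exact p.adicAbv_coe_lt_one_iff (HeightOneSpectrum.one_lt_absNorm_nnreal p) x
  -- the uniformizer
  obtain ⟨π, hπ⟩ := p.valuation_exists_uniformizer' K
  have hpN : (0 : ℝ) < (Ideal.absNorm p.asIdeal : ℝ) := by
    have := HeightOneSpectrum.one_lt_absNorm p
    exact_mod_cast (zero_lt_one.trans this)
  have hπv : v (algebraMap (𝓞 K) K π) = ((Ideal.absNorm p.asIdeal : ℝ))⁻¹ := by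
    rw [hp', HeightOneSpectrum.adicAbv_def, hπ, pull_toNN]
    norm_cast
  have hπ0 : π ≠ 0 := by
    rintro rfl
    rw [map_zero, map_zero] at hπv
    exact (inv_pos.2 hpN).ne hπv
  have hinj : Function.Injective (algebraMap (𝓞 K) (𝓞 L)) :=
    FaithfulSMul.algebraMap_injective (𝓞 K) (𝓞 L)
  have hπp : π ∈ p.asIdeal := by
    rw [← hcomap, mem_pullI, htow, hπv]
    have := HeightOneSpectrum.one_lt_absNorm p
    exact inv_lt_one_of_one_lt₀ (by exact_mod_cast this)
  have hP0 : pullI hw ≠ ⊥ := by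
    intro h
    have h1 := (hcomap π).2 hπp
    rw [h, Ideal.mem_bot] at h1
    exact hπ0 (hinj (by rw [h1, map_zero]))
  set P : HeightOneSpectrum (𝓞 L) := ⟨pullI hw, pullI_prime hw, hP0⟩ with hPdef
  set V : AbsoluteValue L ℝ := place (FinitePlace.embedding P) with hVdef
  have hV : ∀ a : L, V a = HeightOneSpectrum.adicAbv L P a := fun a =>
    FinitePlace.norm_embedding P a
  have hVmem : ∀ x : 𝓞 L, V (algebraMap (𝓞 L) L x) < 1 ↔ w (algebraMap (𝓞 L) L x) < 1 := by
    intro x
    rw [hV]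
    exact P.adicAbv_coe_lt_one_iff (HeightOneSpectrum.one_lt_absNorm_nnreal P) x
  have hVone : ∀ x : 𝓞 L, x ∉ pullI hw → V (algebraMap (𝓞 L) L x) = 1 := by
    intro x hx
    rw [hV]
    exact (P.adicAbv_coe_eq_one_iff (HeightOneSpectrum.one_lt_absNorm_nnreal P) x).2 hx
  have hVnt : V.IsNontrivial := by
    refine ⟨algebraMap (𝓞 L) L (algebraMap (𝓞 K) (𝓞 L) π), ?_, ?_⟩
    · intro h
      rw [← map_zero (algebraMap (𝓞 L) L)] at h
      have h1 := FaithfulSMul.algebraMap_injective (𝓞 L) L h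
      exact hπ0 (hinj (by rw [h1, map_zero]))
    · refine ne_of_lt ?_
      rw [hVmem]
      exact (mem_pullI hw).1 ((hcomap π).2 hπp)
  have hequiv : V.IsEquiv w := by
    refine AbsoluteValue.isEquiv_of_lt_one_imp hVnt fun x hx => ?_
    have h1 : P.valuation L x ≤ 1 := by
      rw [hV, HeightOneSpectrum.adicAbv_def] at hx
      have h2 := (WithZeroMulInt.toNNReal_lt_one_iff
        (HeightOneSpectrum.one_lt_absNorm_nnreal P)).1 (by exact_mod_cast hx)
      exact h2.le
    obtain ⟨n, d, hnd⟩ := P.exists_primeCompl_mul_eq_of_integer x h1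
    have hd : (d : 𝓞 L) ∉ pullI hw := d.2
    have h3 : V x = V (algebraMap (𝓞 L) L n) := by
      rw [← hnd, map_mul, hVone _ hd, mul_one]
    have h4 : w x = w (algebraMap (𝓞 L) L n) := by
      rw [← hnd, map_mul, pull_unit hw hd, mul_one]
    rw [h4, ← hVmem, ← h3]
    exact hx
  obtain ⟨κ, hκ, hκ2⟩ := AbsoluteValue.isEquiv_iff_exists_rpow_eq.1 hequiv.symm
  refine ⟨V, ⟨P, rfl⟩, κ, ?_, fun a => (congrFun hκ2 a).symm⟩
  -- the comparison of the norms
  have hNN : Ideal.absNorm p.asIdeal ≤ Ideal.absNorm P.asIdeal := by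
    have hfin : Finite (𝓞 L ⧸ P.asIdeal) := P.asIdeal.finiteQuotientOfFreeOfNeBot P.ne_bot
    rw [Ideal.absNorm_apply, Ideal.absNorm_apply, Submodule.cardQuot_apply,
      Submodule.cardQuot_apply]
    have hle : p.asIdeal ≤ P.asIdeal.comap (algebraMap (𝓞 K) (𝓞 L)) := fun x hx =>
      (hcomap x).2 hx
    refine Nat.card_le_card_of_injective (Ideal.quotientMap P.asIdeal _ hle) ?_
    exact Ideal.quotientMap_injective' fun x hx => (hcomap x).1 hx
  have hPN : (1 : ℝ) < (Ideal.absNorm P.asIdeal : ℝ) := by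
    exact_mod_cast HeightOneSpectrum.one_lt_absNorm P
  have hVπ : V (algebraMap (𝓞 L) L (algebraMap (𝓞 K) (𝓞 L) π)) ≤
      ((Ideal.absNorm P.asIdeal : ℝ))⁻¹ := by
    rw [hV]
    exact pull_le P ((hcomap π).2 hπp)
  have h5 : V (algebraMap (𝓞 L) L (algebraMap (𝓞 K) (𝓞 L) π)) =
      ((Ideal.absNorm p.asIdeal : ℝ))⁻¹ ^ κ := by
    rw [← hπv, ← htow]
    exact (congrFun hκ2 _).symm
  have h6 : ((Ideal.absNorm p.asIdeal : ℝ))⁻¹ ^ κ ≤ ((Ideal.absNorm p.asIdeal : ℝ))⁻¹ ^ (1 : ℝ) := by
    rw [← h5, Real.rpow_one]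
    refine hVπ.trans ?_
    exact inv_anti₀ hpN (by exact_mod_cast hNN)
  by_contra hcon
  push Not at hcon
  have hp1 : ((Ideal.absNorm p.asIdeal : ℝ))⁻¹ < 1 := by
    refine inv_lt_one_of_one_lt₀ ?_
    exact_mod_cast HeightOneSpectrum.one_lt_absNorm p
  have h7 := Real.rpow_lt_rpow_of_exponent_gt (inv_pos.2 hpN) hp1 hcon
  exact absurd h6 (not_le.2 h7)

end Pool.Agent.Helper45.TG2
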