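import Pool.Agent.Helper45.TG2.GoodP
import Pool.Agent.Helper45.TG2.Pull

/-!
# Project TG2 (A): descent of the estimates to a number field
-/

set_option autoImplicit false

namespace Pool.Agent.Helper45.TG2

open MvPolynomial Height AdmissibleAbsValues
open Pool.Agent.Helper29.TG
open Pool.Agent.Helper36 (step iter)
open Pool.Agent.Helper33.SS (jprod itp)

/-- the logarithm of the norm for a power of an absolute value -/
theorem Descend_log_nm {L : Type} [Field L] {ι : Type} [Finite ι] {V w : AbsoluteValue L ℝ}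
    {κ : ℝ} (hκ : 1 ≤ κ) (hV : ∀ a : L, V a = w a ^ κ) {z : ι → L} (hz : z ≠ 0) :
    Real.log (nm V z) = κ * Real.log (nm w z) := by
  have hκ0 : 0 ≤ κ := zero_le_one.trans hκ
  have h1 : nm V z = nm w z ^ κ := by
    apply le_antisymm
    · refine nm_le (Real.rpow_nonneg (nm_nonneg w z) κ) fun i => ?_
      rw [hV]
      exact Real.rpow_le_rpow (w.nonneg _) (le_nm w z i) hκ0
    · obtain ⟨i, -, hi⟩ := exists_nm_eq w hz
      rw [hi, ← hV]
      exact le_nm V z i
  rw [h1, Real.log_rpow (nm_pos w hz)]

theorem Descend_ct {L : Type} [Field L] {V w : AbsoluteValue L ℝ}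
    {κ : ℝ} (hκ : 1 ≤ κ) (hV : ∀ a : L, V a = w a ^ κ) {x y : Fin 3 → L} (h : cr x y ≠ 0) :
    ct V x y = κ * ct w x y := by
  unfold ct
  rw [Descend_log_nm hκ hV (left_ne_zero h), Descend_log_nm hκ hV (right_ne_zero h),
    Descend_log_nm hκ hV h]
  ring

theorem Descend_df {L : Type} [Field L] {V w : AbsoluteValue L ℝ}
    {κ : ℝ} (hκ : 1 ≤ κ) (hV : ∀ a : L, V a = w a ^ κ) {Q : MvPolynomial (Fin 3) L} (D : ℕ)
    {z : Fin 3 → L} (hz : z ≠ 0) (hQ : eval z Q ≠ 0) : df V Q D z = κ * df w Q D z := by
  unfold df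
  rw [Descend_log_nm hκ hV hz, hV, Real.log_rpow (w.pos hQ)]
  ring

theorem Descend_map {K E L : Type} [Field K] [Field E] [Field L] [Algebra K E] [Algebra K L]
    (σ : L →ₐ[K] E) (P : MvPolynomial (Fin 3) K) :
    map (algebraMap K E) P = map (σ : L →+* E) (map (algebraMap K L) P) := by
  have e : algebraMap K E = (σ : L →+* E).comp (algebraMap K L) :=
    RingHom.ext fun a => (σ.commutes a).symm
  rw [MvPolynomial.map_map, ← e]

theorem Descend_eval {K E L : Type} [Field K] [Field E] [Field L] [Algebra K E] [Algebra K L]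
    (σ : L →ₐ[K] E) (P : MvPolynomial (Fin 3) K) (z : Fin 3 → L) :
    eval (fun a => σ (z a)) (map (algebraMap K E) P) = σ (eval z (map (algebraMap K L) P)) := by
  rw [Descend_map σ P, eval_map]
  have h1 := MvPolynomial.eval₂_comp_left (σ : L →+* E) (RingHom.id L) z
    (map (algebraMap K L) P)
  rw [RingHom.comp_id] at h1
  exact h1.symm

theorem Est.descend {K E L : Type} [Field K] [NumberField K] [Field E] [Field L] [NumberField L]
    [Algebra K E] [Algebra K L] {d : ℕ} {F : Fin 3 → MvPolynomial (Fin 3) K}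
    (hF : ∀ i, (F i).IsHomogeneous d) {g : MvPolynomial (Fin 3) K} {D : ℕ}
    (hg : g.IsHomogeneous D) {v : AbsoluteValue K ℝ} (hv : v ∈ nonarchAbsVal (K := K))
    {W : AbsoluteValue E ℝ} (hW : IsNonarchimedean W)
    (hvW : ∀ a : K, W (algebraMap K E a) = v a) {x : Fin 3 → K} (hx : ∀ n, iter F x n ≠ 0)
    {i N : ℕ} {w : Fin 3 → E} (hw0 : ∀ l, iter F w l ≠ 0) (hE : Est v W F g D x i N w)
    (hct : 0 ≤ ct v (iter F x i) (iter F x (i + N)))
    (σ : L →ₐ[K] E) {y : Fin 3 → L} {c : E} (hc : c ≠ 0) (hw : w = fun a => c * σ (y a)) :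
    ∃ V ∈ nonarchAbsVal (K := L), Est v V F g D x i N y := by
  have hinj : Function.Injective (σ : L →+* E) := (σ : L →+* E).injective
  have hinj' : Function.Injective σ := hinj
  have hw' : w = c • fun a => σ (y a) := hw
  -- the absolute value of `L`
  let w1 : AbsoluteValue L ℝ := W.comp hinj
  have hw1 : ∀ z : L, w1 z = W (σ z) := fun z => rfl
  have hw1na : IsNonarchimedean w1 := by
    intro a b
    rw [hw1, hw1, hw1, map_add]
    exact hW _ _
  have hw1v : ∀ a : K, w1 (algebraMap K L a) = v a := by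
    intro a
    rw [hw1, σ.commutes, hvW]
  obtain ⟨V, hV, κ, hκ, hVw⟩ := exists_place_pull hv hw1na hw1v
  have hnm : ∀ {ι : Type} (z : ι → L), nm W (fun a => σ (z a)) = nm w1 z := fun z => rfl
  -- the iterates
  have hit : ∀ l, iter F w l = c ^ d ^ l • fun a => σ (iter F y l a) := by
    intro l
    rw [hw', iter_smulL hF]
    congr 1
    exact Pool.Agent.Helper36.iter_map F σ y l
  have hpw : ∀ l : ℕ, c ^ d ^ l ≠ 0 := fun l => pow_ne_zero _ hc
  have hyl : ∀ l, iter F y l ≠ 0 := by
    intro l h0
    apply hw0 l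
    rw [hit l, h0]
    funext a
    simp
  refine ⟨V, hV, ⟨κ, hκ, fun a => by rw [hVw, hw1v]⟩, ?_, ?_, ?_⟩
  · -- periodicity
    obtain ⟨γ, hγ⟩ := hE.per
    obtain ⟨a0, ha0⟩ : ∃ a, y a ≠ 0 := Function.ne_iff.1 (hyl 0)
    have h1 : ∀ a, c ^ d ^ N * σ (iter F y N a) = γ * (c * σ (y a)) := by
      intro a
      have h2 := congrFun hγ a
      rw [hit N, hw] at h2
      exact h2
    refine ⟨iter F y N a0 / y a0, ?_⟩
    funext a
    rw [Pi.smul_apply, smul_eq_mul]
    have h3 : iter F y N a * y a0 = iter F y N a0 * y a := by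
      apply hinj'
      rw [map_mul, map_mul]
      apply mul_left_cancel₀ (hpw N)
      linear_combination σ (y a0) * h1 a - σ (y a) * h1 a0
    field_simp
    linear_combination h3
  · -- the curve
    intro l hl hne
    have hev : aeval (iter F y l) g = eval (iter F y l) (map (algebraMap K L) g) := by
      rw [eval_map, aeval_def]
    have hevL : eval (iter F y l) (map (algebraMap K L) g) ≠ 0 := by rwa [← hev]
    have hev' : eval (fun a => σ (iter F y l a)) (map (algebraMap K E) g) ≠ 0 := by
      rw [Descend_eval]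
      exact (map_ne_zero_iff σ hinj').2 hevL
    have hae : aeval (iter F w l) g =
        (c ^ d ^ l) ^ D * σ (eval (iter F y l) (map (algebraMap K L) g)) := by
      rw [hit l, aeval_smulL hg, ← Descend_eval σ g, eval_map, aeval_def]
    have h1 := hE.est l hl (by
      rw [hae]
      exact mul_ne_zero (pow_ne_zero _ (hpw l)) ((map_ne_zero_iff σ hinj').2 hevL))
    have h2 : df W (map (algebraMap K E) g) D (iter F w l) =
        df w1 (map (algebraMap K L) g) D (iter F y l) := by
      have h3 : eval (iter F w l) (map (algebraMap K E) g) = aeval (iter F w l) g := by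
        rw [eval_map, aeval_def]
      have key : ∀ e : E, e ≠ 0 → iter F w l = e • (fun a => σ (iter F y l a)) →
          aeval (iter F w l) g = e ^ D * σ (eval (iter F y l) (map (algebraMap K L) g)) →
          df W (map (algebraMap K E) g) D (iter F w l) =
            df w1 (map (algebraMap K L) g) D (iter F y l) := by
        intro e he h5 h6
        have h7 : W (σ (eval (iter F y l) (map (algebraMap K L) g))) ≠ 0 :=
          W.ne_zero ((map_ne_zero_iff σ hinj').2 hevL)
        unfold df
        rw [h3, h6, h5, nm_smul, hnm, map_mul, map_pow,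
          Real.log_mul (W.ne_zero he) (nm_pos w1 (hyl l)).ne',
          Real.log_mul (pow_ne_zero _ (W.ne_zero he)) h7, Real.log_pow, ← hw1]
        ring
      exact key _ (hpw l) (hit l) hae
    rw [h2] at h1
    rw [Descend_df hκ hVw D (hyl l) hevL]
    have h4 := hct.trans h1
    nlinarith
  · -- the contact
    intro hne
    have hinc : inc E (iter F x i) = fun a => σ (inc L (iter F x i) a) := by
      funext a
      exact (σ.commutes _).symm
    have hcr : cr (inc E (iter F x i)) w =
        c • fun q => σ (cr (inc L (iter F x i)) y q) := by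
      funext q
      rw [hw, hinc]
      simp only [cr, Pi.smul_apply, smul_eq_mul, map_sub, map_mul]
      ring
    have hcr0 : cr (inc E (iter F x i)) w ≠ 0 := by
      obtain ⟨q, hq⟩ := Function.ne_iff.1 hne
      intro h0
      have h1 := congrFun h0 q
      rw [hcr] at h1
      have h2 : c * σ (cr (inc L (iter F x i)) y q) = 0 := h1
      rcases mul_eq_zero.1 h2 with h3 | h3
      · exact hc h3
      · exact hq ((map_eq_zero_iff σ hinj').1 h3)
    have h1 := hE.con hcr0
    have hy0 : y ≠ 0 := hyl 0
    have h2 : ct W (inc E (iter F x i)) w = ct w1 (inc L (iter F x i)) y := by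
      unfold ct
      rw [hcr, nm_smul, hnm, hinc, hnm, hw', nm_smul, hnm,
        Real.log_mul (W.ne_zero hc) (nm_pos w1 hy0).ne',
        Real.log_mul (W.ne_zero hc) (nm_pos w1 hne).ne']
      ring
    rw [h2] at h1
    rw [Descend_ct hκ hVw hne]
    have h4 := hct.trans h1
    nlinarith

end Pool.Agent.Helper45.TG2
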