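import Pool.Agent.Helper45.TG2.Base
import Pool.Agent.Helper21.TG2.HeightL

/-!
# Project TG2 (A): heights of periodic points over extensions (module of helper21)
-/

set_option autoImplicit false

namespace Pool.Agent.Helper45.TG2

open MvPolynomial Height AdmissibleAbsValues
open Pool.Agent.Helper29.TG
open Pool.Agent.Helper36 (step iter)
open Pool.Agent.Helper33.SS (jprod itp)

theorem Ht_isEndo {K : Type} [Field K] [Algebra K ℂ] {d : ℕ} (hd : 2 ≤ d)
    {F : Fin 3 → MvPolynomial (Fin 3) K} (hF : ∀ i, (F i).IsHomogeneous d)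
    (hnz : ∀ x : Fin 3 → ℂ, (∀ i, aeval x (F i) = 0) → x = 0) :
    Pool.Agent.Helper30.TP.IsEndo d fun i => map (algebraMap K ℂ) (F i) := by
  refine ⟨hd, fun i => (hF i).map _, fun x hx => hnz x fun i => ?_⟩
  rw [aeval_def, ← eval_map]
  exact hx i

/-- The height over `L` of a periodic point is at most a constant times the degree. -/
theorem exists_ht_bound {K : Type} [Field K] [NumberField K] [Algebra K ℂ] {d : ℕ} (hd : 2 ≤ d)
    {F : Fin 3 → MvPolynomial (Fin 3) K} (hF : ∀ i, (F i).IsHomogeneous d)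
    (hnz : ∀ x : Fin 3 → ℂ, (∀ i, aeval x (F i) = 0) → x = 0) :
    ∃ C : ℝ, 0 ≤ C ∧ ∀ (L : Type) [Field L] [NumberField L] [Algebra K L] (w : Fin 3 → L)
      (N : ℕ) (γ : L), w ≠ 0 → 0 < N → iter F w N = γ • w →
      logHeight w ≤ C * (Module.finrank K L : ℝ) := by
  obtain ⟨C, hC0, hC⟩ := Pool.Agent.Helper21.TG2.exists_ht_bound (Ht_isEndo hd hF hnz)
  refine ⟨C * Module.finrank ℚ K, by positivity, ?_⟩
  intro L _ _ _ w N γ hw hN h
  have h1 := hC L w N γ hw hN h
  rw [← Module.finrank_mul_finrank ℚ K L] at h1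
  push_cast at h1
  linarith

end Pool.Agent.Helper45.TG2
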