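import Pool.Agent.Helper45.TG2.GoodP

/-!
# Project TG2 (A): the limit of the normalised sequence
-/

set_option autoImplicit false

namespace Pool.Agent.Helper45.TG2

open MvPolynomial Height AdmissibleAbsValues
open Pool.Agent.Helper29.TG
open Pool.Agent.Helper36 (step iter)
open Pool.Agent.Helper33.SS (jprod itp)

/-- the completion of a field -/
theorem exists_completion {K : Type} [Field K] {v : AbsoluteValue K ℝ} (hv : IsNonarchimedean v) :
    ∃ (E : Type) (_ : NormedField E) (_ : CompleteSpace E) (_ : IsUltrametricDist E)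
      (_ : Algebra K E), ∀ a : K, ‖algebraMap K E a‖ = v a := by
  have hna : ∀ x y : v.Completion, ‖x + y‖ ≤ max ‖x‖ ‖y‖ := by
    intro x y
    refine UniformSpace.Completion.induction_on₂ x y ?_ ?_
    · exact isClosed_le (continuous_norm.comp continuous_add)
        ((continuous_norm.comp continuous_fst).max (continuous_norm.comp continuous_snd))
    · intro a b
      rw [← UniformSpace.Completion.coe_add, UniformSpace.Completion.norm_coe,
        UniformSpace.Completion.norm_coe, UniformSpace.Completion.norm_coe]
      exact hv a.ofAbs b.ofAbs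
  refine ⟨v.Completion, inferInstance, inferInstance,
    IsUltrametricDist.isUltrametricDist_of_forall_norm_add_le_max_norm hna,
    ((UniformSpace.Completion.coeRingHom : WithAbs v →+* v.Completion).comp
      (WithAbs.equiv v).symm.toRingHom).toAlgebra, fun a => ?_⟩
  show ‖((WithAbs.toAbs v a : WithAbs v) : v.Completion)‖ = v a
  rw [UniformSpace.Completion.norm_coe]
  rfl

theorem exists_limit_point {K : Type} [Field K] {v : AbsoluteValue K ℝ} {d : ℕ}
    {F : Fin 3 → MvPolynomial (Fin 3) K} (hb : Good v d F) (hd : 1 ≤ d) {x : Fin 3 → K}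
    {i N : ℕ} {ε : ℝ} (hε0 : 0 ≤ ε) (hε1 : ε < 1) {p : Fin 3} {u : ℕ → Fin 3 → K}
    (hu : NSeq v F x i N ε p u) :
    ∃ (E : Type) (_ : Field E) (_ : Algebra K E) (W : AbsoluteValue E ℝ) (w : Fin 3 → E),
      IsNonarchimedean W ∧ (∀ a : K, W (algebraMap K E a) = v a) ∧ w p = 1 ∧
      (∃ γ : E, iter F w N = γ • w) ∧
      (∀ a, W (w a - algebraMap K E (u 0 a)) ≤ ε) ∧
      (∀ l, nm W (iter F w l) = 1) ∧
      (∀ (P : MvPolynomial (Fin 3) K) (l : ℕ), CoeffInt v P →
        eval (iter F (u 0) l) P = 0 → W (aeval (iter F w l) P) ≤ ε) ∧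
      (∀ (P : MvPolynomial (Fin 3) K) (r : ℕ),
        {j | eval (iter F (u j) r) P = 0}.Infinite → aeval (iter F w r) P = 0) := by
  obtain ⟨E, hE1, hE2, hE3, hE4, hEv⟩ := exists_completion hb.na
  let _ := hE1
  let _ := hE2
  let _ := hE3
  let _ := hE4
  let W : AbsoluteValue E ℝ := NormedField.toAbsoluteValue E
  have hWn : ∀ a : E, W a = ‖a‖ := fun a => rfl
  have hWv : ∀ a : K, W (algebraMap K E a) = v a := hEv
  have hWna : IsNonarchimedean W := fun a b => by
    simp only [hWn]
    exact IsUltrametricDist.norm_add_le_max a b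
  have hbW : Good W d F := hb.extend hWna hWv
  -- the limit
  have hlim : ∀ a, ∃ z : E, Filter.Tendsto (fun j => algebraMap K E (u j a)) Filter.atTop
      (nhds z) := by
    intro a
    have hc : CauchySeq (fun j => algebraMap K E (u j a)) := by
      apply NonarchimedeanAddGroup.cauchySeq_of_tendsto_sub_nhds_zero
      rw [tendsto_zero_iff_norm_tendsto_zero]
      refine (hu.cauchy a).congr fun j => ?_
      rw [← map_sub]
      exact (hEv _).symm
    exact cauchySeq_tendsto_of_complete hc
  choose w hw using hlim
  have hwt : Filter.Tendsto (fun j => inc E (u j)) Filter.atTop (nhds w) :=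
    tendsto_pi_nhds.2 hw
  -- continuity
  have hcont : ∀ (P : MvPolynomial (Fin 3) K) (l : ℕ),
      Filter.Tendsto (fun j => aeval (iter F (inc E (u j)) l) P) Filter.atTop
        (nhds (aeval (iter F w l) P)) := by
    intro P l
    have h1 : Continuous fun y : Fin 3 → E => aeval (iter F y l) P := by
      have h2 : (fun y : Fin 3 → E => aeval (iter F y l) P) =
          fun y => eval y (map (algebraMap K E) (aeval (itp F l) P)) := by
        funext y
        rw [← aeval_itp, eval_map, aeval_def]
      rw [h2]
      exact MvPolynomial.continuous_eval _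
    exact (h1.tendsto w).comp hwt
  have hcit : ∀ (l : ℕ) (a : Fin 3),
      Filter.Tendsto (fun j => iter F (inc E (u j)) l a) Filter.atTop (nhds (iter F w l a)) := by
    intro l a
    have h1 := hcont (X a) l
    simp only [aeval_X] at h1
    exact h1
  have hwp : w p = 1 := by
    refine tendsto_nhds_unique (hw p) ?_
    refine tendsto_const_nhds.congr fun j => ?_
    rw [hu.one j, map_one]
  have hwi : ∀ a, W (w a) ≤ 1 := by
    intro a
    refine le_of_tendsto ((hw a).norm) (Filter.Eventually.of_forall fun j => ?_)
    rw [hEv]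
    exact hu.int j a
  have hwn : ∀ a, W (w a - algebraMap K E (u 0 a)) ≤ ε := by
    intro a
    refine le_of_tendsto (((hw a).sub tendsto_const_nhds).norm)
      (Filter.Eventually.of_forall fun j => ?_)
    rw [← map_sub, hEv]
    exact hu.near j a
  have hw0 : w ≠ 0 := by
    intro h0
    rw [h0] at hwp
    exact zero_ne_one hwp
  have hnmw : nm W w = 1 := by
    refine le_antisymm (nm_le zero_le_one hwi) ?_
    have h1 := le_nm W w p
    rw [hwp, map_one] at h1
    exact h1
  refine ⟨E, inferInstance, inferInstance, W, w, hWna, hWv, hwp,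
    ⟨iter F w N p, funext fun a => ?_⟩, hwn, fun l => ?_, fun P l hP h0 => ?_,
    fun P r hinf => ?_⟩
  · -- periodicity
    have h1 : ∀ j, iter F (inc E (u j)) N a =
        iter F (inc E (u j)) N p * algebraMap K E (u (j + 1) a) := by
      intro j
      rw [iter_inc]
      show algebraMap K E (iter F (u j) N a) =
        algebraMap K E (iter F (u j) N p) * algebraMap K E (u (j + 1) a)
      rw [← map_mul]
      congr 1
      obtain ⟨c, hc, hc'⟩ := hu.prop j
      obtain ⟨c2, hc2, hc2'⟩ := hu.prop (j + 1)
      have h2 : iter F (u j) N = c ^ d ^ N • iter F x (i + N * (j + 1)) := by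
        rw [hc', iter_smulL hb.hom]
        congr 1
        rw [show i + N * (j + 1) = N + (i + N * j) by ring]
        exact (Pool.Agent.Helper36.iter_add F x N (i + N * j)).symm
      have h3 : iter F x (i + N * (j + 1)) = c2⁻¹ • u (j + 1) := by
        rw [hc2', smul_smul, inv_mul_cancel₀ hc2, one_smul]
      rw [h2, h3]
      simp only [Pi.smul_apply, smul_eq_mul]
      rw [hu.one (j + 1)]
      ring
    have h2 := hcit N a
    have h3 := (hcit N p).mul ((hw a).comp (Filter.tendsto_add_atTop_nat 1))
    refine tendsto_nhds_unique h2 (h3.congr fun j => ?_)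
    exact (h1 j).symm
  · rw [hbW.nm_iter hd hw0 l, hnmw, one_pow]
  · have h1 : aeval (iter F (inc E (u 0)) l) P = 0 := by
      rw [iter_inc, aeval_inc, h0, map_zero]
    have h2 := aeval_sub_le (w := W) hWna (P := P) (fun m => by rw [hWv]; exact hP m)
      (hbW.iter_int (y := inc E (u 0)) (fun a => by
        show W (algebraMap K E (u 0 a)) ≤ 1
        rw [hWv]
        exact hu.int 0 a) l) (hbW.iter_int hwi l) hε0
      (fun a => hbW.iter_sub_le (fun a => by
        show W (algebraMap K E (u 0 a)) ≤ 1
        rw [hWv]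
        exact hu.int 0 a) hwi hε0 hwn l a)
    rw [h1, sub_zero] at h2
    exact h2
  · have h1 := hcont P r
    have h2 : ∃ᶠ j in Filter.atTop, aeval (iter F (inc E (u j)) r) P ∈ ({0} : Set E) := by
      rw [Nat.frequently_atTop_iff_infinite]
      refine hinf.mono fun j hj => ?_
      show aeval (iter F (inc E (u j)) r) P = 0
      rw [iter_inc, aeval_inc]
      have h3 : eval (iter F (u j) r) P = 0 := hj
      rw [h3, map_zero]
    exact isClosed_singleton.mem_of_frequently_of_tendsto h2 h1

end Pool.Agent.Helper45.TG2
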