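import Pool.Agent.Helper45.TG2.Base

/-!
# Project TG2 (A): local data
-/

set_option autoImplicit false

namespace Pool.Agent.Helper45.TG2

open MvPolynomial Height AdmissibleAbsValues
open Pool.Agent.Helper29.TG
open Pool.Agent.Helper36 (step iter)
open Pool.Agent.Helper33.SS (jprod itp)

/-- A periodic point close to `x_i` at `v` which is on the curve at the times `0` and `l`. -/
def Loc {K : Type} [Field K] (v : AbsoluteValue K ℝ) (F : Fin 3 → MvPolynomial (Fin 3) K)
    (g : MvPolynomial (Fin 3) K) (D : ℕ) (x : Fin 3 → K) (i N l : ℕ) : Prop :=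
  ∃ (E : Type) (_ : Field E) (_ : Algebra K E) (W : AbsoluteValue E ℝ) (w : Fin 3 → E),
    IsNonarchimedean W ∧ (∀ a : K, W (algebraMap K E a) = v a) ∧ (∀ n, iter F w n ≠ 0) ∧
    aeval w g = 0 ∧ aeval (iter F w l) g = 0 ∧ Est v W F g D x i N w

end Pool.Agent.Helper45.TG2
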