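import Pool.Agent.Helper45.TG2.Seq
import Pool.Agent.Helper45.TG2.Limit

/-!
# Project TG2 (A): the local argument
-/

set_option autoImplicit false

namespace Pool.Agent.Helper45.TG2

open MvPolynomial Height AdmissibleAbsValues
open Pool.Agent.Helper29.TG
open Pool.Agent.Helper36 (step iter)
open Pool.Agent.Helper33.SS (jprod itp)

private theorem lp_cross_le {E : Type} [Field E] {W : AbsoluteValue E ℝ} (hW : IsNonarchimedean W)
    {y w : Fin 3 → E} {ε : ℝ} (hε : 0 ≤ ε) (hw : nm W w ≤ 1) (hd : ∀ a, W (w a - y a) ≤ ε) :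
    nm W (cr y w) ≤ ε := by
  have key : ∀ p q : Fin 3, W (y p * w q - y q * w p) ≤ ε := by
    intro p q
    have h1 : y p * w q - y q * w p = (w q - y q) * w p - (w p - y p) * w q := by ring
    rw [h1, sub_eq_add_neg]
    refine (hW _ _).trans (max_le ?_ ?_)
    · rw [map_mul]
      calc W (w q - y q) * W (w p) ≤ ε * 1 :=
            mul_le_mul (hd q) ((le_nm W w p).trans hw) (W.nonneg _) hε
        _ = ε := mul_one ε
    · rw [map_neg_eq_map, map_mul]
      calc W (w p - y p) * W (w q) ≤ ε * 1 :=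
            mul_le_mul (hd p) ((le_nm W w q).trans hw) (W.nonneg _) hε
        _ = ε := mul_one ε
  exact nm_le hε fun q => key q.1 q.2

private theorem lp_cr_smul {E : Type} [Field E] (c : E) (x y : Fin 3 → E) :
    cr (c • x) y = c • cr x y := by
  funext q
  simp only [cr, Pi.smul_apply, smul_eq_mul]
  ring

private theorem lp_ct_smul {E : Type} [Field E] (W : AbsoluteValue E ℝ) {x y : Fin 3 → E}
    (h : cr x y ≠ 0) {c : E} (hc : c ≠ 0) : ct W (c • x) y = ct W x y := by
  have hx := nm_pos W (left_ne_zero h)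
  have h1 := nm_pos W h
  have h2 := W.pos hc
  unfold ct
  rw [lp_cr_smul, nm_smul, nm_smul, Real.log_mul h2.ne' hx.ne', Real.log_mul h2.ne' h1.ne']
  ring

private theorem lp_eval {K : Type} [Field K] {d : ℕ} {F : Fin 3 → MvPolynomial (Fin 3) K}
    (hF : ∀ i, (F i).IsHomogeneous d) {g : MvPolynomial (Fin 3) K} {D : ℕ}
    (hg : g.IsHomogeneous D) {x u : Fin 3 → K} (hu : Pool.Agent.Helper36.PEq x u) {l : ℕ}
    (h0 : eval (iter F x l) g = 0) : eval (iter F u l) g = 0 := by
  obtain ⟨c, -, hc⟩ := Pool.Agent.Helper36.PEq.iter hF hu l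
  have h1 := aeval_smulL (L := K) hg c (iter F x l)
  rw [MvPolynomial.aeval_eq_eval, MvPolynomial.aeval_eq_eval] at h1
  have h2 : eval (c • iter F x l) g = c ^ D * eval (iter F x l) g := h1
  rw [hc, h2, h0, mul_zero]

theorem local_point {K : Type} [Field K] {v : AbsoluteValue K ℝ} {d : ℕ}
    {F : Fin 3 → MvPolynomial (Fin 3) K} (hb : Good v d F) (hd0 : 1 ≤ d) (hd : v (d : K) = 1)
    {x : Fin 3 → K} (hx : ∀ n, iter F x n ≠ 0) {g : MvPolynomial (Fin 3) K} {D : ℕ}
    (hg : g.IsHomogeneous D) (hgi : CoeffInt v g) {i N r : ℕ}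
    (hne : cr (iter F x i) (iter F x (i + N)) ≠ 0)
    (hnil : ∀ c : K, nm v (c • iter F x i) = 1 → Nil v F (c • iter F x i) N)
    (hinf : {j | eval (iter F x (i + r + N * j)) g = 0}.Infinite)
    (hct : 0 < ct v (iter F x i) (iter F x (i + N))) :
    ∃ (E : Type) (_ : Field E) (_ : Algebra K E) (W : AbsoluteValue E ℝ) (w : Fin 3 → E),
      IsNonarchimedean W ∧ (∀ a : K, W (algebraMap K E a) = v a) ∧ w ≠ 0 ∧
      aeval (iter F w r) g = 0 ∧ Est v W F g D x i N w := by
  obtain ⟨p, u, hu⟩ := exists_seq hb hd0 hd hx hne hnil hct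
  obtain ⟨E, fE, aE, W, w, hW, hext, hwp, hper, hclose, hnrm, hP1, hP2⟩ :=
    exists_limit_point hb hd0 (Real.exp_pos _).le (Real.exp_lt_one_iff.2 (neg_lt_zero.2 hct)) hu
  have hw0 : w ≠ 0 := by
    intro h0
    rw [h0] at hwp
    exact zero_ne_one hwp
  have hu0 := hu.prop 0
  rw [mul_zero, add_zero] at hu0
  refine ⟨E, fE, aE, W, w, hW, hext, hw0, ?_, ⟨⟨1, le_rfl, fun a => ?_⟩, hper, ?_, ?_⟩⟩
  · refine hP2 g r (hinf.mono ?_)
    intro j hj
    have hj' : eval (iter F x (i + r + N * j)) g = 0 := hj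
    refine lp_eval hb.hom hg (hu.prop j) (l := r) ?_
    rw [← Pool.Agent.Helper36.iter_add]
    rw [show r + (i + N * j) = i + r + N * j by ring]
    exact hj'
  · rw [hext, Real.rpow_one]
  · intro l hl hne'
    have h1 : eval (iter F (u 0) l) g = 0 := by
      refine lp_eval hb.hom hg hu0 (l := l) ?_
      rw [← Pool.Agent.Helper36.iter_add, add_comm]
      exact hl
    have h2 := hP1 g l hgi h1
    have h3 := Real.log_le_log (W.pos hne') h2
    rw [Real.log_exp] at h3
    unfold df
    rw [hnrm, Real.log_one, mul_zero, eval_map, ← aeval_def]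
    linarith
  · intro hne'
    obtain ⟨c, hc, hcu⟩ := hu0
    have hc' : algebraMap K E c ≠ 0 := (map_ne_zero _).2 hc
    have hinc : inc E (u 0) = algebraMap K E c • inc E (iter F x i) := by
      funext a
      show algebraMap K E (u 0 a) = algebraMap K E c * algebraMap K E (iter F x i a)
      rw [hcu, Pi.smul_apply, smul_eq_mul, map_mul]
    have hne2 : cr (inc E (u 0)) w ≠ 0 := by
      rw [hinc, lp_cr_smul]
      exact smul_ne_zero hc' hne'
    have hct1 : ct W (inc E (iter F x i)) w = ct W (inc E (u 0)) w := by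
      rw [hinc]
      exact (lp_ct_smul W hne' hc').symm
    have hn1 : nm W (inc E (u 0)) = 1 := by
      refine le_antisymm (nm_le zero_le_one fun a => ?_) ?_
      · show W (algebraMap K E (u 0 a)) ≤ 1
        rw [hext]
        exact hu.int 0 a
      · have h1 := le_nm W (inc E (u 0)) p
        have h2 : inc E (u 0) p = 1 := by
          show algebraMap K E (u 0 p) = 1
          rw [hu.one 0, map_one]
        rwa [h2, map_one] at h1
    have hn2 : nm W w = 1 := hnrm 0
    have hn3 := lp_cross_le hW (y := inc E (u 0)) (Real.exp_pos _).le hn2.le hclose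
    have hn4 := Real.log_le_log (nm_pos W hne2) hn3
    rw [Real.log_exp] at hn4
    rw [hct1]
    unfold ct at hn4 ⊢
    rw [hn1, hn2, Real.log_one]
    linarith

end Pool.Agent.Helper45.TG2
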