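import Pool.Agent.Helper29.TG.Low
import Pool.Agent.Helper63.TK.LowM
import Pool.Agent.Helper45.TG2.Defs

/-!
# Project TG2 (A): sums of contacts of points of a plane curve, number of points
-/

set_option autoImplicit false

namespace Pool.Agent.Helper45.TG2

open MvPolynomial Height AdmissibleAbsValues
open Pool.Agent.Helper29.TG
open Pool.Agent.Helper36 (step iter)
open Pool.Agent.Helper33.SS (jprod itp)

/-- as `exists_low`, with a bound for the number of the points of `Γ` -/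
theorem exists_low_card {K : Type} [Field K] [AdmissibleAbsValues K] [Infinite K]
    {y : ℕ → Fin 3 → K} {S : Set ℕ} (hS : S.Infinite)
    (hy : ∀ n ∈ S, y n ≠ 0) (hnp : ∀ n ∈ S, ∀ n' ∈ S, n ≠ n' → cr (y n) (y n') ≠ 0)
    {g : MvPolynomial (Fin 3) K} {D : ℕ} (hg : g.IsHomogeneous D) (hirr : Irreducible g)
    (hgy : ∀ n ∈ S, eval (y n) g = 0) (N : ℕ) (hN : 1 ≤ N) :
    ∃ (Γ : Finset ℕ) (C : ℝ), ↑Γ ⊆ S ∧ Γ.Nonempty ∧ Γ.card ≤ (D ^ 2 + N + 2).choose 2 ∧
      {n ∈ S | n ∉ Γ ∧ ¬ N * logHeight (y n) ≤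
        ∑ i ∈ Γ, ls (fun v => ct v (y i) (y n)) + C}.Finite := by
  classical
  have hnp' : ∀ n ∈ S, ∀ n' ∈ S, n ≠ n' → ¬ Pool.Agent.Helper30.TP.PEq (y n) (y n') :=
    fun n hn n' hn' h => low_not_peq (hnp n hn n' hn' h)
  obtain ⟨Γ, δ, e, G, U, hΓS, hG, hU, heN, hδ, hgG, hgU, hcard, hT⟩ :=
    Pool.Agent.Helper63.TK.exists_denominator_card hS hy hnp' hg hirr hgy N
  -- the products of linear forms
  have hTh : ∀ a : Γ → Fin 3 × Fin 3,
      (∏ i : Γ, lowForm (y i) (a i)).IsHomogeneous Γ.card := by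
    intro a
    have := IsHomogeneous.prod (Finset.univ : Finset Γ) (fun i : Γ => lowForm (y i) (a i))
      (fun _ => 1) (fun i _ => lowForm_hom _ _)
    simpa using this
  have hT0 : ∀ a : Γ → Fin 3 × Fin 3, ∀ i ∈ Γ,
      eval (y i) (∏ i : Γ, lowForm (y i) (a i)) = 0 := by
    intro a i hi
    rw [map_prod]
    refine Finset.prod_eq_zero (Finset.mem_univ (⟨i, hi⟩ : Γ)) ?_
    rw [lowForm_eval, low_cr_self]
  choose B hB hBd using fun a => hT _ (hTh a) (hT0 a)
  choose cc hccF hcc0 hccle using fun a => exists_log_eval_le (hB a)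
  set c : AbsoluteValue K ℝ → ℝ := fun v => ∑ a : Γ → Fin 3 × Fin 3, cc a v with hc
  have hcs : FS c := FS.sum _ fun a _ => hccF a
  have hcle : ∀ v, Mem v → ∀ a : Γ → Fin 3 × Fin 3, cc a v ≤ c v := fun v hv a =>
    Finset.single_le_sum (f := fun a => cc a v) (fun a _ => hcc0 a v hv) (Finset.mem_univ a)
  -- the exceptional set
  have hfin : ∀ {V : MvPolynomial (Fin 3) K} {t : ℕ}, V.IsHomogeneous t → ¬ g ∣ V →
      {n | n ∈ S ∧ eval (y n) V = 0}.Finite := by
    intro V t hV hgV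
    have h1 := Pool.Agent.Helper30.TP.finite_common_zeros hg hV hirr hgV (fun n : S => y n)
      (fun n => hy n n.2)
      (fun i j hij => hnp' i i.2 j j.2 fun h => hij (Subtype.ext h))
    refine (h1.image Subtype.val).subset ?_
    rintro n ⟨hn, h0⟩
    exact ⟨⟨n, hn⟩, ⟨hgy n hn, h0⟩, rfl⟩
  refine ⟨Γ, ls c, hΓS, Finset.card_pos.1 (by omega), by omega,
    ((hfin hG hgG).union (hfin hU hgU)).subset ?_⟩
  rintro n ⟨hn, hnΓ, hbad⟩
  by_contra hcon
  apply hbad
  have hGn : eval (y n) G ≠ 0 := fun h => hcon (Or.inl ⟨hn, h⟩)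
  have hUn : eval (y n) U ≠ 0 := fun h => hcon (Or.inr ⟨hn, h⟩)
  have hcr : ∀ i ∈ Γ, cr (y i) (y n) ≠ 0 := fun i hi =>
    hnp i (hΓS hi) n hn fun h => hnΓ (h ▸ hi)
  -- the relation at the point
  have hrel : ∀ a : Γ → Fin 3 × Fin 3, (∏ i : Γ, cr (y i) (y n) (a i)) * eval (y n) U =
      eval (y n) G * eval (y n) (B a) := by
    intro a
    obtain ⟨q, hq⟩ := hBd a
    have h1 := congrArg (eval (y n)) hq
    rw [map_sub, map_mul, map_mul, map_mul, hgy n hn, zero_mul, sub_eq_zero, map_prod] at h1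
    simp only [lowForm_eval] at h1
    exact h1
  -- the local estimate
  have hloc : ∀ v : AbsoluteValue K ℝ, Mem v →
      ∑ i : Γ, Real.log (nm v (cr (y i) (y n))) + Real.log (v (eval (y n) U)) ≤
      Real.log (v (eval (y n) G)) + c v +
        ((Γ.card + e - δ : ℕ) : ℝ) * Real.log (nm v (y n)) := by
    intro v hv
    choose a ha0 ha using fun i : Γ => exists_nm_eq v (hcr i i.2)
    have hne : ∀ i : Γ, 0 < nm v (cr (y i) (y n)) := fun i => nm_pos v (hcr i i.2)
    have h1 := congrArg v (hrel a)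
    rw [map_mul, map_mul, map_prod] at h1
    simp only [← ha] at h1
    have hU0 : 0 < v (eval (y n) U) := v.pos hUn
    have hG0 : 0 < v (eval (y n) G) := v.pos hGn
    have hP0 : 0 < ∏ i : Γ, nm v (cr (y i) (y n)) :=
      Finset.prod_pos fun i _ => hne i
    have hB1 : eval (y n) (B a) ≠ 0 := by
      intro h2
      rw [h2, map_zero, mul_zero] at h1
      exact (mul_pos hP0 hU0).ne' h1
    have hB0 : 0 < v (eval (y n) (B a)) := v.pos hB1
    have h2 := hccle a v hv (y n) hB1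
    have h6 := congrArg Real.log h1
    rw [Real.log_mul hP0.ne' hU0.ne', Real.log_mul hG0.ne' hB0.ne',
      Real.log_prod fun i _ => (hne i).ne'] at h6
    have h8 := hcle v hv a
    rw [h6]
    linarith
  -- the sum over the places
  have hs1 : ∀ i ∈ (Finset.univ : Finset Γ),
      FS (fun v => Real.log (nm v (cr (y i) (y n)))) := fun i _ => FS_nm (hcr i i.2)
  have hs2 := FS_log hUn
  have hs3 := FS_log hGn
  have hs4 := FS.mul_left ((Γ.card + e - δ : ℕ) : ℝ) (FS_nm (hy n hn))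
  have hsum := ls_mono ((FS.sum _ hs1).add hs2) ((hs3.add hcs).add hs4) hloc
  rw [ls_add (FS.sum _ hs1) hs2, ls_add (hs3.add hcs) hs4, ls_add hs3 hcs,
    ls_log hUn, ls_log hGn, ls_mul_left, ls_nm (hy n hn),
    ls_sum _ hs1, add_zero, zero_add] at hsum
  have h9 : ∑ i ∈ Γ, logHeight (cr (y i) (y n)) =
      ∑ i : Γ, ls (fun v => Real.log (nm v (cr (y i) (y n)))) := by
    rw [← Finset.sum_coe_sort Γ fun i => logHeight (cr (y i) (y n))]
    exact Finset.sum_congr rfl fun i _ => (ls_nm (hcr i i.2)).symm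
  have h10 : 0 ≤ logHeight (y n) := logHeight_nonneg _
  have h11 : ((Γ.card + e - δ : ℕ) : ℝ) ≤ (Γ.card : ℝ) - N := by
    have h12 : Γ.card + e - δ + N ≤ Γ.card := by omega
    have h13 : ((Γ.card + e - δ : ℕ) : ℝ) + (N : ℝ) ≤ (Γ.card : ℝ) := by exact_mod_cast h12
    linarith
  have h12 := mul_le_mul_of_nonneg_right h11 h10
  have h14 : ∑ i ∈ Γ, ls (fun v => ct v (y i) (y n)) =
      ∑ i ∈ Γ, logHeight (y i) + Γ.card * logHeight (y n) -
        ∑ i ∈ Γ, logHeight (cr (y i) (y n)) := by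
    rw [Finset.sum_congr rfl fun i hi => ls_ct (hcr i hi), Finset.sum_sub_distrib,
      Finset.sum_add_distrib, Finset.sum_const, nsmul_eq_mul]
  have h15 : 0 ≤ ∑ i ∈ Γ, logHeight (y i) := Finset.sum_nonneg fun i _ => logHeight_nonneg _
  rw [h14, h9]
  linarith


end Pool.Agent.Helper45.TG2
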