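import Pool.Agent.Helper45.TG2.LowCard

/-!
# Project TG2 (A): the lower bound for the contacts
-/

set_option autoImplicit false

namespace Pool.Agent.Helper45.TG2

open MvPolynomial Height AdmissibleAbsValues
open Pool.Agent.Helper29.TG
open Pool.Agent.Helper36 (step iter)
open Pool.Agent.Helper33.SS (jprod itp)

theorem lower {K : Type} [Field K] [AdmissibleAbsValues K] [Infinite K]
    {y : ℕ → Fin 3 → K} (hy : ∀ n, y n ≠ 0) (hdist : ∀ n n', n ≠ n' → cr (y n) (y n') ≠ 0)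
    {g : MvPolynomial (Fin 3) K} {D : ℕ} (hg : g.IsHomogeneous D) (hirr : Irreducible g)
    (hinf : {n | eval (y n) g = 0}.Infinite) {B : Set (AbsoluteValue K ℝ)} (hB : B.Finite) :
    ∃ G : ℕ, ∀ i₀ : ℕ, ∃ (Γ : Finset ℕ) (C : ℝ) (n₁ : ℕ), Γ.card ≤ G ∧
      (∀ i ∈ Γ, i₀ ≤ i ∧ eval (y i) g = 0) ∧
      ∀ n, n₁ ≤ n → eval (y n) g = 0 → ∃ T : Finset (AbsoluteValue K ℝ),
        (∀ v ∈ T, v ∈ nonarchAbsVal (K := K) ∧ v ∉ B) ∧
        logHeight (y n) ≤ ∑ i ∈ Γ, ∑ v ∈ T, ct v (y i) (y n) + C := by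
  classical
  set A : ℕ := (archAbsVal (K := K)).card with hA
  set BF : Finset (AbsoluteValue K ℝ) := hB.toFinset with hBF
  set N : ℕ := A + BF.card + 1 with hN
  refine ⟨(D ^ 2 + N + 2).choose 2, fun i₀ => ?_⟩
  -- the return times after `i₀`
  have hSinf : {n | i₀ ≤ n ∧ eval (y n) g = 0}.Infinite := by
    have h1 : {n | eval (y n) g = 0} ⊆
        {n | i₀ ≤ n ∧ eval (y n) g = 0} ∪ ↑(Finset.range i₀) := by
      intro n hn
      by_cases hi : i₀ ≤ n
      · exact Or.inl ⟨hi, hn⟩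
      · exact Or.inr (by simpa using hi)
    intro hfin
    exact hinf ((hfin.union (Finset.finite_toSet _)).subset h1)
  obtain ⟨Γ, C, hΓS, hΓne, hcard, hE⟩ := exists_low_card (y := y) hSinf (fun n _ => hy n)
    (fun n _ n' _ h => hdist n n' h) hg hirr (fun n hn => hn.2) N (by omega)
  obtain ⟨M, hM⟩ := (hE.union (Finset.finite_toSet Γ)).bddAbove
  choose Cc hCc using fun i => exists_ct_le (y i)
  set c₀ : ℝ := ∑ i ∈ Γ, |Cc i| with hc₀
  have hc₀le : ∀ i ∈ Γ, Cc i ≤ c₀ := fun i hi =>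
    (le_abs_self _).trans (Finset.single_le_sum (f := fun i => |Cc i|)
      (fun i _ => abs_nonneg _) hi)
  have hc₀0 : 0 ≤ c₀ := Finset.sum_nonneg fun i _ => abs_nonneg _
  set Ra : AbsoluteValue K ℝ → ℝ := fun v =>
    ∑ i ∈ Γ, ∑ j ∈ Γ.erase i, (ct v (y i) (y j) + Real.log 6) with hRa
  set Rn : AbsoluteValue K ℝ → ℝ := fun v =>
    ∑ i ∈ Γ, ∑ j ∈ Γ.erase i, ct v (y i) (y j) with hRn
  have hRn0 : ∀ v ∈ nonarchAbsVal (K := K), 0 ≤ Rn v := fun v hv =>
    Finset.sum_nonneg fun i _ => Finset.sum_nonneg fun j hj =>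
      ct_nonneg (isNonarchimedean v hv) (hdist i j (Finset.ne_of_mem_erase hj).symm)
  set P : ℝ := ∑ v ∈ BF.filter (fun v => v ∈ nonarchAbsVal (K := K)), Rn v with hP
  refine ⟨Γ, C + ((A : ℝ) + BF.card) * c₀ + ((archAbsVal (K := K)).map Ra).sum + P,
    max i₀ (M + 1), hcard, fun i hi => hΓS (Finset.mem_coe.2 hi), fun n hn hn0 => ?_⟩
  have hnM : M < n := by omega
  have hnΓ : n ∉ Γ := fun hc => by
    have := hM (Or.inr (Finset.mem_coe.2 hc))
    omega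
  have hmain : (N : ℝ) * logHeight (y n) ≤
      ∑ i ∈ Γ, ls (fun v => ct v (y i) (y n)) + C := by
    by_contra hcon
    have := hM (Or.inl ⟨⟨by omega, hn0⟩, hnΓ, hcon⟩)
    omega
  have hcr : ∀ i ∈ Γ, cr (y i) (y n) ≠ 0 := fun i hi =>
    hdist i n fun h => hnΓ (h ▸ hi)
  have hcr' : ∀ i ∈ Γ, ∀ j ∈ Γ, i ≠ j → cr (y i) (y j) ≠ 0 := fun i _ j _ h => hdist i j h
  have hlh : 0 ≤ logHeight (y n) := logHeight_nonneg _
  -- the local bounds
  have harch : ∀ v ∈ archAbsVal (K := K), ∑ i ∈ Γ, ct v (y i) (y n) ≤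
      (logHeight (y n) + c₀) + Ra v := by
    intro v hv
    obtain ⟨i, hi, h1⟩ := sum_ct_le_log v hΓne hcr hcr'
    have h2 := hCc i v (Or.inl hv) (y n) (hcr i hi)
    have h3 := hc₀le i hi
    have h4 : Ra v = ∑ i ∈ Γ, ∑ j ∈ Γ.erase i, (ct v (y i) (y j) + Real.log 6) := rfl
    rw [h4]
    linarith
  have hnon : ∀ v ∈ nonarchAbsVal (K := K), ∑ i ∈ Γ, ct v (y i) (y n) ≤
      (logHeight (y n) + c₀) + Rn v := by
    intro v hv
    obtain ⟨i, hi, h1⟩ := sum_ct_le (isNonarchimedean v hv) hΓne hcr hcr'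
    have h2 := hCc i v (Or.inr hv) (y n) (hcr i hi)
    have h3 := hc₀le i hi
    have h4 : Rn v = ∑ i ∈ Γ, ∑ j ∈ Γ.erase i, ct v (y i) (y j) := rfl
    rw [h4]
    linarith
  -- the finite set of places
  have hUfin : (⋃ i ∈ Γ, Function.support fun v : nonarchAbsVal (K := K) =>
      ct v.val (y i) (y n)).Finite :=
    Set.Finite.biUnion (Finset.finite_toSet Γ) fun i hi => FS_ct (hcr i (Finset.mem_coe.1 hi))
  set T₀ : Finset (nonarchAbsVal (K := K)) := hUfin.toFinset with hT₀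
  set T₁ : Finset (AbsoluteValue K ℝ) := T₀.image Subtype.val with hT₁
  have hT₁mem : ∀ v ∈ T₁, v ∈ nonarchAbsVal (K := K) := by
    intro v hv
    obtain ⟨w, -, rfl⟩ := Finset.mem_image.1 hv
    exact w.2
  refine ⟨T₁ \ BF, fun v hv => ?_, ?_⟩
  · obtain ⟨h1, h2⟩ := Finset.mem_sdiff.1 hv
    exact ⟨hT₁mem v h1, fun h3 => h2 (by rw [hBF, Set.Finite.mem_toFinset]; exact h3)⟩
  have e1 : ∑ i ∈ Γ, ls (fun v => ct v (y i) (y n)) =
      ((archAbsVal (K := K)).map fun v => ∑ i ∈ Γ, ct v (y i) (y n)).sum +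
        ∑ v ∈ T₁, ∑ i ∈ Γ, ct v (y i) (y n) := by
    rw [← ls_sum Γ (fun i hi => FS_ct (hcr i hi))]
    unfold ls
    congr 1
    rw [hT₁, Finset.sum_image Subtype.val_injective.injOn]
    refine finsum_eq_sum_of_support_subset _ fun v hv => ?_
    rw [hT₀, Set.Finite.coe_toFinset]
    rw [Function.mem_support] at hv
    obtain ⟨i, hi, h1⟩ := Finset.exists_ne_zero_of_sum_ne_zero hv
    exact Set.mem_biUnion (Finset.mem_coe.2 hi) h1
  -- the archimedean part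
  have e2 : ((archAbsVal (K := K)).map fun v => ∑ i ∈ Γ, ct v (y i) (y n)).sum ≤
      (A : ℝ) * (logHeight (y n) + c₀) + ((archAbsVal (K := K)).map Ra).sum := by
    refine (Multiset.sum_map_le_sum_map _ _ harch).trans (le_of_eq ?_)
    rw [Multiset.sum_map_add, Multiset.map_const', Multiset.sum_replicate, nsmul_eq_mul, hA]
  -- the finite places of `B`
  have e3 : ∑ v ∈ T₁ ∩ BF, ∑ i ∈ Γ, ct v (y i) (y n) ≤
      (BF.card : ℝ) * (logHeight (y n) + c₀) + P := by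
    have h1 : ∑ v ∈ T₁ ∩ BF, ∑ i ∈ Γ, ct v (y i) (y n) ≤
        ∑ v ∈ T₁ ∩ BF, ((logHeight (y n) + c₀) + Rn v) :=
      Finset.sum_le_sum fun v hv => hnon v (hT₁mem v (Finset.mem_inter.1 hv).1)
    have h2 : ∑ v ∈ T₁ ∩ BF, ((logHeight (y n) + c₀) + Rn v) ≤
        ∑ v ∈ BF.filter (fun v => v ∈ nonarchAbsVal (K := K)),
          ((logHeight (y n) + c₀) + Rn v) := by
      refine Finset.sum_le_sum_of_subset_of_nonneg (fun v hv => ?_) fun v hv _ => ?_
      · obtain ⟨h3, h4⟩ := Finset.mem_inter.1 hv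
        exact Finset.mem_filter.2 ⟨h4, hT₁mem v h3⟩
      · have := hRn0 v (Finset.mem_filter.1 hv).2
        linarith
    have h3 : (((BF.filter (fun v => v ∈ nonarchAbsVal (K := K))).card : ℕ) : ℝ) ≤ BF.card := by
      exact_mod_cast Finset.card_filter_le _ _
    have h5 : ∑ v ∈ BF.filter (fun v => v ∈ nonarchAbsVal (K := K)),
        ((logHeight (y n) + c₀) + Rn v) =
        ((BF.filter (fun v => v ∈ nonarchAbsVal (K := K))).card : ℝ) *
          (logHeight (y n) + c₀) + P := by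
      rw [Finset.sum_add_distrib, Finset.sum_const, nsmul_eq_mul]
    have h4 := mul_le_mul_of_nonneg_right h3 (add_nonneg hlh hc₀0)
    linarith
  have e4 := Finset.sum_inter_add_sum_sdiff T₁ BF fun v => ∑ i ∈ Γ, ct v (y i) (y n)
  have e5 : ∑ i ∈ Γ, ∑ v ∈ T₁ \ BF, ct v (y i) (y n) =
      ∑ v ∈ T₁ \ BF, ∑ i ∈ Γ, ct v (y i) (y n) := Finset.sum_comm
  have e6 : (N : ℝ) * logHeight (y n) = (A : ℝ) * logHeight (y n) +
      BF.card * logHeight (y n) + logHeight (y n) := by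
    rw [hN]
    push_cast
    ring
  have e7 : (A : ℝ) * (logHeight (y n) + c₀) = A * logHeight (y n) + A * c₀ := by ring
  have e8 : (BF.card : ℝ) * (logHeight (y n) + c₀) =
      BF.card * logHeight (y n) + BF.card * c₀ := by ring
  have e9 : ((A : ℝ) + BF.card) * c₀ = A * c₀ + BF.card * c₀ := by ring
  rw [e5, e9]
  rw [e1, e6] at hmain
  rw [e7] at e2
  rw [e8] at e3
  linarith

end Pool.Agent.Helper45.TG2
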