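import Pool.Agent.Helper45.TG2.Upper
import Pool.Agent.Helper45.TG2.Lower

/-!
# Project TG2 (A): a good place at which the tangent map is not nilpotent
-/

set_option autoImplicit false

namespace Pool.Agent.Helper45.TG2

open MvPolynomial Height AdmissibleAbsValues
open Pool.Agent.Helper29.TG
open Pool.Agent.Helper36 (step iter)
open Pool.Agent.Helper33.SS (jprod itp)

/-- The heights grow at least like `d ^ n`. -/
theorem logHeight_lower {K : Type} [Field K] [NumberField K] [Algebra K ℂ] {d : ℕ} (hd : 2 ≤ d)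
    {F : Fin 3 → MvPolynomial (Fin 3) K} (hF : ∀ i, (F i).IsHomogeneous d)
    (hnz : ∀ x : Fin 3 → ℂ, (∀ i, aeval x (F i) = 0) → x = 0) (x : Fin 3 → K) :
    ∃ C : ℝ, ∀ i n : ℕ, i ≤ n →
      (d : ℝ) ^ (n - i) * (logHeight (iter F x i) - C) ≤ logHeight (iter F x n) := by
  obtain ⟨C, hC⟩ := Pool.Agent.Helper36.exists_logHeight_step_ge (L := ℂ) F hF hnz
  set c : ℝ := max 0 (-C) with hc
  have hc0 : 0 ≤ c := le_max_left _ _
  have hcC : -c ≤ C := by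
    have : -C ≤ c := le_max_right _ _
    linarith
  have hd2 : (2 : ℝ) ≤ d := by exact_mod_cast hd
  refine ⟨c, fun i n hin => ?_⟩
  have key : ∀ m : ℕ, (d : ℝ) ^ m * (logHeight (iter F x i) - c) + c ≤
      logHeight (iter F x (i + m)) := by
    intro m
    induction m with
    | zero => simp
    | succ m ih =>
      have h1 := hC (iter F x (i + m))
      rw [← Pool.Agent.Helper36.iter_succ] at h1
      have h2 : (d : ℝ) * ((d : ℝ) ^ m * (logHeight (iter F x i) - c) + c) ≤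
          d * logHeight (iter F x (i + m)) := mul_le_mul_of_nonneg_left ih (by linarith)
      have h3 : 2 * c ≤ d * c := mul_le_mul_of_nonneg_right hd2 hc0
      rw [show i + (m + 1) = i + m + 1 by omega, pow_succ]
      have h4 : (d : ℝ) * ((d : ℝ) ^ m * (logHeight (iter F x i) - c) + c) =
          (d : ℝ) ^ m * d * (logHeight (iter F x i) - c) + d * c := by ring
      linarith
  have h1 := key (n - i)
  rw [show i + (n - i) = n by omega] at h1
  linarith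

/-- The heights tend to infinity. -/
theorem exists_height_ge {K : Type} [Field K] [NumberField K] [Algebra K ℂ] {d : ℕ} (hd : 2 ≤ d)
    {F : Fin 3 → MvPolynomial (Fin 3) K} (hF : ∀ i, (F i).IsHomogeneous d)
    (hnz : ∀ x : Fin 3 → ℂ, (∀ i, aeval x (F i) = 0) → x = 0) {x : Fin 3 → K} (hx : x ≠ 0)
    (hdist : ∀ n n', n ≠ n' → cr (iter F x n) (iter F x n') ≠ 0) (A : ℝ) (n₀ : ℕ) :
    ∃ i, n₀ ≤ i ∧ A ≤ logHeight (iter F x i) := by
  rcases Pool.Agent.Helper36.growth (L := ℂ) hd F hF hnz (fun n => iter F x n)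
    (fun n => iter_ne_zeroL hd hF hnz hx n) (fun n => Pool.Agent.Helper36.iter_succ F x n) with
    ⟨n, m, hnm, c, -, hc⟩ | ⟨m₀, hm₀⟩
  · exfalso
    refine hdist n m hnm.ne ?_
    funext q
    have h1 : ∀ a, iter F x m a = c * iter F x n a := fun a => congrFun hc a
    unfold cr
    rw [h1, h1, Pi.zero_apply]
    ring
  · obtain ⟨k, hk⟩ := exists_nat_ge A
    refine ⟨max n₀ (m₀ + k), le_max_left _ _, ?_⟩
    have h1 := hm₀ (max n₀ (m₀ + k)) (by omega)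
    have h2 : k < 2 ^ (max n₀ (m₀ + k) - m₀) :=
      lt_of_lt_of_le Nat.lt_two_pow_self (Nat.pow_le_pow_right (by norm_num) (by omega))
    have h3 : (k : ℝ) < (2 : ℝ) ^ (max n₀ (m₀ + k) - m₀) := by exact_mod_cast h2
    have h4 : (2 : ℝ) ^ (max n₀ (m₀ + k) - m₀) ≤ (d : ℝ) ^ (max n₀ (m₀ + k) - m₀) :=
      pow_le_pow_left₀ (by norm_num) (by exact_mod_cast hd) _
    linarith

theorem exists_not_nil {K : Type} [Field K] [NumberField K] [Algebra K ℂ] {d : ℕ} (hd : 2 ≤ d)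
    {F : Fin 3 → MvPolynomial (Fin 3) K} (hF : ∀ i, (F i).IsHomogeneous d)
    (hnz : ∀ x : Fin 3 → ℂ, (∀ i, aeval x (F i) = 0) → x = 0) {x : Fin 3 → K} (hx : x ≠ 0)
    (hdist : ∀ n n', n ≠ n' → cr (iter F x n) (iter F x n') ≠ 0)
    {g : MvPolynomial (Fin 3) K} {D : ℕ} (hg : g.IsHomogeneous D) (hirr : Irreducible g)
    (hnd : ∀ l, 0 < l → ¬ g ∣ aeval (itp F l) g)
    (hinf : {n | eval (iter F x n) g = 0}.Infinite) {B : Set (AbsoluteValue K ℝ)}
    (hB : B.Finite) (n₀ : ℕ) :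
    ∃ v ∈ nonarchAbsVal (K := K), v ∉ B ∧ ∃ i n, n₀ ≤ i ∧ i < n ∧
      eval (iter F x i) g = 0 ∧ eval (iter F x n) g = 0 ∧
      0 < ct v (iter F x i) (iter F x n) ∧
      ∃ c : K, nm v (c • iter F x i) = 1 ∧ ¬ Nil v F (c • iter F x i) (n - i) := by
  classical
  by_contra hcon
  have hnil : ∀ v ∈ nonarchAbsVal (K := K), v ∉ B → ∀ i n, n₀ ≤ i → i < n →
      eval (iter F x i) g = 0 → eval (iter F x n) g = 0 →
      0 < ct v (iter F x i) (iter F x n) → ∀ c : K, nm v (c • iter F x i) = 1 →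
      Nil v F (c • iter F x i) (n - i) := by
    intro v hv hvB i n h1 h2 h3 h4 h5 c hc
    by_contra h6
    exact hcon ⟨v, hv, hvB, i, n, h1, h2, h3, h4, h5, c, hc, h6⟩
  have hd2 : (2 : ℝ) ≤ d := by exact_mod_cast hd
  have hdK : (d : K) ≠ 0 := by
    exact_mod_cast (by omega : d ≠ 0)
  -- the bad places
  obtain ⟨B₁, hB₁, hB₁'⟩ := (FS_log (K := K) hdK).exists_finite
  set B' : Set (AbsoluteValue K ℝ) := B ∪ B₁ ∪
    {v : AbsoluteValue K ℝ | v ∈ nonarchAbsVal (K := K) ∧ ¬ Good v d F} ∪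
    {v : AbsoluteValue K ℝ | v ∈ nonarchAbsVal (K := K) ∧ ¬ CoeffInt v g} with hB'
  have hB'f : B'.Finite := ((hB.union hB₁).union (finite_not_good hF hnz)).union
    (finite_not_coeffInt g)
  have hgood : ∀ v ∈ nonarchAbsVal (K := K), v ∉ B' →
      v ∉ B ∧ Good v d F ∧ v (d : K) = 1 ∧ CoeffInt v g := by
    intro v hv hvB
    simp only [hB', Set.mem_union, not_or] at hvB
    obtain ⟨⟨⟨h1, h2⟩, h3⟩, h4⟩ := hvB
    refine ⟨h1, ?_, ?_, ?_⟩
    · by_contra h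
      exact h3 ⟨hv, h⟩
    · have h5 := hB₁' v hv h2
      exact Real.eq_one_of_pos_of_log_eq_zero (v.pos hdK) h5
    · by_contra h
      exact h4 ⟨hv, h⟩
  obtain ⟨C₆, hC₆, hup⟩ := upper hd hF hnz hx hdist hg hirr hnd hinf
  obtain ⟨G, hG⟩ := lower (y := fun n => iter F x n) (fun n => iter_ne_zeroL hd hF hnz hx n)
    hdist hg hirr hinf hB'f
  obtain ⟨C₈, hC₈⟩ := logHeight_lower hd hF hnz x
  obtain ⟨i₀, hi₀n, hi₀⟩ := exists_height_ge hd hF hnz hx hdist (C₈ + G * C₆ + 1) n₀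
  obtain ⟨Γ, C, n₁, hcard, hΓ, hlow⟩ := hG i₀
  have h5 : ∀ i, ∃ C₅ : ℝ, 0 ≤ C₅ ∧ (i ∈ Γ → ∀ n, i < n →
      ∀ T : Finset (AbsoluteValue K ℝ),
      (∀ v ∈ T, v ∈ nonarchAbsVal (K := K) ∧ Good v d F ∧ v (d : K) = 1 ∧ CoeffInt v g ∧
        (0 < ct v (iter F x i) (iter F x n) →
          ∀ c : K, nm v (c • iter F x i) = 1 → Nil v F (c • iter F x i) (n - i))) →
      ∑ v ∈ T, ct v (iter F x i) (iter F x n) ≤ C₆ * (d : ℝ) ^ (n - i) + C₅) := by
    intro i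
    by_cases hi : i ∈ Γ
    · obtain ⟨C₅, h1, h2⟩ := hup i (hΓ i hi).2
      exact ⟨C₅, h1, fun _ => h2⟩
    · exact ⟨0, le_rfl, fun h1 => absurd h1 hi⟩
  choose C₅ hC₅ h5 using h5
  -- a large return time
  set C' : ℝ := ∑ i ∈ Γ, C₅ i + |C| + 1 with hC'
  have hC'0 : 0 ≤ C' := by
    have h1 : 0 ≤ ∑ i ∈ Γ, C₅ i := Finset.sum_nonneg fun i _ => hC₅ i
    have := abs_nonneg C
    linarith
  obtain ⟨k, hk⟩ := exists_nat_ge C'
  obtain ⟨n, hn, hgt⟩ := hinf.exists_gt (n₁ + Γ.sup id + i₀ + k)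
  have hn0 : eval (iter F x n) g = 0 := hn
  have hΓn : ∀ i ∈ Γ, i < n := fun i hi => by
    have : i ≤ Γ.sup id := Finset.le_sup (f := id) hi
    omega
  obtain ⟨T, hT, hlo⟩ := hlow n (by omega) hn0
  have h7 : ∀ i ∈ Γ, ∑ v ∈ T, ct v (iter F x i) (iter F x n) ≤
      C₆ * (d : ℝ) ^ (n - i₀) + C₅ i := by
    intro i hi
    have h8 := h5 i hi n (hΓn i hi) T (by
      intro v hv
      obtain ⟨h1, h2⟩ := hT v hv
      obtain ⟨h3, h4, h5, h6⟩ := hgood v h1 h2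
      exact ⟨h1, h4, h5, h6, hnil v h1 h3 i n (hi₀n.trans (hΓ i hi).1) (hΓn i hi)
        (hΓ i hi).2 hn0⟩)
    have h9 : (d : ℝ) ^ (n - i) ≤ (d : ℝ) ^ (n - i₀) := by
      refine pow_le_pow_right₀ (by linarith) ?_
      have := (hΓ i hi).1
      omega
    have h10 := mul_le_mul_of_nonneg_left h9 hC₆
    linarith
  have h8 : ∑ i ∈ Γ, ∑ v ∈ T, ct v (iter F x i) (iter F x n) ≤
      G * C₆ * (d : ℝ) ^ (n - i₀) + ∑ i ∈ Γ, C₅ i := by
    refine (Finset.sum_le_sum h7).trans ?_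
    rw [Finset.sum_add_distrib, Finset.sum_const, nsmul_eq_mul]
    have h9 : (Γ.card : ℝ) ≤ G := by exact_mod_cast hcard
    have h10 : 0 ≤ C₆ * (d : ℝ) ^ (n - i₀) := by positivity
    have h11 := mul_le_mul_of_nonneg_right h9 h10
    linarith
  have h9 := hC₈ i₀ n (by omega)
  have h10 : (0 : ℝ) ≤ (d : ℝ) ^ (n - i₀) := by positivity
  have h11 : (d : ℝ) ^ (n - i₀) * (G * C₆ + 1) ≤
      (d : ℝ) ^ (n - i₀) * (logHeight (iter F x i₀) - C₈) :=
    mul_le_mul_of_nonneg_left (by linarith) h10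
  have h12 : C ≤ |C| := le_abs_self C
  have h13 : (d : ℝ) ^ (n - i₀) ≤ C' := by
    have h14 : (d : ℝ) ^ (n - i₀) * (G * C₆ + 1) =
        G * C₆ * (d : ℝ) ^ (n - i₀) + (d : ℝ) ^ (n - i₀) := by ring
    have h15 : logHeight (iter F x n) ≤
        ∑ i ∈ Γ, ∑ v ∈ T, ct v (iter F x i) (iter F x n) + C := hlo
    linarith
  have h14 : (k : ℝ) < (d : ℝ) ^ (n - i₀) := by
    have h15 : k < n - i₀ := by omega
    have h16 : n - i₀ < 2 ^ (n - i₀) := Nat.lt_two_pow_self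
    have h17 : ((2 ^ (n - i₀) : ℕ) : ℝ) ≤ (d : ℝ) ^ (n - i₀) := by
      push_cast
      exact pow_le_pow_left₀ (by norm_num) hd2 _
    have h18 : (k : ℝ) < ((2 ^ (n - i₀) : ℕ) : ℝ) := by exact_mod_cast h15.trans h16
    linarith
  linarith

end Pool.Agent.Helper45.TG2
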