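import Pool.Agent.Helper45.TG2.Base
import Pool.Agent.Helper89.TC.FinB

/-!
# Project TG2 (A): the common points of two curves
-/

set_option autoImplicit false

namespace Pool.Agent.Helper45.TG2

open MvPolynomial Height AdmissibleAbsValues
open Pool.Agent.Helper29.TG
open Pool.Agent.Helper36 (step iter)
open Pool.Agent.Helper33.SS (jprod itp)

theorem exists_fp {K : Type} [Field K] {g g' : MvPolynomial (Fin 3) K} {a b : ℕ}
    (hg : g.IsHomogeneous a) (hg' : g'.IsHomogeneous b) (hirr : Irreducible g)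
    (hnd : ¬ g ∣ g') :
    ∃ (s : ℕ) (A : Fin s → FP K), ∑ j, Module.finrank K (A j).L ≤ 3 * (a * b) ∧
      ∀ (E : Type) [Field E] [Algebra K E] (u : Fin 3 → E), u ≠ 0 → aeval u g = 0 →
        aeval u g' = 0 →
        ∃ (j : Fin s) (σ : (A j).L →ₐ[K] E) (c : E), c ≠ 0 ∧
          u = fun i => c * σ ((A j).y i) := by
  obtain ⟨s, A, h1, h2⟩ := Pool.Agent.Helper89.TC.exists_points (k := K) (K := K) hg hg' hirr hnd
  exact ⟨s, fun j => ⟨(A j).L, (A j).y, (A j).ne⟩, h1, h2⟩

end Pool.Agent.Helper45.TG2
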