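import Pool.Agent.Helper45.TG2.Contr

/-!
# Project TG2 (A): the normalised sequence
-/

set_option autoImplicit false

namespace Pool.Agent.Helper45.TG2

open MvPolynomial Height AdmissibleAbsValues
open Pool.Agent.Helper29.TG
open Pool.Agent.Helper36 (step iter)
open Pool.Agent.Helper33.SS (jprod itp)

variable {K : Type} [Field K] {v : AbsoluteValue K ℝ} {d : ℕ} {F : Fin 3 → MvPolynomial (Fin 3) K}

theorem exists_seq (hb : Good v d F) (hd0 : 1 ≤ d) (hd : v (d : K) = 1) {x : Fin 3 → K}
    (hx : ∀ n, iter F x n ≠ 0) {i N : ℕ} (hne : cr (iter F x i) (iter F x (i + N)) ≠ 0)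
    (hnil : ∀ c : K, nm v (c • iter F x i) = 1 → Nil v F (c • iter F x i) N)
    (hct : 0 < ct v (iter F x i) (iter F x (i + N))) :
    ∃ (p : Fin 3) (u : ℕ → Fin 3 → K),
      NSeq v F x i N (Real.exp (-ct v (iter F x i) (iter F x (i + N)))) p u := by
  classical
  obtain ⟨p, hp0, hpA⟩ := exists_nm_eq v (hx i)
  have hadd : iter F x (i + N) = iter F (iter F x i) N := by
    rw [add_comm]
    exact Pool.Agent.Helper36.iter_add F x N i
  have hA : 0 < nm v (iter F x i) := nm_pos v (hx i)
  have hB : 0 < nm v (iter F x (i + N)) := nm_pos v (hx (i + N))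
  have hC : 0 < nm v (cr (iter F x i) (iter F x (i + N))) := nm_pos v hne
  set A := nm v (iter F x i) with hAdef
  set B := nm v (iter F x (i + N)) with hBdef
  set C := nm v (cr (iter F x i) (iter F x (i + N))) with hCdef
  set ε := Real.exp (-ct v (iter F x i) (iter F x (i + N))) with hε
  have hε0 : 0 ≤ ε := (Real.exp_pos _).le
  have hε1 : ε < 1 := by
    rw [hε, Real.exp_lt_one_iff]
    linarith
  have hεC : ε * (A * B) = C := by
    have h1 : ε = C * (A * B)⁻¹ := by
      rw [hε]
      unfold ct
      rw [← hAdef, ← hBdef, ← hCdef, neg_sub, Real.exp_sub, Real.exp_log hC, Real.exp_add,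
        Real.exp_log hA, Real.exp_log hB, div_eq_mul_inv]
    rw [h1, inv_mul_cancel_right₀ (mul_pos hA hB).ne']
  have hCAB : C < A * B := by
    rw [← hεC]
    exact mul_lt_of_lt_one_left (mul_pos hA hB) hε1
  have hcr : ∀ a, v (iter F x i p * iter F x (i + N) a - iter F x i a * iter F x (i + N) p) ≤ C :=
    fun a => le_nm v (cr (iter F x i) (iter F x (i + N))) (p, a)
  -- the coordinate `p` of `x_(i+N)` is maximal
  have hpB : v (iter F x (i + N) p) = B := by
    obtain ⟨a, ha0, haB⟩ := exists_nm_eq v (hx (i + N))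
    refine le_antisymm (le_nm v _ p) ?_
    by_contra hlt
    push Not at hlt
    have h1 : v (iter F x i p * iter F x (i + N) a) = A * B := by
      rw [map_mul, ← hpA, ← haB]
    have h2 : v (iter F x i a * iter F x (i + N) p) < A * B := by
      rw [map_mul]
      calc v (iter F x i a) * v (iter F x (i + N) p) ≤ A * v (iter F x (i + N) p) :=
            mul_le_mul_of_nonneg_right (le_nm v _ a) (v.nonneg _)
        _ < A * B := mul_lt_mul_of_pos_left hlt hA
    have h3 : iter F x i p * iter F x (i + N) a =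
        (iter F x i p * iter F x (i + N) a - iter F x i a * iter F x (i + N) p) +
          iter F x i a * iter F x (i + N) p := by ring
    have h4 := hb.na (iter F x i p * iter F x (i + N) a - iter F x i a * iter F x (i + N) p)
      (iter F x i a * iter F x (i + N) p)
    rw [← h3, h1] at h4
    exact absurd h4 (not_le.2 (max_lt ((hcr a).trans_lt hCAB) h2))
  -- the first vector
  set c : K := (iter F x i p)⁻¹ with hc
  have hc0 : c ≠ 0 := inv_ne_zero hp0
  have hvc : v c = A⁻¹ := by
    rw [hc, map_inv₀, ← hpA]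
  set u₀ : Fin 3 → K := c • iter F x i with hu₀
  have hu₀p : u₀ p = 1 := by
    rw [hu₀, Pi.smul_apply, smul_eq_mul, hc, inv_mul_cancel₀ hp0]
  have hnm0 : nm v u₀ = 1 := by
    rw [hu₀, nm_smul, hvc, ← hAdef, inv_mul_cancel₀ hA.ne']
  have hint : ∀ a, v (u₀ a) ≤ 1 := fun a => by
    rw [← hnm0]
    exact le_nm v u₀ a
  have hu₀0 : u₀ ≠ 0 := smul_ne_zero hc0 (hx i)
  have hit0 : iter F u₀ N = c ^ d ^ N • iter F x (i + N) := by
    rw [hadd, hu₀]
    exact iter_smulL hb.hom c (iter F x i) N
  have hBA : B = A ^ d ^ N := by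
    have h1 := Good.nm_iter hb hd0 (hx i) N
    rw [← hadd] at h1
    exact h1
  have hγ : v (iter F u₀ N p) = 1 := by
    rw [hit0, Pi.smul_apply, smul_eq_mul, map_mul, map_pow, hvc, hpB, hBA, inv_pow,
      inv_mul_cancel₀ (pow_pos hA _).ne']
  have hp1 : iter F x (i + N) p ≠ 0 := by
    intro h
    rw [h, map_zero] at hpB
    exact hB.ne hpB
  have hclose : ∀ a, v (Tm F N p u₀ a - u₀ a) ≤ ε := by
    intro a
    have h1 : Tm F N p u₀ a - u₀ a =
        (iter F x i p * iter F x (i + N) a - iter F x i a * iter F x (i + N) p) *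
          (iter F x i p * iter F x (i + N) p)⁻¹ := by
      show iter F u₀ N a / iter F u₀ N p - u₀ a = _
      rw [hit0]
      simp only [hu₀, Pi.smul_apply, smul_eq_mul]
      rw [mul_div_mul_left _ _ (pow_ne_zero _ hc0), hc]
      field_simp
    rw [h1, map_mul, map_inv₀, map_mul, ← hpA, hpB]
    rw [← div_eq_mul_inv, div_le_iff₀ (mul_pos hA hB), hεC]
    exact hcr a
  obtain ⟨h1, h2, θ, hθ0, hθ1, h3⟩ := contr hb hd hu₀p hint hε0 hε1 hγ hclose (hnil c hnm0)
  -- the sequence
  set w : ℕ → Fin 3 → K := fun j => (Tm F N p)^[j] u₀ with hw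
  have hw0 : w 0 = u₀ := rfl
  have hws : ∀ j, w (j + 1) = Tm F N p (w j) := fun j => Function.iterate_succ_apply' _ _ _
  have hw3 : ∀ j, w (j + 3) = (Tm F N p)^[3] (w j) := by
    intro j
    show (Tm F N p)^[j + 3] u₀ = (Tm F N p)^[3] ((Tm F N p)^[j] u₀)
    rw [← Function.iterate_add_apply, add_comm]
  have hD : ∀ j, w j ∈ Dsc v u₀ p ε := by
    intro j
    induction j with
    | zero =>
      refine ⟨hu₀p, fun a => ?_⟩
      rw [hw0, sub_self, map_zero]
      exact hε0
    | succ j ih =>
      rw [hws]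
      exact (h1 _ ih).2
  have hP : ∀ j, Pool.Agent.Helper36.PEq (iter F x (i + N * j)) (w j) := by
    intro j
    induction j with
    | zero => exact ⟨c, hc0, rfl⟩
    | succ j ih =>
      obtain ⟨e, he, h4⟩ := ih
      have h5 : iter F (w j) N = e ^ d ^ N • iter F x (i + N * (j + 1)) := by
        have h6 : iter F x (i + N * (j + 1)) = iter F (iter F x (i + N * j)) N := by
          rw [← Pool.Agent.Helper36.iter_add]
          congr 1
          ring
        rw [h6, h4]
        exact iter_smulL hb.hom e _ N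
      have h7 : iter F (w j) N p ≠ 0 := by
        intro h
        have h8 := (h1 _ (hD j)).1
        rw [h, map_zero] at h8
        exact zero_ne_one h8
      refine ⟨(iter F (w j) N p)⁻¹ * e ^ d ^ N, mul_ne_zero (inv_ne_zero h7) (pow_ne_zero _ he), ?_⟩
      rw [mul_smul, ← h5, hws]
      funext a
      show iter F (w j) N a / iter F (w j) N p = (iter F (w j) N p)⁻¹ * iter F (w j) N a
      rw [div_eq_inv_mul]
  have hstep : ∀ m r a, v (w (3 * m + r + 1) a - w (3 * m + r) a) ≤ θ ^ m * ε := by
    intro m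
    induction m with
    | zero =>
      intro r
      induction r with
      | zero =>
        intro a
        have h4 := hclose a
        rw [pow_zero, one_mul]
        exact h4
      | succ r ih =>
        intro a
        have h4 := h2 _ (hD (3 * 0 + r)) _ (hD (3 * 0 + r + 1)) _ (by positivity) ih a
        rw [← hws, ← hws] at h4
        exact h4
    | succ m ih =>
      intro r a
      have h4 := h3 _ (hD (3 * m + r)) _ (hD (3 * m + r + 1)) _ (by positivity) (ih r) a
      rw [← hw3, ← hw3] at h4
      have e1 : 3 * (m + 1) + r + 1 = 3 * m + r + 1 + 3 := by ring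
      have e2 : 3 * (m + 1) + r = 3 * m + r + 3 := by ring
      rw [e1, e2, pow_succ' θ m, mul_assoc]
      exact h4
  refine ⟨p, w, fun j => (hD j).1, fun j a => ?_, hP, fun j a => ?_, fun a => ?_⟩
  · have h4 : w j a = (w j a - u₀ a) + u₀ a := by ring
    rw [h4]
    exact (hb.na _ _).trans (max_le (((hD j).2 a).trans hε1.le) (hint a))
  · rw [hw0]
    exact (hD j).2 a
  · have h4 : Filter.Tendsto (fun j : ℕ => θ ^ (j / 3) * ε) Filter.atTop (nhds 0) := by
      have h5 := (tendsto_pow_atTop_nhds_zero_of_lt_one hθ0 hθ1).comp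
        (Nat.tendsto_div_const_atTop (show (3 : ℕ) ≠ 0 by norm_num))
      have h6 := h5.mul_const ε
      rw [zero_mul] at h6
      exact h6
    refine squeeze_zero (fun j => v.nonneg _) (fun j => ?_) h4
    have h5 := hstep (j / 3) (j % 3) a
    rw [Nat.div_add_mod] at h5
    exact h5

end Pool.Agent.Helper45.TG2
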