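import Pool.Agent.Helper45.TG2.Base

/-!
# Project TG2 (A): comparison of sums over finite places
-/

set_option autoImplicit false

namespace Pool.Agent.Helper45.TG2

open MvPolynomial Height AdmissibleAbsValues
open Pool.Agent.Helper29.TG
open Pool.Agent.Helper36 (step iter)
open Pool.Agent.Helper33.SS (jprod itp)

/-- two finite places which are powers of each other are equal -/
theorem place_eq_of_rpow {K : Type} [Field K] [NumberField K] {v v' : AbsoluteValue K ℝ}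
    (hv : v ∈ nonarchAbsVal (K := K)) (hv' : v' ∈ nonarchAbsVal (K := K)) {κ κ' : ℝ}
    (hκ : 0 < κ) (hκ' : 0 < κ') (h : ∀ a : K, v a ^ κ = v' a ^ κ') : v = v' := by
  have h0 : ∀ (w : AbsoluteValue K ℝ) {τ : ℝ}, 0 < τ → ∀ a : K, w a < 1 ↔ w a ^ τ < 1 := by
    intro w τ hτ a
    constructor
    · exact fun h3 => Real.rpow_lt_one (w.nonneg a) h3 hτ
    · intro h3
      by_contra h4
      exact absurd h3 (not_lt.2 (Real.one_le_rpow (not_lt.1 h4) hτ.le))
  have h1 : ∀ a : K, v a < 1 ↔ v' a < 1 := by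
    intro a
    rw [h0 v hκ a, h0 v' hκ' a, h a]
  obtain ⟨p, rfl⟩ := hv
  obtain ⟨p', rfl⟩ := hv'
  have h2 : p = p' := by
    refine IsDedekindDomain.HeightOneSpectrum.ext (Ideal.ext fun x => ?_)
    rw [← NumberField.FinitePlace.norm_lt_one_iff_mem (K := K) p x,
      ← NumberField.FinitePlace.norm_lt_one_iff_mem (K := K) p' x]
    exact h1 _
  rw [h2]

/-- Comparison of a sum over places of `K` and a sum over places of `L`. -/
theorem sum_le_finsum {K L : Type} [Field K] [NumberField K] [Field L] [NumberField L]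
    [Algebra K L] (T : Finset (AbsoluteValue K ℝ)) (hT : ∀ v ∈ T, v ∈ nonarchAbsVal (K := K))
    (ρ : AbsoluteValue K ℝ → ℝ) (vb : AbsoluteValue K ℝ → AbsoluteValue L ℝ)
    (hvb : ∀ v ∈ T, vb v ∈ nonarchAbsVal (K := L))
    (hext : ∀ v ∈ T, ∃ κ : ℝ, 1 ≤ κ ∧ ∀ a : K, vb v (algebraMap K L a) = v a ^ κ)
    (G : AbsoluteValue L ℝ → ℝ) (hG : ∀ V ∈ nonarchAbsVal (K := L), 0 ≤ G V) (hs : FS G)
    (hρ : ∀ v ∈ T, ρ v ≤ G (vb v)) :
    ∑ v ∈ T, ρ v ≤ ∑ᶠ V : nonarchAbsVal (K := L), G V.val := by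
  classical
  have hinj : ∀ v ∈ T, ∀ v' ∈ T, vb v = vb v' → v = v' := by
    intro v hv v' hv' h
    obtain ⟨κ, h1, h2⟩ := hext v hv
    obtain ⟨κ', h1', h2'⟩ := hext v' hv'
    refine place_eq_of_rpow (hT v hv) (hT v' hv') (zero_lt_one.trans_le h1)
      (zero_lt_one.trans_le h1') fun a => ?_
    rw [← h2, ← h2', h]
  have h1 : ∑ v ∈ T, ρ v ≤ ∑ V ∈ T.attach.image (fun v => (⟨vb v.1, hvb v.1 v.2⟩ :
      nonarchAbsVal (K := L))), G V.val := by
    rw [Finset.sum_image, ← Finset.sum_attach]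
    · exact Finset.sum_le_sum fun v _ => hρ v.1 v.2
    · intro v _ v' _ h
      exact Subtype.ext (hinj v.1 v.2 v'.1 v'.2 (congrArg Subtype.val h))
  refine h1.trans ?_
  rw [finsum_eq_sum_of_support_subset (s := hs.toFinset ∪ T.attach.image (fun v =>
      (⟨vb v.1, hvb v.1 v.2⟩ : nonarchAbsVal (K := L)))) _ (by
    intro V hV
    rw [Finset.mem_coe, Finset.mem_union]
    exact Or.inl (hs.mem_toFinset.2 hV))]
  exact Finset.sum_le_sum_of_subset_of_nonneg Finset.subset_union_right fun V _ _ => hG V.1 V.2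

end Pool.Agent.Helper45.TG2
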