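import Pool.Agent.Helper45.TG2.Defs

/-!
# Project TG2 (A): integral polynomials at integral points
-/

set_option autoImplicit false

namespace Pool.Agent.Helper45.TG2

open MvPolynomial Height AdmissibleAbsValues
open Pool.Agent.Helper29.TG
open Pool.Agent.Helper36 (step iter)
open Pool.Agent.Helper33.SS (jprod itp)

variable {K : Type} [Field K] {v : AbsoluteValue K ℝ}

section aux

theorem tay_sum_le (hv : IsNonarchimedean v) {ι : Type*} (s : Finset ι) (f : ι → K) {r : ℝ}
    (hr : 0 ≤ r) (h : ∀ i ∈ s, v (f i) ≤ r) : v (∑ i ∈ s, f i) ≤ r := by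
  classical
  induction s using Finset.induction_on with
  | empty => simpa using hr
  | insert a s ha ih =>
    rw [Finset.sum_insert ha]
    refine (hv _ _).trans (max_le (h a (Finset.mem_insert_self a s)) ?_)
    exact ih fun i hi => h i (Finset.mem_insert_of_mem hi)

/-- Induction for polynomials with integral coefficients. -/
theorem tay_induction {p : MvPolynomial (Fin 3) K → Prop} (hC : ∀ c, v c ≤ 1 → p (C c))
    (hX : ∀ i, p (X i)) (hadd : ∀ P Q, p P → p Q → p (P + Q))
    (hmul : ∀ P Q, p P → p Q → p (P * Q)) {P : MvPolynomial (Fin 3) K} (hP : CoeffInt v P) :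
    p P := by
  classical
  have h0 : p 0 := by
    have := hC 0 (by rw [map_zero]; exact zero_le_one)
    rwa [C_0] at this
  have h1 : p 1 := by
    have := hC 1 (by rw [map_one])
    rwa [C_1] at this
  rw [← support_sum_monomial_coeff P]
  refine Finset.sum_induction _ p hadd h0 fun m _ => ?_
  rw [monomial_eq]
  refine hmul _ _ (hC _ (hP m)) ?_
  refine Finset.prod_induction _ p hmul h1 fun i _ => ?_
  change p (X i ^ (m i))
  induction (m i) with
  | zero => rwa [pow_zero]
  | succ n ih => rw [pow_succ]; exact hmul _ _ ih (hX i)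

theorem tay_C {c : K} (hc : v c ≤ 1) : CoeffInt v (C c : MvPolynomial (Fin 3) K) := by
  intro m
  rw [coeff_C]
  split_ifs
  · exact hc
  · rw [map_zero]; exact zero_le_one

theorem tay_X (i : Fin 3) : CoeffInt v (X i : MvPolynomial (Fin 3) K) := by
  intro m
  rw [coeff_X]
  split_ifs
  · rw [map_one]
  · rw [map_zero]; exact zero_le_one

theorem tay_add (hv : IsNonarchimedean v) {P Q : MvPolynomial (Fin 3) K} (hP : CoeffInt v P)
    (hQ : CoeffInt v Q) : CoeffInt v (P + Q) := by
  intro m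
  rw [coeff_add]
  exact (hv _ _).trans (max_le (hP m) (hQ m))

theorem tay_mul (hv : IsNonarchimedean v) {P Q : MvPolynomial (Fin 3) K} (hP : CoeffInt v P)
    (hQ : CoeffInt v Q) : CoeffInt v (P * Q) := by
  classical
  intro m
  rw [coeff_mul]
  refine tay_sum_le hv _ _ zero_le_one fun q _ => ?_
  rw [map_mul]
  exact mul_le_one₀ (hP _) (v.nonneg _) (hQ _)

theorem tay_aeval (hv : IsNonarchimedean v) {g : Fin 3 → MvPolynomial (Fin 3) K}
    (hg : ∀ i, CoeffInt v (g i)) {P : MvPolynomial (Fin 3) K} (hP : CoeffInt v P) :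
    CoeffInt v (aeval g P) := by
  refine tay_induction (v := v) (p := fun P => CoeffInt v (aeval g P)) ?_ ?_ ?_ ?_ hP
  · intro c hc
    rw [aeval_C]
    exact tay_C hc
  · intro i
    rw [aeval_X]
    exact hg i
  · intro P Q hP hQ
    rw [map_add]
    exact tay_add hv hP hQ
  · intro P Q hP hQ
    rw [map_mul]
    exact tay_mul hv hP hQ

theorem tay_add_le (hv : IsNonarchimedean v) {a b : K} {r : ℝ} (ha : v a ≤ r) (hb : v b ≤ r) :
    v (a + b) ≤ r :=
  (hv a b).trans (max_le ha hb)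

end aux

theorem val_eval_le (hv : IsNonarchimedean v) {P : MvPolynomial (Fin 3) K} (hP : CoeffInt v P)
    {u : Fin 3 → K} (hu : ∀ a, v (u a) ≤ 1) : v (eval u P) ≤ 1 := by
  refine tay_induction (v := v) (p := fun P => v (eval u P) ≤ 1) ?_ ?_ ?_ ?_ hP
  · intro c hc
    rwa [eval_C]
  · intro i
    rw [eval_X]
    exact hu i
  · intro P Q hP hQ
    rw [map_add]
    exact tay_add_le hv hP hQ
  · intro P Q hP hQ
    rw [map_mul, map_mul]
    exact mul_le_one₀ hP (v.nonneg _) hQ

/-- Integral polynomials are Lipschitz on integral points. -/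
theorem val_eval_sub_le (hv : IsNonarchimedean v) {P : MvPolynomial (Fin 3) K}
    (hP : CoeffInt v P) {u u' : Fin 3 → K} (hu : ∀ a, v (u a) ≤ 1) (hu' : ∀ a, v (u' a) ≤ 1)
    {ε : ℝ} (hε : 0 ≤ ε) (hd : ∀ a, v (u' a - u a) ≤ ε) : v (eval u' P - eval u P) ≤ ε := by
  have key := tay_induction (v := v)
    (p := fun P => v (eval u P) ≤ 1 ∧ v (eval u' P) ≤ 1 ∧ v (eval u' P - eval u P) ≤ ε)
    ?_ ?_ ?_ ?_ hP
  · exact key.2.2
  · intro c hc
    simp only [eval_C, sub_self, map_zero]
    exact ⟨hc, hc, hε⟩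
  · intro i
    simp only [eval_X]
    exact ⟨hu i, hu' i, hd i⟩
  · rintro P Q ⟨h1, h2, h3⟩ ⟨h4, h5, h6⟩
    simp only [map_add]
    refine ⟨tay_add_le hv h1 h4, tay_add_le hv h2 h5, ?_⟩
    have e : eval u' P + eval u' Q - (eval u P + eval u Q) =
        (eval u' P - eval u P) + (eval u' Q - eval u Q) := by ring
    rw [e]
    exact tay_add_le hv h3 h6
  · rintro P Q ⟨h1, h2, h3⟩ ⟨h4, h5, h6⟩
    simp only [map_mul]
    refine ⟨mul_le_one₀ h1 (v.nonneg _) h4, mul_le_one₀ h2 (v.nonneg _) h5, ?_⟩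
    have e : eval u' P * eval u' Q - eval u P * eval u Q =
        (eval u' P - eval u P) * eval u' Q + eval u P * (eval u' Q - eval u Q) := by ring
    rw [e]
    refine tay_add_le hv ?_ ?_
    · rw [map_mul]
      exact (mul_le_mul h3 h5 (v.nonneg _) hε).trans (mul_one ε).le
    · rw [map_mul]
      exact (mul_le_mul h1 h6 (v.nonneg _) zero_le_one).trans (one_mul ε).le

theorem coeffInt_pderiv (hv : IsNonarchimedean v) {P : MvPolynomial (Fin 3) K}
    (hP : CoeffInt v P) (j : Fin 3) : CoeffInt v (pderiv j P) := by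
  have h0 : CoeffInt v (0 : MvPolynomial (Fin 3) K) := by
    intro m
    rw [coeff_zero, map_zero]
    exact zero_le_one
  have key := tay_induction (v := v)
    (p := fun P => CoeffInt v P ∧ CoeffInt v (pderiv j P)) ?_ ?_ ?_ ?_ hP
  · exact key.2
  · intro c hc
    rw [pderiv_C]
    exact ⟨tay_C hc, h0⟩
  · intro i
    refine ⟨tay_X i, ?_⟩
    by_cases hij : i = j
    · subst hij
      rw [pderiv_X_self]
      have := tay_C (v := v) (c := (1 : K)) (by rw [map_one])
      rwa [C_1] at this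
    · rw [pderiv_X_of_ne hij]
      exact h0
  · rintro P Q ⟨h1, h2⟩ ⟨h3, h4⟩
    rw [map_add]
    exact ⟨tay_add hv h1 h3, tay_add hv h2 h4⟩
  · rintro P Q ⟨h1, h2⟩ ⟨h3, h4⟩
    rw [pderiv_mul]
    exact ⟨tay_mul hv h1 h3, tay_add hv (tay_mul hv h2 h3) (tay_mul hv h1 h4)⟩

/-- Taylor expansion to the second order. -/
theorem val_taylor_le (hv : IsNonarchimedean v) {P : MvPolynomial (Fin 3) K}
    (hP : CoeffInt v P) {u u' : Fin 3 → K} (hu : ∀ a, v (u a) ≤ 1) (hu' : ∀ a, v (u' a) ≤ 1)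
    {ε : ℝ} (hε : 0 ≤ ε) (hd : ∀ a, v (u' a - u a) ≤ ε) :
    v (eval u' P - eval u P - ∑ j, eval u (pderiv j P) * (u' j - u j)) ≤ ε ^ 2 := by
  have hε2 : 0 ≤ ε ^ 2 := by positivity
  have hA : ∀ P : MvPolynomial (Fin 3) K, CoeffInt v P →
      v (∑ j, eval u (pderiv j P) * (u' j - u j)) ≤ ε := by
    intro P hP
    refine tay_sum_le hv _ _ hε fun j _ => ?_
    rw [map_mul]
    exact (mul_le_mul (val_eval_le hv (coeffInt_pderiv hv hP j) hu) (hd j) (v.nonneg _)
      zero_le_one).trans (one_mul ε).le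
  have key := tay_induction (v := v)
    (p := fun P => CoeffInt v P ∧
      v (eval u' P - eval u P - ∑ j, eval u (pderiv j P) * (u' j - u j)) ≤ ε ^ 2)
    ?_ ?_ ?_ ?_ hP
  · exact key.2
  · intro c hc
    refine ⟨tay_C hc, ?_⟩
    simp only [eval_C, sub_self, pderiv_C, map_zero, zero_mul, Finset.sum_const_zero]
    exact hε2
  · intro i
    refine ⟨tay_X i, ?_⟩
    have h1 : ∑ j, eval u (pderiv j (X i : MvPolynomial (Fin 3) K)) * (u' j - u j) =
        u' i - u i := by
      rw [Finset.sum_eq_single i]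
      · rw [pderiv_X_self, map_one, one_mul]
      · intro j _ hj
        rw [pderiv_X_of_ne (Ne.symm hj), map_zero, zero_mul]
      · intro h
        exact absurd (Finset.mem_univ i) h
    rw [h1, eval_X, eval_X, sub_self, map_zero]
    exact hε2
  · rintro P Q ⟨h1, h2⟩ ⟨h3, h4⟩
    refine ⟨tay_add hv h1 h3, ?_⟩
    have e : eval u' (P + Q) - eval u (P + Q) -
          ∑ j, eval u (pderiv j (P + Q)) * (u' j - u j) =
        (eval u' P - eval u P - ∑ j, eval u (pderiv j P) * (u' j - u j)) +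
        (eval u' Q - eval u Q - ∑ j, eval u (pderiv j Q) * (u' j - u j)) := by
      simp only [map_add, add_mul, Finset.sum_add_distrib]
      ring
    rw [e]
    exact tay_add_le hv h2 h4
  · rintro P Q ⟨h1, h2⟩ ⟨h3, h4⟩
    refine ⟨tay_mul hv h1 h3, ?_⟩
    have e0 : ∑ j, eval u (pderiv j (P * Q)) * (u' j - u j) =
        (∑ j, eval u (pderiv j P) * (u' j - u j)) * eval u Q +
        eval u P * ∑ j, eval u (pderiv j Q) * (u' j - u j) := by
      rw [Finset.sum_mul, Finset.mul_sum, ← Finset.sum_add_distrib]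
      refine Finset.sum_congr rfl fun j _ => ?_
      rw [pderiv_mul, map_add, map_mul, map_mul]
      ring
    have e : eval u' (P * Q) - eval u (P * Q) -
          ∑ j, eval u (pderiv j (P * Q)) * (u' j - u j) =
        (eval u' P - eval u P - ∑ j, eval u (pderiv j P) * (u' j - u j)) * eval u' Q +
        (eval u P * (eval u' Q - eval u Q - ∑ j, eval u (pderiv j Q) * (u' j - u j)) +
        (∑ j, eval u (pderiv j P) * (u' j - u j)) * (eval u' Q - eval u Q)) := by
      rw [e0, map_mul, map_mul]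
      ring
    rw [e]
    refine tay_add_le hv ?_ (tay_add_le hv ?_ ?_)
    · rw [map_mul]
      exact (mul_le_mul h2 (val_eval_le hv h3 hu') (v.nonneg _) hε2).trans (mul_one _).le
    · rw [map_mul]
      exact (mul_le_mul (val_eval_le hv h1 hu) h4 (v.nonneg _) zero_le_one).trans (one_mul _).le
    · rw [map_mul, pow_two]
      exact mul_le_mul (hA P h1) (val_eval_sub_le hv h3 hu hu' hε hd) (v.nonneg _) hε

/-- the polynomials which define the iterates have integral coefficients -/
theorem coeffInt_itp (hv : IsNonarchimedean v) {F : Fin 3 → MvPolynomial (Fin 3) K}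
    (hF : ∀ i, CoeffInt v (F i)) (N : ℕ) (i : Fin 3) : CoeffInt v (itp F N i) := by
  induction N generalizing i with
  | zero => exact tay_X i
  | succ N ih => exact tay_aeval hv ih (hF i)

theorem tay_jprod (F : Fin 3 → MvPolynomial (Fin 3) K) (u : Fin 3 → K) (N : ℕ) (r s : Fin 3) :
    jprod F u N r s = eval u (pderiv s (itp F N r)) := by
  rw [← Pool.Agent.Helper33.SS.jac_itp]
  rfl

theorem tay_iter (F : Fin 3 → MvPolynomial (Fin 3) K) (u : Fin 3 → K) (N : ℕ) (r : Fin 3) :
    iter F u N r = eval u (itp F N r) := by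
  have h1 : step (A := K) F = Pool.Agent.Helper33.SS.ev F := by
    funext x i
    exact congrArg (fun φ => φ (F i)) (MvPolynomial.coe_aeval_eq_eval x)
  have h2 := Pool.Agent.Helper33.SS.ev_itp F N u
  have h3 : iter F u N = (Pool.Agent.Helper33.SS.ev F)^[N] u := by
    rw [← h1]
    rfl
  rw [h3, ← h2]
  rfl

/-- the derivative of the iterate at integral points -/
theorem val_jprod_le (hv : IsNonarchimedean v) {F : Fin 3 → MvPolynomial (Fin 3) K}
    (hF : ∀ i, CoeffInt v (F i)) {u : Fin 3 → K} (hu : ∀ a, v (u a) ≤ 1) (N : ℕ) (r s : Fin 3) :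
    v (jprod F u N r s) ≤ 1 := by
  rw [tay_jprod]
  exact val_eval_le hv (coeffInt_pderiv hv (coeffInt_itp hv hF N r) s) hu

/-- the derivative of the iterate at integral points is Lipschitz -/
theorem val_jprod_sub_le (hv : IsNonarchimedean v) {F : Fin 3 → MvPolynomial (Fin 3) K}
    (hF : ∀ i, CoeffInt v (F i)) {u u' : Fin 3 → K} (hu : ∀ a, v (u a) ≤ 1)
    (hu' : ∀ a, v (u' a) ≤ 1) {ε : ℝ} (hε : 0 ≤ ε) (hd : ∀ a, v (u' a - u a) ≤ ε)
    (N : ℕ) (r s : Fin 3) : v (jprod F u' N r s - jprod F u N r s) ≤ ε := by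
  rw [tay_jprod, tay_jprod]
  exact val_eval_sub_le hv (coeffInt_pderiv hv (coeffInt_itp hv hF N r) s) hu hu' hε hd

/-- Expansion of the iterate to the second order. -/
theorem val_iter_taylor_le (hv : IsNonarchimedean v) {F : Fin 3 → MvPolynomial (Fin 3) K}
    (hF : ∀ i, CoeffInt v (F i)) {u u' : Fin 3 → K} (hu : ∀ a, v (u a) ≤ 1)
    (hu' : ∀ a, v (u' a) ≤ 1) {ε : ℝ} (hε : 0 ≤ ε) (hd : ∀ a, v (u' a - u a) ≤ ε)
    (N : ℕ) (r : Fin 3) :
    v (iter F u' N r - iter F u N r - ∑ s, jprod F u N r s * (u' s - u s)) ≤ ε ^ 2 := by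
  have h := val_taylor_le hv (coeffInt_itp hv hF N r) hu hu' hε hd
  rw [tay_iter, tay_iter]
  simp only [tay_jprod]
  exact h

end Pool.Agent.Helper45.TG2
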