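import Pool.Agent.Helper45.TG2.Loc
import Pool.Agent.Helper45.TG2.Descend
import Pool.Agent.Helper45.TG2.Pts
import Pool.Agent.Helper45.TG2.Sum

/-!
# Project TG2 (A): the upper bound for the contacts, second part
-/

set_option autoImplicit false

namespace Pool.Agent.Helper45.TG2

open MvPolynomial Height AdmissibleAbsValues
open Pool.Agent.Helper29.TG
open Pool.Agent.Helper36 (step iter)
open Pool.Agent.Helper33.SS (jprod itp)

section

variable {K : Type} [Field K]

/-- Vectors with vanishing cross product are proportional. -/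
theorem UpperC_prop {L : Type} [Field L] {x y : Fin 3 → L} (hx : x ≠ 0) (h : cr x y = 0) :
    ∃ t : L, y = t • x := by
  obtain ⟨a, ha⟩ := Function.ne_iff.1 hx
  have ha' : x a ≠ 0 := ha
  refine ⟨y a / x a, funext fun b => ?_⟩
  have h1 : x a * y b - x b * y a = 0 := congrFun h (a, b)
  rw [Pi.smul_apply, smul_eq_mul]
  field_simp
  linear_combination h1

/-- Proportionality descends. -/
theorem UpperC_cr {L : Type} [Field L] [Algebra K L] {x z : Fin 3 → K} {t : L}
    (h : inc L z = t • inc L x) : cr x z = 0 := by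
  funext q
  apply (algebraMap K L).injective
  have h1 : ∀ a, algebraMap K L (z a) = t * algebraMap K L (x a) := fun a => congrFun h a
  unfold cr
  rw [map_sub, map_mul, map_mul, h1, h1, Pi.zero_apply, map_zero]
  ring

end

variable {K : Type} [Field K] [NumberField K] [Algebra K ℂ]

/-- The other places. -/
theorem upper_c {d : ℕ} (hd : 2 ≤ d) {F : Fin 3 → MvPolynomial (Fin 3) K}
    (hF : ∀ i, (F i).IsHomogeneous d)
    (hnz : ∀ x : Fin 3 → ℂ, (∀ i, aeval x (F i) = 0) → x = 0) {x : Fin 3 → K} (hx : x ≠ 0)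
    (hdist : ∀ n n', n ≠ n' → cr (iter F x n) (iter F x n') ≠ 0)
    {g : MvPolynomial (Fin 3) K} {D : ℕ} (hg : g.IsHomogeneous D) (hirr : Irreducible g)
    {i l : ℕ} (hnd : ¬ g ∣ aeval (itp F l) g) :
    ∃ C₅ : ℝ, 0 ≤ C₅ ∧ ∀ (N : ℕ) (T : Finset (AbsoluteValue K ℝ)), 0 < N →
      (∀ v ∈ T, v ∈ nonarchAbsVal (K := K) ∧ 0 ≤ ct v (iter F x i) (iter F x (i + N)) ∧
        Loc v F g D x i N l) →
      ∑ v ∈ T, ct v (iter F x i) (iter F x (i + N)) ≤ C₅ := by
  classical
  have hψ : (aeval (itp F l) g).IsHomogeneous (d ^ l * D) :=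
    hg.aeval (itp F l) (Pool.Agent.Helper33.SS.itp_homogeneous hF l)
  obtain ⟨s, A, -, hA⟩ := exists_fp hg hψ hirr hnd
  have hNF : ∀ j, NumberField (A j).L := fun j => NumberField.of_module_finite K (A j).L
  have hxn : ∀ n, iter F x n ≠ 0 := iter_ne_zeroL hd hF hnz hx
  set c : Fin s → ℝ := fun j => if cr (inc (A j).L (iter F x i)) (A j).y = 0 then 0 else
    ∑ᶠ V : nonarchAbsVal (K := (A j).L), ct V.val (inc (A j).L (iter F x i)) (A j).y with hc
  have hc0 : ∀ j, 0 ≤ c j := by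
    intro j
    rw [hc]
    dsimp only
    split_ifs with hP
    · exact le_rfl
    · exact finsum_nonneg fun V => ct_nonneg (isNonarchimedean V.val V.2) hP
  refine ⟨∑ j, c j, Finset.sum_nonneg fun j _ => hc0 j, ?_⟩
  intro N T hN hT
  -- the index of a place
  have hidx : ∀ v : {v // v ∈ T}, ∃ j : Fin s, ∃ V ∈ nonarchAbsVal (K := (A j).L),
      Est v.1 V F g D x i N (A j).y := by
    rintro ⟨v, hv⟩
    obtain ⟨hv0, hct, E, fE, aE, W, w, hW, hvW, hw0, hw1, hw2, hE⟩ := hT v hv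
    obtain ⟨j, σ, c', hc', hw⟩ := hA E w (hw0 0) hw1 (by rw [aeval_itp]; exact hw2)
    exact ⟨j, hE.descend hF hg hv0 hW hvW hxn hw0 hct σ hc' hw⟩
  choose J hJ using hidx
  rw [← Finset.sum_attach T, ← Finset.sum_fiberwise T.attach J]
  refine Finset.sum_le_sum fun j _ => ?_
  set Tj : Finset (AbsoluteValue K ℝ) := (T.attach.filter fun v => J v = j).map
    (Function.Embedding.subtype _) with hTj
  have hsum : ∑ v ∈ T.attach with J v = j, ct v.1 (iter F x i) (iter F x (i + N)) =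
      ∑ v ∈ Tj, ct v (iter F x i) (iter F x (i + N)) := by
    rw [hTj, Finset.sum_map]
    rfl
  rw [hsum]
  have hTjT : ∀ v ∈ Tj, v ∈ nonarchAbsVal (K := K) := by
    intro v hv
    rw [hTj, Finset.mem_map] at hv
    obtain ⟨v₁, -, hvv⟩ := hv
    rw [← hvv]
    exact (hT v₁.1 v₁.2).1
  have hEst : ∀ v ∈ Tj, ∃ V ∈ nonarchAbsVal (K := (A j).L), Est v V F g D x i N (A j).y := by
    intro v hv
    rw [hTj, Finset.mem_map] at hv
    obtain ⟨v₁, hv₁, hvv⟩ := hv
    rw [Finset.mem_filter] at hv₁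
    obtain ⟨V, hV, hE⟩ := hJ v₁
    rw [← hvv]
    have h1 := hv₁.2
    subst h1
    exact ⟨V, hV, hE⟩
  rcases Tj.eq_empty_or_nonempty with hem | ⟨v₀, hv₀⟩
  · rw [hem, Finset.sum_empty]
    exact hc0 j
  obtain ⟨V₀, -, hV₀⟩ := hEst v₀ hv₀
  -- the point is not on the orbit
  have hne : cr (inc (A j).L (iter F x i)) (A j).y ≠ 0 := by
    intro h0
    obtain ⟨t, hty⟩ := UpperC_prop (inc_ne_zero (hxn i)) h0
    have ht : t ≠ 0 := by
      rintro rfl
      rw [zero_smul] at hty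
      exact (A j).ne hty
    obtain ⟨γ, hγ⟩ := hV₀.per
    rw [hty, iter_smulL hF, iter_inc, ← Pool.Agent.Helper36.iter_add, smul_smul,
      add_comm N i] at hγ
    have ht' : t ^ d ^ N ≠ 0 := pow_ne_zero _ ht
    have h1 : inc (A j).L (iter F x (i + N)) =
        ((t ^ d ^ N)⁻¹ * (γ * t)) • inc (A j).L (iter F x i) := by
      rw [← smul_smul, ← hγ, smul_smul, inv_mul_cancel₀ ht', one_smul]
    exact hdist i (i + N) (by omega) (UpperC_cr h1)
  have hcj : c j = ∑ᶠ V : nonarchAbsVal (K := (A j).L),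
      ct V.val (inc (A j).L (iter F x i)) (A j).y := by
    rw [hc]
    dsimp only
    rw [if_neg hne]
  rw [hcj]
  have : Nonempty (AbsoluteValue (A j).L ℝ) := ⟨V₀⟩
  choose! vb hvb using hEst
  exact sum_le_finsum Tj hTjT _ vb (fun v hv => (hvb v hv).1) (fun v hv => (hvb v hv).2.ext)
    (fun V => ct V (inc (A j).L (iter F x i)) (A j).y)
    (fun V hV => ct_nonneg (isNonarchimedean V hV) hne) (FS_ct hne)
    (fun v hv => (hvb v hv).2.con hne)

end Pool.Agent.Helper45.TG2
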