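import Pool.Agent.Helper45.TG2.UpperAB
import Pool.Agent.Helper45.TG2.UpperC

/-!
# Project TG2 (A): the upper bound for the contacts
-/

set_option autoImplicit false

namespace Pool.Agent.Helper45.TG2

open MvPolynomial Height AdmissibleAbsValues
open Pool.Agent.Helper29.TG
open Pool.Agent.Helper36 (step iter)
open Pool.Agent.Helper33.SS (jprod itp)

variable {K : Type} [Field K] [NumberField K] [Algebra K ℂ]

theorem upper {d : ℕ} (hd : 2 ≤ d) {F : Fin 3 → MvPolynomial (Fin 3) K}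
    (hF : ∀ i, (F i).IsHomogeneous d)
    (hnz : ∀ x : Fin 3 → ℂ, (∀ i, aeval x (F i) = 0) → x = 0) {x : Fin 3 → K} (hx : x ≠ 0)
    (hdist : ∀ n n', n ≠ n' → cr (iter F x n) (iter F x n') ≠ 0)
    {g : MvPolynomial (Fin 3) K} {D : ℕ} (hg : g.IsHomogeneous D) (hirr : Irreducible g)
    (hnd : ∀ l, 0 < l → ¬ g ∣ aeval (itp F l) g)
    (hinf : {n | eval (iter F x n) g = 0}.Infinite) :
    ∃ C₆ : ℝ, 0 ≤ C₆ ∧ ∀ i, eval (iter F x i) g = 0 → ∃ C₅ : ℝ, 0 ≤ C₅ ∧ ∀ n, i < n →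
      ∀ T : Finset (AbsoluteValue K ℝ),
      (∀ v ∈ T, v ∈ nonarchAbsVal (K := K) ∧ Good v d F ∧ v (d : K) = 1 ∧ CoeffInt v g ∧
        (0 < ct v (iter F x i) (iter F x n) →
          ∀ c : K, nm v (c • iter F x i) = 1 → Nil v F (c • iter F x i) (n - i))) →
      ∑ v ∈ T, ct v (iter F x i) (iter F x n) ≤ C₆ * (d : ℝ) ^ (n - i) + C₅ := by
  classical
  obtain ⟨C₆, hC₆, h6⟩ := upper_ab hd hF hnz hx hdist hg hirr hnd hinf
  refine ⟨C₆, hC₆, fun i hi => ?_⟩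
  obtain ⟨m, hm, him⟩ := hinf.exists_gt i
  obtain ⟨l, hl, rfl⟩ : ∃ l, 0 < l ∧ m = i + l := ⟨m - i, by omega, by omega⟩
  obtain ⟨C₅, hC₅, h5⟩ := upper_c hd hF hnz hx hdist hg hirr (i := i) (hnd l hl)
  refine ⟨C₅, hC₅, fun n hn T hT => ?_⟩
  obtain ⟨N, hN, rfl⟩ : ∃ N, 0 < N ∧ n = i + N := ⟨n - i, by omega, by omega⟩
  rw [Nat.add_sub_cancel_left] at hT ⊢
  set ρ : AbsoluteValue K ℝ → ℝ := fun v => ct v (iter F x i) (iter F x (i + N)) with hρ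
  obtain ⟨T₁, T₂, hT₁, hs, h2, h1⟩ := h6 i l N hi hm hN (T.filter fun v => 0 < ρ v) (by
    intro v hv
    obtain ⟨hv1, hv2⟩ := Finset.mem_filter.1 hv
    obtain ⟨a1, a2, a3, a4, a5⟩ := hT v hv1
    exact ⟨a1, a2, a3, a4, hv2, a5 hv2⟩)
  have h3 := h5 N T₁ hN (by
    intro v hv
    obtain ⟨hv1, hv2⟩ := Finset.mem_filter.1 (hT₁ hv)
    exact ⟨(hT v hv1).1, hv2.le, h1 v hv⟩)
  have h4 : ∑ v ∈ T, ρ v ≤ ∑ v ∈ T.filter (fun v => 0 < ρ v), ρ v := by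
    rw [Finset.sum_filter]
    refine Finset.sum_le_sum fun v _ => ?_
    split_ifs with hv
    · exact le_rfl
    · exact not_lt.1 hv
  calc ∑ v ∈ T, ρ v ≤ ∑ v ∈ T.filter (fun v => 0 < ρ v), ρ v := h4
    _ = ∑ v ∈ T₁, ρ v + ∑ v ∈ T₂, ρ v := hs
    _ ≤ C₆ * (d : ℝ) ^ N + C₅ := by linarith

end Pool.Agent.Helper45.TG2
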