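import Pool.Agent.Helper45.TG2.Loc
import Pool.Agent.Helper45.TG2.Local
import Pool.Agent.Helper45.TG2.Descend
import Pool.Agent.Helper45.TG2.Count
import Pool.Agent.Helper45.TG2.Pts
import Pool.Agent.Helper45.TG2.Sum

/-!
# Project TG2 (A): the upper bound for the contacts, first part
-/

set_option autoImplicit false

namespace Pool.Agent.Helper45.TG2

open MvPolynomial Height AdmissibleAbsValues
open Pool.Agent.Helper29.TG
open Pool.Agent.Helper36 (step iter iter_add iter_map)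
open Pool.Agent.Helper33.SS (jprod itp)

variable {K : Type} [Field K] [NumberField K]

/-- Summation over the places with the same periodic point. -/
theorem sum_le_finsum_est {F : Fin 3 → MvPolynomial (Fin 3) K} {g : MvPolynomial (Fin 3) K}
    {D : ℕ} {x : Fin 3 → K} {i N : ℕ} {L : Type} [Field L] [NumberField L] [Algebra K L]
    {w : Fin 3 → L} (T : Finset (AbsoluteValue K ℝ))
    (hT0 : ∀ v ∈ T, v ∈ nonarchAbsVal (K := K)) (ρ : AbsoluteValue K ℝ → ℝ)
    (hT : ∀ v ∈ T, ∃ V ∈ nonarchAbsVal (K := L), Est v V F g D x i N w)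
    (G : AbsoluteValue L ℝ → ℝ)
    (hG : ∀ V ∈ nonarchAbsVal (K := L), 0 ≤ G V) (hs : FS G)
    (hρ : ∀ v ∈ T, ∀ V ∈ nonarchAbsVal (K := L), Est v V F g D x i N w → ρ v ≤ G V) :
    ∑ v ∈ T, ρ v ≤ ∑ᶠ V : nonarchAbsVal (K := L), G V.val := by
  classical
  rcases T.eq_empty_or_nonempty with h0 | ⟨b₀, hb₀⟩
  · rw [h0, Finset.sum_empty]
    exact finsum_nonneg fun V => hG V.val V.2
  · obtain ⟨v₀, -, -⟩ := hT b₀ hb₀
    refine sum_le_finsum T hT0 ρ
      (fun b => if hb : b ∈ T then (hT b hb).choose else v₀) ?_ ?_ G hG hs ?_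
    · intro b hb
      simp only [dif_pos hb]
      exact (hT b hb).choose_spec.1
    · intro b hb
      simp only [dif_pos hb]
      exact (hT b hb).choose_spec.2.ext
    · intro b hb
      simp only [dif_pos hb]
      exact hρ b hb _ (hT b hb).choose_spec.1 (hT b hb).choose_spec.2

variable [Algebra K ℂ]

/-- The places at which the periodic point is not on the curve at the time `0` or `l`. -/
theorem upper_ab {d : ℕ} (hd : 2 ≤ d) {F : Fin 3 → MvPolynomial (Fin 3) K}
    (hF : ∀ i, (F i).IsHomogeneous d)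
    (hnz : ∀ x : Fin 3 → ℂ, (∀ i, aeval x (F i) = 0) → x = 0) {x : Fin 3 → K} (hx : x ≠ 0)
    (hdist : ∀ n n', n ≠ n' → cr (iter F x n) (iter F x n') ≠ 0)
    {g : MvPolynomial (Fin 3) K} {D : ℕ} (hg : g.IsHomogeneous D) (hirr : Irreducible g)
    (hnd : ∀ l, 0 < l → ¬ g ∣ aeval (itp F l) g)
    (hinf : {n | eval (iter F x n) g = 0}.Infinite) :
    ∃ C₆ : ℝ, 0 ≤ C₆ ∧ ∀ i l N : ℕ, eval (iter F x i) g = 0 → eval (iter F x (i + l)) g = 0 →
      0 < N → ∀ T : Finset (AbsoluteValue K ℝ),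
      (∀ v ∈ T, v ∈ nonarchAbsVal (K := K) ∧ Good v d F ∧ v (d : K) = 1 ∧ CoeffInt v g ∧
        0 < ct v (iter F x i) (iter F x (i + N)) ∧
        ∀ c : K, nm v (c • iter F x i) = 1 → Nil v F (c • iter F x i) N) →
      ∃ T₁ T₂ : Finset (AbsoluteValue K ℝ), T₁ ⊆ T ∧
        ∑ v ∈ T, ct v (iter F x i) (iter F x (i + N)) =
          ∑ v ∈ T₁, ct v (iter F x i) (iter F x (i + N)) +
            ∑ v ∈ T₂, ct v (iter F x i) (iter F x (i + N)) ∧
        ∑ v ∈ T₂, ct v (iter F x i) (iter F x (i + N)) ≤ C₆ * (d : ℝ) ^ N ∧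
        ∀ v ∈ T₁, Loc v F g D x i N l := by
  classical
  have hxn : ∀ n, iter F x n ≠ 0 := iter_ne_zeroL hd hF hnz hx
  obtain ⟨C, hC0, hC⟩ := exists_count_bound hd hF hnz hg
  refine ⟨3 * C * D * D, by positivity, fun i l N hi hil hN T hT => ?_⟩
  obtain ⟨r, hrN, hr⟩ := exists_class hinf i hN
  obtain ⟨s, A, hsum, hA⟩ := exists_fp hg
    (hg.aeval (itp F N) (Pool.Agent.Helper33.SS.itp_homogeneous hF N)) hirr (hnd N hN)
  have hNF : ∀ j, NumberField (A j).L := fun j => NumberField.of_module_finite K (A j).L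
  -- the periodic points
  set y' : ∀ j, Fin 3 → (A j).L := fun j => iter F (A j).y (N - r) with hy'
  have hy0 : ∀ j, y' j ≠ 0 := fun j => iter_ne_zeroL hd hF hnz (A j).ne _
  set Q : AbsoluteValue K ℝ → Fin s → Prop := fun v j =>
    (∃ V ∈ nonarchAbsVal (K := (A j).L), Est v V F g D x i N (y' j)) with hQ
  have key : ∀ v ∈ T, ∃ j, Q v j ∧
      (aeval (y' j) g = 0 ∧ aeval (iter F (y' j) l) g = 0 → Loc v F g D x i N l) := by
    intro v hv
    obtain ⟨hv0, hv1, hv2, hv3, hv4, hv5⟩ := hT v hv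
    obtain ⟨E, _, _, W, w, hW, hvW, hw0, hwr, hE⟩ :=
      local_point hv1 (by omega) hv2 hxn hg hv3 (hdist i (i + N) (by omega)) hv5 hr hv4
    obtain ⟨γ, hγ⟩ := hE.per
    have hwl : ∀ n, iter F w n ≠ 0 := fun n => iter_ne_zeroL hd hF hnz hw0 n
    have hγ0 : γ ≠ 0 := by
      rintro rfl
      rw [zero_smul] at hγ
      exact hwl N hγ
    have h2 : aeval (iter F w r) (aeval (itp F N) g) = 0 := by
      rw [aeval_itp, ← iter_add, Nat.add_comm N r, iter_add, hγ, iter_smulL hF,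
        aeval_smulL hg, hwr, mul_zero]
    obtain ⟨j, σ, c, hc, hw⟩ := hA E (iter F w r) (hwl r) hwr h2
    have h4 : iter F w N = c ^ d ^ (N - r) • fun a => σ (y' j a) := by
      have h5 : N = (N - r) + r := by omega
      conv_lhs => rw [h5]
      rw [iter_add, hw]
      have h6 : (fun a => c * σ ((A j).y a)) = c • fun a => σ ((A j).y a) := rfl
      rw [h6, iter_smulL hF, iter_map]
    have h7 : w = fun a => (γ⁻¹ * c ^ d ^ (N - r)) * σ (y' j a) := by
      rw [hγ] at h4
      funext a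
      have h8 := congrFun h4 a
      rw [Pi.smul_apply, Pi.smul_apply, smul_eq_mul, smul_eq_mul] at h8
      rw [mul_assoc, ← h8, ← mul_assoc, inv_mul_cancel₀ hγ0, one_mul]
    refine ⟨j, ?_, ?_⟩
    · exact hE.descend hF hg hv0 hW hvW hxn hwl hv4.le σ
        (mul_ne_zero (inv_ne_zero hγ0) (pow_ne_zero _ hc)) h7
    · rintro ⟨h8, h9⟩
      have h10 : w = (γ⁻¹ * c ^ d ^ (N - r)) • fun a => σ (y' j a) := h7
      have h11 : ∀ n, aeval (iter F (fun a => σ (y' j a)) n) g = σ (aeval (iter F (y' j) n) g) := by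
        intro n
        rw [iter_map, comp_aeval_apply]
      refine ⟨E, inferInstance, inferInstance, W, w, hW, hvW, hwl, ?_, ?_, hE⟩
      · have h12 := h11 0
        rw [Pool.Agent.Helper36.iter_zero, Pool.Agent.Helper36.iter_zero, h8, map_zero] at h12
        rw [h10, aeval_smulL hg, h12, mul_zero]
      · rw [h10, iter_smulL hF, aeval_smulL hg, h11, h9, map_zero, mul_zero]
  set ρ : AbsoluteValue K ℝ → ℝ := fun v => ct v (iter F x i) (iter F x (i + N)) with hρ
  set J₁ : Finset (Fin s) := Finset.univ.filter fun j =>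
    ¬ (aeval (y' j) g = 0 ∧ aeval (iter F (y' j) l) g = 0) with hJ₁
  refine ⟨T.filter fun v => ¬ ∃ j ∈ J₁, Q v j, T.filter fun v => ∃ j ∈ J₁, Q v j,
    Finset.filter_subset _ _, ?_, ?_, ?_⟩
  · rw [add_comm]
    exact (Finset.sum_filter_add_sum_filter_not T (fun v => ∃ j ∈ J₁, Q v j) ρ).symm
  · have hj : ∀ j ∈ J₁, ∑ v ∈ T.filter (fun v => Q v j), ρ v ≤
        C * (Module.finrank K (A j).L : ℝ) := by
      intro j hj
      rw [hJ₁, Finset.mem_filter] at hj
      rcases (T.filter fun v => Q v j).eq_empty_or_nonempty with h0 | ⟨b₀, hb₀⟩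
      · rw [h0, Finset.sum_empty]
        positivity
      obtain ⟨v₀, -, hv₀⟩ := (Finset.mem_filter.1 hb₀).2
      obtain ⟨γ, hγ⟩ := hv₀.per
      have hex : ∃ m, eval (iter F x (i + m)) g = 0 ∧ aeval (iter F (y' j) m) g ≠ 0 := by
        by_cases h1 : aeval (y' j) g = 0
        · refine ⟨l, hil, fun h2 => hj.2 ⟨h1, h2⟩⟩
        · exact ⟨0, hi, h1⟩
      obtain ⟨m, hm1, hm2⟩ := hex
      obtain ⟨G, g1, g2, g3⟩ := hC (A j).L (y' j) N γ (hy0 j) hN hγ m hm2
      refine (sum_le_finsum_est (F := F) (g := g) (D := D) (x := x) (i := i) (N := N)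
        (w := y' j) _ (fun v hv => (hT v (Finset.mem_filter.1 hv).1).1) ρ
        (fun v hv => (Finset.mem_filter.1 hv).2) G (fun V hV => (g2 V hV).1) g1 ?_).trans g3
      intro v _ V hV hE
      exact (hE.est m hm1 hm2).trans (g2 V hV).2
    have hρ0 : ∀ v ∈ T, 0 ≤ ρ v := fun v hv => (hT v hv).2.2.2.2.1.le
    calc ∑ v ∈ T.filter (fun v => ∃ j ∈ J₁, Q v j), ρ v
        ≤ ∑ v ∈ T.filter (fun v => ∃ j ∈ J₁, Q v j), ∑ j ∈ J₁, (if Q v j then ρ v else 0) := by
          refine Finset.sum_le_sum fun v hv => ?_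
          obtain ⟨hvT, j, hjJ, hq⟩ := Finset.mem_filter.1 hv
          have h1 : ρ v = (fun j => if Q v j then ρ v else 0) j := (if_pos hq).symm
          refine h1.trans_le (Finset.single_le_sum (f := fun j => if Q v j then ρ v else 0) ?_ hjJ)
          intro j' _
          split_ifs
          · exact hρ0 v hvT
          · exact le_rfl
      _ ≤ ∑ v ∈ T, ∑ j ∈ J₁, (if Q v j then ρ v else 0) := by
          refine Finset.sum_le_sum_of_subset_of_nonneg (Finset.filter_subset _ _) ?_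
          intro v hv _
          refine Finset.sum_nonneg fun j _ => ?_
          split_ifs
          · exact hρ0 v hv
          · exact le_rfl
      _ = ∑ j ∈ J₁, ∑ v ∈ T.filter (fun v => Q v j), ρ v := by
          rw [Finset.sum_comm]
          exact Finset.sum_congr rfl fun j _ => (Finset.sum_filter _ _).symm
      _ ≤ ∑ j ∈ J₁, C * (Module.finrank K (A j).L : ℝ) := Finset.sum_le_sum hj
      _ ≤ ∑ j, C * (Module.finrank K (A j).L : ℝ) :=
          Finset.sum_le_sum_of_subset_of_nonneg (Finset.subset_univ _)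
            fun j _ _ => by positivity
      _ = C * ((∑ j, Module.finrank K (A j).L : ℕ) : ℝ) := by
          rw [← Finset.mul_sum]
          push_cast
          rfl
      _ ≤ C * ((3 * (D * (d ^ N * D)) : ℕ) : ℝ) :=
          mul_le_mul_of_nonneg_left (by exact_mod_cast hsum) hC0
      _ = 3 * C * D * D * (d : ℝ) ^ N := by
          push_cast
          ring
  · intro v hv
    obtain ⟨hvT, hn⟩ := Finset.mem_filter.1 hv
    obtain ⟨j, hq, hloc⟩ := key v hvT
    have hj : j ∉ J₁ := fun h1 => hn ⟨j, h1, hq⟩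
    rw [hJ₁, Finset.mem_filter, not_and, not_not] at hj
    exact hloc (hj (Finset.mem_univ _))

end Pool.Agent.Helper45.TG2
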